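import Mathlib

/-!
# Weighted bisections: integral optima

`W` is a symmetric 0/1-matrix with ones on the diagonal. The form `Σ W c d a_c (t - a_d)` on the
vectors `0 ≤ a ≤ t` with a given sum (divisible by `t`) is minimal at a vector with entries `0`
and `t`.
-/

set_option autoImplicit false

namespace Pool.Agent.Y645.BT

open Finset

variable {N : ℕ}

/-- The quadratic form. -/
def frm (W : Fin N → Fin N → Bool) (t : ℤ) (a : Fin N → ℤ) : ℤ :=
  ∑ c, ∑ d, if W c d = true then a c * (t - a d) else 0

/-- Change of two coordinates in opposite directions. -/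
def mv (a : Fin N → ℤ) (u v : Fin N) (z : ℤ) : Fin N → ℤ :=
  fun c => a c + (if c = u then z else 0) - (if c = v then z else 0)

theorem mv_sum (a : Fin N → ℤ) (u v : Fin N) (z : ℤ) : ∑ c, mv a u v z c = ∑ c, a c := by
  unfold mv
  rw [sum_sub_distrib, sum_add_distrib]
  simp

theorem mv_left {a : Fin N → ℤ} {u v : Fin N} (huv : u ≠ v) {z : ℤ} : mv a u v z u = a u + z := by
  simp [mv, huv]

theorem mv_right {a : Fin N → ℤ} {u v : Fin N} (huv : u ≠ v) {z : ℤ} :
    mv a u v z v = a v - z := by
  simp [mv, huv.symm]

theorem mv_other {a : Fin N → ℤ} {u v c : Fin N} (hu : c ≠ u) (hv : c ≠ v) {z : ℤ} :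
    mv a u v z c = a c := by
  simp [mv, hu, hv]

/-- The linear part. -/
def lin (W : Fin N → Fin N → Bool) (t : ℤ) (a : Fin N → ℤ) (u v : Fin N) : ℤ :=
  frm W t (mv a u v 1) - frm W t a +
    (∑ c, ∑ d, if W c d = true then
      ((if c = u then (1 : ℤ) else 0) - (if c = v then 1 else 0)) *
      ((if d = u then (1 : ℤ) else 0) - (if d = v then 1 else 0)) else 0)

theorem frm_mv (W : Fin N → Fin N → Bool) (t : ℤ) (a : Fin N → ℤ) (u v : Fin N) (z : ℤ) :
    frm W t (mv a u v z) = frm W t a + z * lin W t a u v - z ^ 2 *
    (∑ c, ∑ d, if W c d = true then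
      ((if c = u then (1 : ℤ) else 0) - (if c = v then 1 else 0)) *
      ((if d = u then (1 : ℤ) else 0) - (if d = v then 1 else 0)) else 0) := by
  unfold lin frm mv
  simp only [mul_add, mul_sub, Finset.mul_sum, ← Finset.sum_add_distrib, ← Finset.sum_sub_distrib]
  refine Finset.sum_congr rfl fun c _ => Finset.sum_congr rfl fun d _ => ?_
  by_cases h : W c d = true
  · simp only [h, if_true]
    split_ifs <;> ring
  · simp [h]

theorem diag_form (W : Fin N → Fin N → Bool) (hs : ∀ c d, W c d = W d c) (hd : ∀ c, W c c = true)
    {u v : Fin N} (huv : u ≠ v) :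
    0 ≤ ∑ c, ∑ d, (if W c d = true then
      ((if c = u then (1 : ℤ) else 0) - (if c = v then 1 else 0)) *
      ((if d = u then (1 : ℤ) else 0) - (if d = v then 1 else 0)) else 0) := by
  have h1 : ∀ c, (∑ d, (if W c d = true then
      ((if c = u then (1 : ℤ) else 0) - (if c = v then 1 else 0)) *
      ((if d = u then (1 : ℤ) else 0) - (if d = v then 1 else 0)) else 0)) =
      ((if c = u then (1 : ℤ) else 0) - (if c = v then 1 else 0)) *
        ((if W c u = true then 1 else 0) - (if W c v = true then 1 else 0)) := by
    intro c
    have h2 : ∀ d, (if W c d = true then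
      ((if c = u then (1 : ℤ) else 0) - (if c = v then 1 else 0)) *
      ((if d = u then (1 : ℤ) else 0) - (if d = v then 1 else 0)) else 0) =
      ((if c = u then (1 : ℤ) else 0) - (if c = v then 1 else 0)) *
      ((if d = u then (if W c u = true then 1 else 0) else 0) -
        (if d = v then (if W c v = true then 1 else 0) else 0)) := by
      intro d
      by_cases h3 : d = u
      · subst h3
        by_cases h4 : d = v
        · exact absurd h4 huv
        · by_cases h5 : W c d = true <;> simp [h4, h5]
      · by_cases h4 : d = v
        · subst h4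
          by_cases h5 : W c d = true <;> simp [h3, h5]
        · simp [h3, h4]
    rw [Finset.sum_congr rfl fun d _ => h2 d, ← Finset.mul_sum, Finset.sum_sub_distrib]
    simp
  rw [Finset.sum_congr rfl fun c _ => h1 c]
  simp only [sub_mul, ite_mul, one_mul, zero_mul, Finset.sum_sub_distrib, Finset.sum_ite_eq',
    Finset.mem_univ, if_true, hd, hs v u]
  split_ifs <;> norm_num

/-- **Integral optimum.** -/
theorem frm_lower (W : Fin N → Fin N → Bool) (hs : ∀ c d, W c d = W d c)
    (hd : ∀ c, W c c = true) {t : ℤ} (ht : 0 < t) {K M : ℤ}
    (hK : ∀ S : Finset (Fin N), (S.card : ℤ) = M →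
      K * t ^ 2 ≤ frm W t (fun c => if c ∈ S then t else 0)) :
    ∀ (k : ℕ) (a : Fin N → ℤ), (∀ c, 0 ≤ a c ∧ a c ≤ t) → ∑ c, a c = M * t →
      (univ.filter fun c => a c ≠ 0 ∧ a c ≠ t).card = k → K * t ^ 2 ≤ frm W t a := by
  intro k
  induction k using Nat.strong_induction_on with
  | _ k ih =>
    intro a ha hsum hk
    rcases Nat.lt_or_ge 1 k with h1 | h1
    · -- two fractional coordinates
      rw [← hk] at h1
      obtain ⟨u, hu, v, hv, huv⟩ := Finset.one_lt_card.1 h1
      simp only [mem_filter, mem_univ, true_and] at hu hv
      have hu1 : 0 < a u := lt_of_le_of_ne (ha u).1 (Ne.symm hu.1)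
      have hu2 : a u < t := lt_of_le_of_ne (ha u).2 hu.2
      have hv1 : 0 < a v := lt_of_le_of_ne (ha v).1 (Ne.symm hv.1)
      have hv2 : a v < t := lt_of_le_of_ne (ha v).2 hv.2
      -- the two extreme moves
      have key : ∀ z : ℤ, (0 ≤ a u + z ∧ a u + z ≤ t) → (0 ≤ a v - z ∧ a v - z ≤ t) →
          (a u + z = 0 ∨ a u + z = t ∨ a v - z = 0 ∨ a v - z = t) →
          K * t ^ 2 ≤ frm W t (mv a u v z) := by
        intro z h2 h3 h4
        refine ih _ ?_ (mv a u v z) ?_ (by rw [mv_sum, hsum]) rfl
        · rw [← hk]
          apply Finset.card_lt_card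
          refine ⟨?_, ?_⟩
          · intro c hc
            have hc' := (mem_filter.1 hc).2
            refine mem_filter.2 ⟨mem_univ _, ?_⟩
            by_cases h5 : c = u
            · rw [h5]; exact hu
            · by_cases h6 : c = v
              · rw [h6]; exact hv
              · rwa [mv_other h5 h6] at hc'
          · intro h5
            rcases h4 with h4 | h4 | h4 | h4
            · have := (mem_filter.1 (h5 (mem_filter.2 ⟨mem_univ u, hu⟩))).2
              rw [mv_left huv] at this
              exact this.1 h4
            · have := (mem_filter.1 (h5 (mem_filter.2 ⟨mem_univ u, hu⟩))).2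
              rw [mv_left huv] at this
              exact this.2 h4
            · have := (mem_filter.1 (h5 (mem_filter.2 ⟨mem_univ v, hv⟩))).2
              rw [mv_right huv] at this
              exact this.1 h4
            · have := (mem_filter.1 (h5 (mem_filter.2 ⟨mem_univ v, hv⟩))).2
              rw [mv_right huv] at this
              exact this.2 h4
        · intro c
          by_cases h5 : c = u
          · rw [h5, mv_left huv]; exact h2
          · by_cases h6 : c = v
            · rw [h6, mv_right huv]; exact h3
            · rw [mv_other h5 h6]; exact ha c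
      have k1 := key (min (t - a u) (a v)) (by omega) (by omega) (by omega)
      have k2 := key (-(min (a u) (t - a v))) (by omega) (by omega) (by omega)
      have hq := diag_form W hs hd huv
      rw [frm_mv] at k1 k2
      set q := ∑ c, ∑ d, (if W c d = true then
        ((if c = u then (1 : ℤ) else 0) - (if c = v then 1 else 0)) *
        ((if d = u then (1 : ℤ) else 0) - (if d = v then 1 else 0)) else 0) with hqd
      have hz1 : 0 < min (t - a u) (a v) := by omega
      have hz2 : 0 < min (a u) (t - a v) := by omega
      generalize min (t - a u) (a v) = z1 at k1 hz1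
      generalize min (a u) (t - a v) = z2 at k2 hz2
      by_contra hcon
      rw [not_le] at hcon
      have e1 : 0 < z1 * lin W t a u v := by nlinarith [mul_nonneg (sq_nonneg z1) hq]
      have e2 : 0 < -z2 * lin W t a u v := by nlinarith [mul_nonneg (sq_nonneg z2) hq]
      have e3 : 0 < lin W t a u v := (mul_pos_iff_of_pos_left hz1).1 e1
      nlinarith
    · -- at most one
      have hfin : ∀ c, a c = 0 ∨ a c = t := by
        by_contra hcon
        push Not at hcon
        obtain ⟨u, hu⟩ := hcon
        have hone : (univ.filter fun c => a c ≠ 0 ∧ a c ≠ t) = {u} := by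
          symm
          apply Finset.eq_of_subset_of_card_le
          · simp [hu]
          · rw [hk]; simpa using h1
        have hoth : ∀ c, c ≠ u → a c = 0 ∨ a c = t := by
          intro c hc
          by_contra h2
          push Not at h2
          have : c ∈ univ.filter fun c => a c ≠ 0 ∧ a c ≠ t := by simp [h2]
          rw [hone] at this
          exact hc (Finset.mem_singleton.1 this)
        have hdvd : t ∣ a u := by
          have h3 : a u = M * t - ∑ c ∈ univ.erase u, a c := by
            rw [← hsum, ← Finset.add_sum_erase univ a (mem_univ u)]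
            ring
          rw [h3]
          refine dvd_sub (dvd_mul_left _ _) (Finset.dvd_sum fun c hc => ?_)
          rcases hoth c (Finset.ne_of_mem_erase hc) with h4 | h4 <;> simp [h4]
        have hu1 : 0 < a u := lt_of_le_of_ne (ha u).1 (Ne.symm hu.1)
        have := Int.le_of_dvd hu1 hdvd
        have := (ha u).2
        exact hu.2 (by omega)
      set S := univ.filter fun c => a c = t with hS
      have haS : a = fun c => if c ∈ S then t else 0 := by
        funext c
        by_cases h2 : a c = t
        · simp [hS, h2]
        · rcases hfin c with h3 | h3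
          · simp [hS, h2, h3, ht.ne]
          · exact absurd h3 h2
      have hcard : (S.card : ℤ) = M := by
        have h2 : ∑ c, a c = S.card * t := by
          rw [haS]
          simp [Finset.sum_ite_mem]
        rw [hsum] at h2
        exact (mul_right_cancel₀ ht.ne' h2).symm
      rw [haS]
      exact hK S hcard

end Pool.Agent.Y645.BT
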