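import Pool.Agent.Y645.BT.Conc
import Pool.Agent.Y645.BT.Frac

/-!
# Blow-ups with clique classes
-/

set_option autoImplicit false

namespace Pool.Agent.Y645.BT

open Finset

variable {N t : ℕ}

/-- The class of a vertex of the blow-up. -/
def cls (u : Fin (N * t)) : Fin N := (finProdFinEquiv.symm u).1

/-- The matrix of the blow-up. -/
def WJ (J : Fin N → Fin N → Bool) (c d : Fin N) : Bool := decide (c = d) || J c d

/-- The blow-up of `J`: every vertex becomes a clique with `t` vertices. -/
def blow (J : Fin N → Fin N → Bool) (t : ℕ) : Gr (N * t) := fun p =>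
  WJ J (cls p.1.1) (cls p.1.2)

/-- The cut of a set of classes. -/
def cutJ (J : Fin N → Fin N → Bool) (T : Finset (Fin N)) : ℕ :=
  ((T ×ˢ Tᶜ).filter fun p => J p.1 p.2 = true).card

theorem WJ_comm {J : Fin N → Fin N → Bool} (hJ : ∀ c d, J c d = J d c) (c d : Fin N) :
    WJ J c d = WJ J d c := by
  unfold WJ
  rw [hJ c d]
  congr 1
  exact decide_eq_decide.2 eq_comm

theorem WJ_self (J : Fin N → Fin N → Bool) (c : Fin N) : WJ J c c = true := by
  simp [WJ]

theorem adj_blow {J : Fin N → Fin N → Bool} (hJ : ∀ c d, J c d = J d c) {u v : Fin (N * t)}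
    (h : u ≠ v) : adj (blow J t) u v = WJ J (cls u) (cls v) := by
  unfold adj
  rcases lt_or_gt_of_ne h with h1 | h1
  · rw [dif_pos h1]; rfl
  · rw [dif_neg (lt_asymm h1), dif_pos h1, WJ_comm hJ]; rfl

/-- The number of the vertices of class `c` in `S`. -/
def cnt (S : Finset (Fin (N * t))) (c : Fin N) : ℤ := ((S.filter fun u => cls u = c).card : ℤ)

theorem sum_cls (S : Finset (Fin (N * t))) (g : Fin N → ℤ) :
    ∑ u ∈ S, g (cls u) = ∑ c, cnt S c * g c := by
  have h1 : ∀ u ∈ S, g (cls u) = ∑ c, if cls u = c then g c else 0 := by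
    intro u _
    rw [Finset.sum_ite_eq]
    simp
  rw [Finset.sum_congr rfl h1, Finset.sum_comm]
  refine Finset.sum_congr rfl fun c _ => ?_
  rw [← Finset.sum_filter, Finset.sum_const, nsmul_eq_mul]
  rfl

theorem cnt_univ (c : Fin N) : cnt (univ : Finset (Fin (N * t))) c = t := by
  unfold cnt
  have hinj : Function.Injective (fun i : Fin t => finProdFinEquiv (c, i)) := by
    intro i j h
    exact (Prod.mk.inj (finProdFinEquiv.injective h)).2
  have h : (univ.filter fun u : Fin (N * t) => cls u = c) =
      univ.image (fun i : Fin t => finProdFinEquiv (c, i)) := by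
    ext u
    simp only [mem_filter, mem_univ, true_and, mem_image]
    constructor
    · intro h
      refine ⟨(finProdFinEquiv.symm u).2, ?_⟩
      rw [← h]
      exact finProdFinEquiv.apply_symm_apply u
    · rintro ⟨i, rfl⟩
      unfold cls
      rw [Equiv.symm_apply_apply]
  rw [h, Finset.card_image_of_injective _ hinj, Finset.card_univ, Fintype.card_fin]

theorem cnt_compl (S : Finset (Fin (N * t))) (c : Fin N) : cnt Sᶜ c = t - cnt S c := by
  have h : cnt S c + cnt Sᶜ c = t := by
    rw [← cnt_univ (N := N) (t := t) c]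
    unfold cnt
    rw [← Nat.cast_add, ← Finset.card_union_of_disjoint]
    · rw [← Finset.filter_union, Finset.union_compl]
    · exact Finset.disjoint_filter_filter disjoint_compl_right
  linarith

theorem cnt_bounds (S : Finset (Fin (N * t))) (c : Fin N) : 0 ≤ cnt S c ∧ cnt S c ≤ t := by
  have h1 : 0 ≤ cnt S c := by unfold cnt; positivity
  have h2 : 0 ≤ cnt Sᶜ c := by unfold cnt; positivity
  rw [cnt_compl] at h2
  constructor <;> linarith

theorem sum_cnt (S : Finset (Fin (N * t))) : ∑ c, cnt S c = S.card := by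
  have := sum_cls S (fun _ => 1)
  simpa using this.symm

theorem cut_blow {J : Fin N → Fin N → Bool} (hJ : ∀ c d, J c d = J d c)
    (S : Finset (Fin (N * t))) : (cut (blow J t) S : ℤ) = frm (WJ J) t (cnt S) := by
  have h1 : (cut (blow J t) S : ℤ) =
      ∑ u ∈ S, ∑ v ∈ Sᶜ, if WJ J (cls u) (cls v) = true then (1 : ℤ) else 0 := by
    unfold cut
    rw [← Finset.sum_product', ← Finset.sum_boole]
    refine Finset.sum_congr rfl fun p hp => ?_
    rw [mem_product, mem_compl] at hp
    have hne : p.1 ≠ p.2 := by
      intro h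
      rw [h] at hp
      exact hp.2 hp.1
    rw [adj_blow hJ hne]
  rw [h1]
  have h2 : ∀ u ∈ S, (∑ v ∈ Sᶜ, if WJ J (cls u) (cls v) = true then (1 : ℤ) else 0) =
      ∑ d, (t - cnt S d) * (if WJ J (cls u) d = true then (1 : ℤ) else 0) := by
    intro u _
    rw [sum_cls Sᶜ (fun d => if WJ J (cls u) d = true then (1 : ℤ) else 0)]
    simp only [cnt_compl]
  rw [Finset.sum_congr rfl h2,
    sum_cls S (fun c => ∑ d, (t - cnt S d) * (if WJ J c d = true then (1 : ℤ) else 0))]
  unfold frm
  refine Finset.sum_congr rfl fun c _ => ?_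
  rw [Finset.mul_sum]
  refine Finset.sum_congr rfl fun d _ => ?_
  split_ifs <;> ring

theorem frm_set (J : Fin N → Fin N → Bool) (t : ℤ) (T : Finset (Fin N)) :
    frm (WJ J) t (fun c => if c ∈ T then t else 0) = cutJ J T * t ^ 2 := by
  have h1 : (cutJ J T : ℤ) = ∑ c ∈ T, ∑ d ∈ Tᶜ, if J c d = true then (1 : ℤ) else 0 := by
    unfold cutJ
    rw [← Finset.sum_product', ← Finset.sum_boole]
  rw [h1, Finset.sum_mul]
  unfold frm
  rw [← Finset.sum_subset (subset_univ T)]
  · refine Finset.sum_congr rfl fun c hc => ?_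
    rw [Finset.sum_mul, ← Finset.sum_subset (subset_univ Tᶜ)]
    · refine Finset.sum_congr rfl fun d hd => ?_
      rw [mem_compl] at hd
      have hcd : c ≠ d := fun h => hd (h ▸ hc)
      simp only [hc, hd, WJ, hcd, if_true, if_false, decide_false, Bool.false_or]
      split_ifs <;> ring
    · intro d _ hd
      rw [mem_compl, not_not] at hd
      simp [hd]
  · intro c _ hc
    simp [hc]

/-- A bisection of `J` gives a bisection of the blow-up. -/
theorem blow_yes {J : Fin N → Fin N → Bool} (hJ : ∀ c d, J c d = J d c) {T : Finset (Fin N)}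
    (hT : 2 * T.card = N) :
    ∃ S : Finset (Fin (N * t)), 2 * S.card = N * t ∧ cut (blow J t) S = cutJ J T * t ^ 2 := by
  classical
  refine ⟨univ.filter fun u => cls u ∈ T, ?_, ?_⟩
  · have h1 : ((univ.filter fun u : Fin (N * t) => cls u ∈ T).card : ℤ) = T.card * t := by
      rw [← sum_cnt]
      have h2 : ∀ c, cnt (univ.filter fun u : Fin (N * t) => cls u ∈ T) c =
          if c ∈ T then (t : ℤ) else 0 := by
        intro c
        by_cases hc : c ∈ T
        · rw [if_pos hc, ← cnt_univ (N := N) (t := t) c]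
          unfold cnt
          congr 2
          ext u
          simp only [mem_filter, mem_univ, true_and]
          exact ⟨fun h => h.2, fun h => ⟨by rw [h]; exact hc, h⟩⟩
        · rw [if_neg hc]
          unfold cnt
          rw [Nat.cast_eq_zero, Finset.card_eq_zero, Finset.filter_eq_empty_iff]
          intro u hu h
          rw [mem_filter] at hu
          exact hc (h ▸ hu.2)
      rw [Finset.sum_congr rfl fun c _ => h2 c]
      simp [Finset.sum_ite_mem]
    have h3 : (2 * (univ.filter fun u : Fin (N * t) => cls u ∈ T).card : ℤ) = N * t := by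
      rw [h1]
      have : (2 * T.card : ℤ) = N := by exact_mod_cast hT
      rw [← this]; ring
    exact_mod_cast h3
  · have h2 : cnt (univ.filter fun u : Fin (N * t) => cls u ∈ T) =
          fun c => if c ∈ T then (t : ℤ) else 0 := by
      funext c
      by_cases hc : c ∈ T
      · rw [if_pos hc, ← cnt_univ (N := N) (t := t) c]
        unfold cnt
        congr 2
        ext u
        simp only [mem_filter, mem_univ, true_and]
        exact ⟨fun h => h.2, fun h => ⟨by rw [h]; exact hc, h⟩⟩
      · rw [if_neg hc]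
        unfold cnt
        rw [Nat.cast_eq_zero, Finset.card_eq_zero, Finset.filter_eq_empty_iff]
        intro u hu h
        rw [mem_filter] at hu
        exact hc (h ▸ hu.2)
    have h3 := cut_blow hJ (univ.filter fun u : Fin (N * t) => cls u ∈ T)
    rw [h2, frm_set] at h3
    exact_mod_cast h3

/-- Lower bound for all bisections of the blow-up. -/
theorem blow_no {J : Fin N → Fin N → Bool} (hJ : ∀ c d, J c d = J d c) {M K : ℕ}
    (hN : N = 2 * M) (ht : 0 < t) (hK : ∀ T : Finset (Fin N), 2 * T.card = N → K ≤ cutJ J T)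
    {S : Finset (Fin (N * t))} (hS : 2 * S.card = N * t) :
    K * t ^ 2 ≤ cut (blow J t) S := by
  have h1 := frm_lower (WJ J) (WJ_comm hJ) (WJ_self J) (t := (t : ℤ)) (by exact_mod_cast ht)
    (K := (K : ℤ)) (M := (M : ℤ)) (fun T hT => by
      rw [frm_set]
      have h2 : 2 * T.card = N := by
        have : T.card = M := by exact_mod_cast hT
        omega
      have h3 : (K : ℤ) ≤ cutJ J T := by exact_mod_cast hK T h2
      exact mul_le_mul_of_nonneg_right h3 (sq_nonneg _)) _ (cnt S) (cnt_bounds S)
    (by
      rw [sum_cnt]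
      have h2 : S.card = M * t := by
        have : 2 * S.card = 2 * (M * t) := by rw [hS, hN]; ring
        omega
      rw [h2]; push_cast; ring) rfl
  rw [← cut_blow hJ] at h1
  exact_mod_cast h1

end Pool.Agent.Y645.BT
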