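import Mathlib

/-!
# Product measures on bit vectors
-/

set_option autoImplicit false

namespace Pool.Agent.Y645.BT

open Finset

/-- Product of sums. -/
theorem sum_prod_bool {B : Type} [Fintype B] [DecidableEq B] (f : B → Bool → ℝ) :
    ∑ G : B → Bool, ∏ b, f b (G b) = ∏ b, (f b true + f b false) := by
  have h := Finset.prod_univ_sum (t := fun _ : B => (univ : Finset Bool)) (f := f)
  rw [Fintype.piFinset_univ] at h
  rw [← h]
  refine Finset.prod_congr rfl fun b _ => ?_
  simp [Fintype.sum_bool]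

/-- **Marginals** of a product measure. -/
theorem marginal {A B : Type} [Fintype A] [Fintype B] [DecidableEq A] [DecidableEq B]
    (ι : A → B) (hι : Function.Injective ι) (w : B → Bool → ℝ)
    (hw : ∀ b, w b true + w b false = 1) (F : (A → Bool) → ℝ) :
    ∑ G : B → Bool, (∏ b, w b (G b)) * F (G ∘ ι) =
      ∑ H : A → Bool, (∏ a, w (ι a) (H a)) * F H := by
  classical
  have h1 : ∀ G : B → Bool, (∏ b, w b (G b)) * F (G ∘ ι) =
      ∑ H : A → Bool, if G ∘ ι = H then (∏ b, w b (G b)) * F H else 0 := by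
    intro G
    rw [Finset.sum_ite_eq]
    simp
  rw [Finset.sum_congr rfl fun G _ => h1 G, Finset.sum_comm]
  refine Finset.sum_congr rfl fun H _ => ?_
  rw [← Finset.sum_filter, ← Finset.sum_mul]
  congr 1
  have h2 : (univ.filter fun G : B → Bool => G ∘ ι = H) =
      Fintype.piFinset (fun b => if h : ∃ a, ι a = b then {H h.choose} else univ) := by
    ext G
    simp only [mem_filter, mem_univ, true_and, Fintype.mem_piFinset]
    constructor
    · intro h b
      split_ifs with hb
      · rw [Finset.mem_singleton]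
        conv_lhs => rw [← hb.choose_spec]
        exact congrFun h _
      · exact mem_univ _
    · intro h
      funext a
      have h3 := h (ι a)
      have hb : ∃ a', ι a' = ι a := ⟨a, rfl⟩
      rw [dif_pos hb, Finset.mem_singleton] at h3
      rw [Function.comp_apply, h3, hι hb.choose_spec]
  rw [h2, ← Finset.prod_univ_sum]
  have h4 : ∀ b : B, (∑ j ∈ (if h : ∃ a, ι a = b then {H h.choose} else univ : Finset Bool),
      w b j) = if h : ∃ a, ι a = b then w b (H h.choose) else 1 := by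
    intro b
    split_ifs with hb
    · rw [Finset.sum_singleton]
    · rw [Fintype.sum_bool, hw]
  rw [Finset.prod_congr rfl fun b _ => h4 b]
  have h5 : ∏ a, w (ι a) (H a) = ∏ b ∈ univ.image ι,
      (if h : ∃ a, ι a = b then w b (H h.choose) else 1) := by
    rw [Finset.prod_image fun a _ a' _ h => hι h]
    refine Finset.prod_congr rfl fun a _ => ?_
    have hb : ∃ a', ι a' = ι a := ⟨a, rfl⟩
    rw [dif_pos hb, hι hb.choose_spec]
  rw [h5]
  symm
  apply Finset.prod_subset (subset_univ _)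
  intro b _ hb
  rw [dif_neg]
  rintro ⟨a, rfl⟩
  exact hb (mem_image_of_mem _ (mem_univ _))

/-- The moment generating function of a centred bit. -/
theorem mgf_bit {m θ : ℝ} (h0 : 0 ≤ m) (h1 : m ≤ 1) (hθ : |θ| ≤ 1) :
    m * Real.exp (θ * (1 - m)) + (1 - m) * Real.exp (θ * (0 - m)) ≤ Real.exp (θ ^ 2) := by
  have hb : ∀ z : ℝ, |z| ≤ 1 → Real.exp z ≤ 1 + z + z ^ 2 := by
    intro z hz
    have := Real.abs_exp_sub_one_sub_id_le hz
    have := (abs_le.1 this).2
    linarith
  have e1 : |θ * (1 - m)| ≤ 1 := by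
    rw [abs_mul, abs_of_nonneg (by linarith : (0 : ℝ) ≤ 1 - m)]
    nlinarith [abs_nonneg θ]
  have e2 : |θ * (0 - m)| ≤ 1 := by
    rw [abs_mul, zero_sub, abs_neg, abs_of_nonneg h0]
    nlinarith [abs_nonneg θ]
  have k1 := hb _ e1
  have k2 := hb _ e2
  have k3 := Real.add_one_le_exp (θ ^ 2)
  have k4 : m * Real.exp (θ * (1 - m)) ≤ m * (1 + θ * (1 - m) + (θ * (1 - m)) ^ 2) :=
    mul_le_mul_of_nonneg_left k1 h0
  have k5 : (1 - m) * Real.exp (θ * (0 - m)) ≤ (1 - m) * (1 + θ * (0 - m) + (θ * (0 - m)) ^ 2) :=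
    mul_le_mul_of_nonneg_left k2 (by linarith)
  have k6 : m * (1 + θ * (1 - m) + (θ * (1 - m)) ^ 2) +
      (1 - m) * (1 + θ * (0 - m) + (θ * (0 - m)) ^ 2) = 1 + θ ^ 2 * (m * (1 - m)) := by ring
  have k7 : θ ^ 2 * (m * (1 - m)) ≤ θ ^ 2 := by
    have : m * (1 - m) ≤ 1 := by nlinarith
    nlinarith [sq_nonneg θ]
  linarith

end Pool.Agent.Y645.BT
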