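import Pool.Agent.Y645.BT.Defs
import Pool.Agent.Y645.BT.Prod

/-!
# Concentration of the number of crossing edges under perturbations
-/

set_option autoImplicit false

namespace Pool.Agent.Y645.BT

open Finset

variable {n : ℕ}

/-- A bit as a real number. -/
def ind (b : Bool) : ℝ := if b = true then 1 else 0

theorem ind_true : ind true = 1 := by simp [ind]

theorem ind_false : ind false = 0 := by simp [ind]

theorem adj_comm (G : Gr n) (u v : Fin n) : adj G u v = adj G v u := by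
  unfold adj
  rcases lt_trichotomy u v with h | h | h
  · rw [dif_pos h, dif_neg (lt_asymm h), dif_pos h]
  · subst h; rfl
  · rw [dif_neg (lt_asymm h), dif_pos h, dif_pos h]

theorem adj_self (G : Gr n) (u : Fin n) : adj G u u = false := by
  unfold adj
  simp

theorem adj_pr (G : Gr n) (p : Pr n) : adj G p.1.1 p.1.2 = G p := by
  unfold adj
  rw [dif_pos p.2]

/-- The pairs separated by `S`. -/
def crs (S : Finset (Fin n)) : Finset (Pr n) :=
  univ.filter fun p => (p.1.1 ∈ S ∧ p.1.2 ∉ S) ∨ (p.1.1 ∉ S ∧ p.1.2 ∈ S)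

/-- Sums of symmetric functions over the pairs separated by `S`. -/
theorem sum_crs (S : Finset (Fin n)) (f : Fin n → Fin n → ℝ) (hf : ∀ u v, f u v = f v u) :
    ∑ p ∈ crs S, f p.1.1 p.1.2 = ∑ u ∈ S, ∑ v ∈ Sᶜ, f u v := by
  rw [← Finset.sum_product']
  symm
  refine Finset.sum_bij' (i := fun (q : Fin n × Fin n) (hq : q ∈ S ×ˢ Sᶜ) =>
      if h : q.1 < q.2 then (⟨(q.1, q.2), h⟩ : Pr n) else
        ⟨(q.2, q.1), lt_of_le_of_ne (not_lt.1 h) (by
          intro h2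
          rw [mem_product, mem_compl] at hq
          have h3 : q.2 = q.1 := h2
          exact hq.2 (h3.symm ▸ hq.1))⟩)
    (j := fun (p : Pr n) _ => if p.1.1 ∈ S then (p.1.1, p.1.2) else (p.1.2, p.1.1)) ?_ ?_ ?_ ?_ ?_
  · rintro ⟨u, v⟩ hq
    rw [mem_product, mem_compl] at hq
    simp only [crs, mem_filter, mem_univ, true_and]
    split_ifs with h
    · exact Or.inl hq
    · exact Or.inr ⟨hq.2, hq.1⟩
  · rintro ⟨⟨u, v⟩, huv⟩ hp
    simp only [crs, mem_filter, mem_univ, true_and] at hp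
    simp only
    split_ifs with h
    · rcases hp with hp | hp
      · exact mem_product.2 ⟨hp.1, mem_compl.2 hp.2⟩
      · exact absurd h hp.1
    · rcases hp with hp | hp
      · exact absurd hp.1 h
      · exact mem_product.2 ⟨hp.2, mem_compl.2 hp.1⟩
  · rintro ⟨u, v⟩ hq
    rw [mem_product, mem_compl] at hq
    by_cases h : u < v
    · simp only [h, dif_pos, if_pos hq.1]
    · simp only [h, dif_neg, not_false_eq_true, if_neg hq.2]
  · rintro ⟨⟨u, v⟩, huv⟩ hp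
    simp only [crs, mem_filter, mem_univ, true_and] at hp
    simp only at huv
    by_cases h : u ∈ S
    · simp only [h, if_true, huv, dif_pos]
    · simp only [h, if_false, lt_asymm huv, dif_neg, not_false_eq_true]
  · rintro ⟨u, v⟩ hq
    by_cases h : u < v
    · simp only [h, dif_pos]
    · simp only [h, dif_neg, not_false_eq_true]
      exact hf _ _

theorem cut_eq (G : Gr n) (S : Finset (Fin n)) : (cut G S : ℝ) = ∑ p ∈ crs S, ind (G p) := by
  have h1 : ∑ p ∈ crs S, ind (G p) = ∑ p ∈ crs S, ind (adj G p.1.1 p.1.2) :=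
    Finset.sum_congr rfl fun p _ => by rw [adj_pr]
  rw [h1, sum_crs S (fun u v => ind (adj G u v)) (fun u v => by rw [adj_comm])]
  unfold cut ind
  rw [← Finset.sum_product', Finset.sum_boole]

theorem crs_card (S : Finset (Fin n)) : ((crs S).card : ℝ) = S.card * (n - S.card) := by
  have h := sum_crs S (fun _ _ => (1 : ℝ)) (fun _ _ => rfl)
  simp only [sum_const, nsmul_eq_mul, mul_one, Finset.card_compl, Fintype.card_fin] at h
  rw [h, Nat.cast_sub]
  · simpa using Finset.card_le_univ S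

theorem crs_card_half {S : Finset (Fin n)} (hS : 2 * S.card = n) :
    ((crs S).card : ℝ) = (n : ℝ) ^ 2 / 4 := by
  rw [crs_card]
  have : (n : ℝ) = 2 * S.card := by exact_mod_cast hS.symm
  rw [this]
  ring

section Weights

variable {σ : ℝ}

/-- The weight of a bit. -/
def wb (σ : ℝ) (x b : Bool) : ℝ := if b = x then 1 - σ else σ

theorem wb_add (x : Bool) : wb σ x true + wb σ x false = 1 := by
  cases x <;> simp [wb]

theorem wt_eq (G₀ G : Gr n) : wt σ G₀ G = ∏ p, wb σ (G₀ p) (G p) := rfl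

theorem wb_nonneg (h0 : 0 ≤ σ) (h1 : σ ≤ 1) (x b : Bool) : 0 ≤ wb σ x b := by
  unfold wb
  split_ifs <;> linarith

theorem wb_pos (h0 : 0 < σ) (h1 : σ < 1) (x b : Bool) : 0 < wb σ x b := by
  unfold wb
  split_ifs <;> linarith

theorem wt_nonneg (h0 : 0 ≤ σ) (h1 : σ ≤ 1) (G₀ G : Gr n) : 0 ≤ wt σ G₀ G :=
  Finset.prod_nonneg fun _ _ => wb_nonneg h0 h1 _ _

theorem wt_pos (h0 : 0 < σ) (h1 : σ < 1) (G₀ G : Gr n) : 0 < wt σ G₀ G :=
  Finset.prod_pos fun _ _ => wb_pos h0 h1 _ _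

theorem wt_sum (G₀ : Gr n) : ∑ G : Gr n, wt σ G₀ G = 1 := by
  have h := sum_prod_bool (fun p : Pr n => wb σ (G₀ p))
  simp only [wb_add, prod_const_one] at h
  exact h

/-- The mean of a bit after the perturbation. -/
def mn (σ : ℝ) (x : Bool) : ℝ := wb σ x true

theorem mn_eq (x : Bool) : mn σ x = σ + (1 - 2 * σ) * ind x := by
  cases x
  · simp [mn, wb, ind]
  · simp [mn, wb, ind]; ring

/-- Moment generating function of the number of crossing edges. -/
theorem mgf_cut (h0 : 0 ≤ σ) (h1 : σ ≤ 1) (G₀ : Gr n) (P : Finset (Pr n)) {θ : ℝ} (hθ : |θ| ≤ 1) :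
    ∑ G : Gr n, wt σ G₀ G * Real.exp (θ * ∑ p ∈ P, (ind (G p) - mn σ (G₀ p))) ≤
      Real.exp (θ ^ 2 * P.card) := by
  have e1 : ∀ G : Gr n, wt σ G₀ G * Real.exp (θ * ∑ p ∈ P, (ind (G p) - mn σ (G₀ p))) =
      ∏ p : Pr n, wb σ (G₀ p) (G p) *
        (if p ∈ P then Real.exp (θ * (ind (G p) - mn σ (G₀ p))) else 1) := by
    intro G
    rw [Finset.prod_mul_distrib, ← wt_eq, Finset.mul_sum, Real.exp_sum]
    congr 1
    rw [Finset.prod_ite_mem, Finset.univ_inter]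
  rw [Finset.sum_congr rfl fun G _ => e1 G,
    sum_prod_bool (fun p b => wb σ (G₀ p) b *
        (if p ∈ P then Real.exp (θ * (ind b - mn σ (G₀ p))) else 1))]
  have e2 : Real.exp (θ ^ 2 * P.card) = ∏ p : Pr n, if p ∈ P then Real.exp (θ ^ 2) else 1 := by
    rw [Finset.prod_ite_mem, Finset.univ_inter, Finset.prod_const, ← Real.exp_nat_mul]
    congr 1
    ring
  rw [e2]
  refine Finset.prod_le_prod (fun p _ => ?_) (fun p _ => ?_)
  · refine add_nonneg (mul_nonneg (wb_nonneg h0 h1 _ _) ?_) (mul_nonneg (wb_nonneg h0 h1 _ _) ?_)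
    · split_ifs <;> positivity
    · split_ifs <;> positivity
  · by_cases hp : p ∈ P
    · simp only [hp, if_true, ind_true, ind_false]
      have h2 : wb σ (G₀ p) false = 1 - mn σ (G₀ p) := by
        have := wb_add (σ := σ) (G₀ p)
        unfold mn
        linarith
      rw [h2]
      have h3 : 0 ≤ mn σ (G₀ p) := wb_nonneg h0 h1 _ _
      have h4 : 0 ≤ 1 - mn σ (G₀ p) := by rw [← h2]; exact wb_nonneg h0 h1 _ _
      have h5 : mn σ (G₀ p) ≤ 1 := by linarith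
      exact mgf_bit h3 h5 hθ
    · simp only [hp, if_false, mul_one]
      exact (wb_add _).le

open Classical in
/-- The probability of a set of graphs. -/
noncomputable def mass (σ : ℝ) (G₀ : Gr n) (Q : Gr n → Prop) : ℝ :=
  ∑ G : Gr n, wt σ G₀ G * (if Q G then 1 else 0)

theorem mass_nonneg (h0 : 0 ≤ σ) (h1 : σ ≤ 1) (G₀ : Gr n) (Q : Gr n → Prop) :
    0 ≤ mass σ G₀ Q := by
  refine Finset.sum_nonneg fun G _ => mul_nonneg (wt_nonneg h0 h1 _ _) ?_
  split_ifs <;> norm_num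

theorem mass_mono (h0 : 0 ≤ σ) (h1 : σ ≤ 1) (G₀ : Gr n) {Q R : Gr n → Prop}
    (h : ∀ G, Q G → R G) : mass σ G₀ Q ≤ mass σ G₀ R := by
  classical
  refine Finset.sum_le_sum fun G _ => mul_le_mul_of_nonneg_left ?_ (wt_nonneg h0 h1 _ _)
  by_cases hQ : Q G
  · simp [hQ, h G hQ]
  · simp only [hQ, if_false]
    split_ifs <;> norm_num

/-- Chernoff bound: upper and lower tails. -/
theorem chernoff (h0 : 0 ≤ σ) (h1 : σ ≤ 1) (G₀ : Gr n) (P : Finset (Pr n)) {θ lam : ℝ}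
    (hθ : |θ| ≤ 1) :
    mass σ G₀ (fun G => lam ≤ θ * ∑ p ∈ P, (ind (G p) - mn σ (G₀ p))) ≤
      Real.exp (θ ^ 2 * P.card - lam) := by
  classical
  have h2 : mass σ G₀ (fun G => lam ≤ θ * ∑ p ∈ P, (ind (G p) - mn σ (G₀ p))) ≤
      ∑ G : Gr n, wt σ G₀ G * (Real.exp (θ * ∑ p ∈ P, (ind (G p) - mn σ (G₀ p))) *
        Real.exp (-lam)) := by
    refine Finset.sum_le_sum fun G _ => mul_le_mul_of_nonneg_left ?_ (wt_nonneg h0 h1 _ _)
    split_ifs with h
    · rw [← Real.exp_add]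
      exact Real.one_le_exp (by linarith)
    · positivity
  refine h2.trans ?_
  have h3 : ∑ G : Gr n, wt σ G₀ G * (Real.exp (θ * ∑ p ∈ P, (ind (G p) - mn σ (G₀ p))) *
        Real.exp (-lam)) = (∑ G : Gr n, wt σ G₀ G *
          Real.exp (θ * ∑ p ∈ P, (ind (G p) - mn σ (G₀ p)))) * Real.exp (-lam) := by
    rw [Finset.sum_mul]
    refine Finset.sum_congr rfl fun G _ => by ring
  rw [h3, sub_eq_add_neg, Real.exp_add]
  exact mul_le_mul_of_nonneg_right (mgf_cut h0 h1 G₀ P hθ) (Real.exp_pos _).le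

theorem mean_cut {S : Finset (Fin n)} (hS : 2 * S.card = n) (G₀ G : Gr n) :
    ∑ p ∈ crs S, (ind (G p) - mn σ (G₀ p)) =
      cut G S - (σ * ((n : ℝ) ^ 2 / 4) + (1 - 2 * σ) * cut G₀ S) := by
  rw [Finset.sum_sub_distrib, ← cut_eq]
  simp only [mn_eq, Finset.sum_add_distrib, Finset.sum_const, nsmul_eq_mul, ← Finset.mul_sum,
    ← cut_eq]
  rw [crs_card_half hS]
  ring

/-- The upper tail. -/
theorem upper_tail (h0 : 0 ≤ σ) (h1 : σ ≤ 1) (G₀ : Gr n) {S : Finset (Fin n)}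
    (hS : 2 * S.card = n) {c : ℝ} (hc0 : 0 ≤ c) (hc : c ≤ 1 / 2) :
    mass σ G₀ (fun G => σ * ((n : ℝ) ^ 2 / 4) + (1 - 2 * σ) * cut G₀ S + c * (n : ℝ) ^ 2 ≤
      cut G S) ≤ Real.exp (-(c ^ 2 * (n : ℝ) ^ 2)) := by
  have h := chernoff h0 h1 G₀ (crs S) (θ := 2 * c) (lam := 2 * c * (c * (n : ℝ) ^ 2))
    (by rw [abs_le]; constructor <;> linarith)
  rw [crs_card_half hS] at h
  have e : (2 * c) ^ 2 * ((n : ℝ) ^ 2 / 4) - 2 * c * (c * (n : ℝ) ^ 2) =
      -(c ^ 2 * (n : ℝ) ^ 2) := by ring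
  rw [e] at h
  refine (mass_mono h0 h1 G₀ fun G hG => ?_).trans h
  rw [mean_cut hS]
  exact mul_le_mul_of_nonneg_left (by linarith) (by linarith)

/-- The lower tail. -/
theorem lower_tail (h0 : 0 ≤ σ) (h1 : σ ≤ 1) (G₀ : Gr n) {S : Finset (Fin n)}
    (hS : 2 * S.card = n) {c : ℝ} (hc0 : 0 ≤ c) (hc : c ≤ 1 / 2) :
    mass σ G₀ (fun G => (cut G S : ℝ) + c * (n : ℝ) ^ 2 ≤
      σ * ((n : ℝ) ^ 2 / 4) + (1 - 2 * σ) * cut G₀ S) ≤
      Real.exp (-(c ^ 2 * (n : ℝ) ^ 2)) := by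
  have h := chernoff h0 h1 G₀ (crs S) (θ := -(2 * c)) (lam := 2 * c * (c * (n : ℝ) ^ 2))
    (by rw [abs_le]; constructor <;> linarith)
  rw [crs_card_half hS] at h
  have e : (-(2 * c)) ^ 2 * ((n : ℝ) ^ 2 / 4) - 2 * c * (c * (n : ℝ) ^ 2) =
      -(c ^ 2 * (n : ℝ) ^ 2) := by ring
  rw [e] at h
  refine (mass_mono h0 h1 G₀ fun G hG => ?_).trans h
  rw [mean_cut hS]
  have : -(2 * c) * ((cut G S : ℝ) - (σ * ((n : ℝ) ^ 2 / 4) + (1 - 2 * σ) * cut G₀ S)) =
    2 * c * (σ * ((n : ℝ) ^ 2 / 4) + (1 - 2 * σ) * cut G₀ S - cut G S) := by ring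
  rw [this]
  exact mul_le_mul_of_nonneg_left (by linarith) (by linarith)

/-- The union bound over all bisections. -/
theorem union_tail (h0 : 0 ≤ σ) (h1 : σ ≤ 1) (G₀ : Gr n) {c ρ : ℝ} (hc0 : 0 ≤ c)
    (hc : c ≤ 1 / 2) (hlow : ∀ S : Finset (Fin n), 2 * S.card = n →
      ρ * (n : ℝ) ^ 2 + c * (n : ℝ) ^ 2 ≤ σ * ((n : ℝ) ^ 2 / 4) + (1 - 2 * σ) * cut G₀ S) :
    mass σ G₀ (fun G => Bisection ρ G) ≤ 2 ^ n * Real.exp (-(c ^ 2 * (n : ℝ) ^ 2)) := by
  classical
  have h2 : mass σ G₀ (fun G => Bisection ρ G) ≤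
      ∑ S : Finset (Fin n), (if 2 * S.card = n then
        mass σ G₀ (fun G => (cut G S : ℝ) + c * (n : ℝ) ^ 2 ≤
          σ * ((n : ℝ) ^ 2 / 4) + (1 - 2 * σ) * cut G₀ S) else 0) := by
    have h3 : ∀ S : Finset (Fin n), (if 2 * S.card = n then
        mass σ G₀ (fun G => (cut G S : ℝ) + c * (n : ℝ) ^ 2 ≤
          σ * ((n : ℝ) ^ 2 / 4) + (1 - 2 * σ) * cut G₀ S) else 0) =
        ∑ G : Gr n, wt σ G₀ G * (if 2 * S.card = n ∧ (cut G S : ℝ) + c * (n : ℝ) ^ 2 ≤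
          σ * ((n : ℝ) ^ 2 / 4) + (1 - 2 * σ) * cut G₀ S then 1 else 0) := by
      intro S
      by_cases hS : 2 * S.card = n
      · rw [if_pos hS]
        unfold mass
        refine Finset.sum_congr rfl fun G _ => ?_
        congr 1
        simp only [hS, true_and]
      · rw [if_neg hS]
        simp [hS]
    rw [Finset.sum_congr rfl fun S _ => h3 S, Finset.sum_comm]
    unfold mass
    refine Finset.sum_le_sum fun G _ => ?_
    rw [← Finset.mul_sum]
    refine mul_le_mul_of_nonneg_left ?_ (wt_nonneg h0 h1 _ _)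
    split_ifs with hG
    · obtain ⟨S, hS, hle⟩ := hG
      have hS2 : 2 * S.card = n ∧ (cut G S : ℝ) + c * (n : ℝ) ^ 2 ≤
          σ * ((n : ℝ) ^ 2 / 4) + (1 - 2 * σ) * cut G₀ S := ⟨hS, by linarith [hlow S hS]⟩
      calc (1 : ℝ) = (if 2 * S.card = n ∧ (cut G S : ℝ) + c * (n : ℝ) ^ 2 ≤
          σ * ((n : ℝ) ^ 2 / 4) + (1 - 2 * σ) * cut G₀ S then 1 else 0) := by rw [if_pos hS2]
        _ ≤ _ := Finset.single_le_sum (f := fun S : Finset (Fin n) =>
            (if 2 * S.card = n ∧ (cut G S : ℝ) + c * (n : ℝ) ^ 2 ≤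
          σ * ((n : ℝ) ^ 2 / 4) + (1 - 2 * σ) * cut G₀ S then (1 : ℝ) else 0))
            (fun S _ => by split_ifs <;> norm_num) (mem_univ S)
    · exact Finset.sum_nonneg fun S _ => by split_ifs <;> norm_num
  refine h2.trans ?_
  have h4 : ∀ S ∈ (univ : Finset (Finset (Fin n))), (if 2 * S.card = n then
        mass σ G₀ (fun G => (cut G S : ℝ) + c * (n : ℝ) ^ 2 ≤
          σ * ((n : ℝ) ^ 2 / 4) + (1 - 2 * σ) * cut G₀ S) else 0) ≤
        Real.exp (-(c ^ 2 * (n : ℝ) ^ 2)) := by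
    intro S _
    split_ifs with hS
    · exact lower_tail h0 h1 G₀ hS hc0 hc
    · positivity
  refine (Finset.sum_le_sum h4).trans ?_
  rw [Finset.sum_const, Finset.card_univ, Fintype.card_finset, Fintype.card_fin, nsmul_eq_mul]
  push_cast
  exact le_rfl

end Weights

end Pool.Agent.Y645.BT
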