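import Mathlib

/-!
# The minimum bisection of the instances

The vertices are `V` (a graph `E` on `n0` vertices), `A` (a clique of size `a`) and `B` (a clique of
size `b`). The vertex `u` of `V` is joined to the first `n0 - deg u` vertices of `B`, and there are
exactly `D` evenly distributed edges between `A` and `B`.
-/

set_option autoImplicit false

namespace Pool.Agent.Y645.BT

open Finset

/-- Adjacency between `A` and `B`. -/
def ab (a b D i j : ℕ) : Bool := decide (((i + j) % a) * b + j < D)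

section Count

variable {a b D : ℕ}

theorem mod_inj {a x y z : ℕ} (hx : x < a) (hy : y < a) (h : (x + z) % a = (y + z) % a) :
    x = y := by
  have h1 : x + z ≡ y + z [MOD a] := h
  have h2 : x ≡ y [MOD a] := Nat.ModEq.add_right_cancel' z h1
  have := h2
  unfold Nat.ModEq at this
  rwa [Nat.mod_eq_of_lt hx, Nat.mod_eq_of_lt hy] at this

theorem ab_row (hb : 0 < b) (j : ℕ) :
    ((univ : Finset (Fin a)).filter fun i : Fin a => ab a b D i j = true).card ≤ D / b + 1 := by
  rw [← Finset.card_range (D / b + 1)]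
  refine Finset.card_le_card_of_injOn (fun i : Fin a => ((i : ℕ) + j) % a) ?_ ?_
  · intro i hi
    simp only [coe_filter, mem_univ, true_and, Set.mem_ofPred_eq, ab, decide_eq_true_eq] at hi
    simp only [coe_range, Set.mem_Iio]
    have h1 : ((i : ℕ) + j) % a * b ≤ D := by omega
    have := (Nat.le_div_iff_mul_le hb).2 h1
    omega
  · intro i _ i' _ h
    exact Fin.ext (mod_inj i.2 i'.2 h)

theorem ab_col (hb : 0 < b) (hba : b ≤ a) (i : ℕ) :
    ((univ : Finset (Fin b)).filter fun j : Fin b => ab a b D i j = true).card ≤ D / b + 1 := by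
  rw [← Finset.card_range (D / b + 1)]
  refine Finset.card_le_card_of_injOn (fun j : Fin b => (i + (j : ℕ)) % a) ?_ ?_
  · intro j hj
    simp only [coe_filter, mem_univ, true_and, Set.mem_ofPred_eq, ab, decide_eq_true_eq] at hj
    simp only [coe_range, Set.mem_Iio]
    have h1 : (i + (j : ℕ)) % a * b ≤ D := by omega
    have := (Nat.le_div_iff_mul_le hb).2 h1
    omega
  · intro j _ j' _ h
    simp only at h
    rw [add_comm i, add_comm i] at h
    exact Fin.ext (mod_inj (j.2.trans_le hba) (j'.2.trans_le hba) h)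

theorem ab_total (ha : 0 < a) (hb : 0 < b) (hD : D ≤ a * b) :
    ((univ : Finset (Fin a × Fin b)).filter fun p => ab a b D p.1 p.2 = true).card = D := by
  conv_rhs => rw [← Finset.card_range D]
  refine Finset.card_bij (fun p _ => ((p.1 : ℕ) + p.2) % a * b + p.2) ?_ ?_ ?_
  · intro p hp
    simp only [mem_filter, mem_univ, true_and, ab, decide_eq_true_eq] at hp
    simpa using hp
  · intro p _ p' _ h
    have h2 : (p.2 : ℕ) = p'.2 := by
      have h3 : (((p.1 : ℕ) + p.2) % a * b + p.2) % b =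
          (((p'.1 : ℕ) + p'.2) % a * b + p'.2) % b := congrArg (· % b) h
      rwa [add_comm, Nat.add_mul_mod_self_right, Nat.mod_eq_of_lt p.2.2, add_comm,
        Nat.add_mul_mod_self_right, Nat.mod_eq_of_lt p'.2.2] at h3
    rw [h2] at h
    have h4 : ((p.1 : ℕ) + p'.2) % a = ((p'.1 : ℕ) + p'.2) % a :=
      Nat.eq_of_mul_eq_mul_right hb (Nat.add_right_cancel h)
    exact Prod.ext (Fin.ext (mod_inj p.1.2 p'.1.2 h4)) (Fin.ext h2)
  · intro x hx
    rw [Finset.mem_range] at hx
    have hj : x % b < b := Nat.mod_lt _ hb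
    have hr : x / b < a := by
      rw [Nat.div_lt_iff_lt_mul hb]
      exact lt_of_lt_of_le hx hD
    have hi : (x / b + (a - x % b % a)) % a < a := Nat.mod_lt _ ha
    have key : ((x / b + (a - x % b % a)) % a + x % b) % a = x / b := by
      rw [Nat.mod_add_mod]
      have h5 : x % b % a < a := Nat.mod_lt _ ha
      have h6 : x / b + (a - x % b % a) + x % b =
          x / b + a * (1 + x % b / a) := by
        have := Nat.div_add_mod (x % b) a
        rw [Nat.mul_add, Nat.mul_one]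
        omega
      rw [h6, Nat.add_mul_mod_self_left, Nat.mod_eq_of_lt hr]
    have hval : ((x / b + (a - x % b % a)) % a + x % b) % a * b + x % b = x := by
      rw [key, mul_comm]
      exact Nat.div_add_mod x b
    refine ⟨(⟨_, hi⟩, ⟨x % b, hj⟩), ?_, hval⟩
    simp only [mem_filter, mem_univ, true_and, ab, decide_eq_true_eq]
    rw [hval]
    exact hx

end Count

/-- Indicator of a bit as an integer. -/
def ii (p : Bool) : ℤ := if p = true then 1 else 0

theorem ii_nonneg (p : Bool) : 0 ≤ ii p := by cases p <;> simp [ii]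

section Tot

variable {n0 a b : ℕ}

/-- The number of crossing edges, for the 0/1-vectors `g`, `α`, `β` on `V`, `A`, `B`. -/
def tot (E : Fin n0 → Fin n0 → Bool) (dg : Fin n0 → ℕ) (D : ℕ) (g : Fin n0 → ℤ) (α : Fin a → ℤ)
    (β : Fin b → ℤ) : ℤ :=
  (∑ u, ∑ v, ii (E u v) * (g u * (1 - g v))) +
  (∑ u, ∑ j : Fin b, ii (decide ((j : ℕ) < n0 - dg u)) * (g u * (1 - β j))) +
  (∑ j : Fin b, ∑ u, ii (decide ((j : ℕ) < n0 - dg u)) * (β j * (1 - g u))) +
  (∑ i, ∑ i', ii (decide (i ≠ i')) * (α i * (1 - α i'))) +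
  (∑ j, ∑ j', ii (decide (j ≠ j')) * (β j * (1 - β j'))) +
  (∑ i : Fin a, ∑ j : Fin b, ii (ab a b D i j) * (α i * (1 - β j))) +
  (∑ j : Fin b, ∑ i : Fin a, ii (ab a b D i j) * (β j * (1 - α i)))

theorem clique_part {X : Type} [Fintype X] [DecidableEq X] (α : X → ℤ)
    (hα : ∀ i, α i = 0 ∨ α i = 1) :
    ∑ i, ∑ i', ii (decide (i ≠ i')) * (α i * (1 - α i')) =
      (∑ i, α i) * (Fintype.card X - ∑ i, α i) := by
  have h1 : ∀ i i', ii (decide (i ≠ i')) * (α i * (1 - α i')) = α i * (1 - α i') := by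
    intro i i'
    by_cases h : i = i'
    · subst h
      rcases hα i with h2 | h2 <;> simp [h2]
    · simp [ii, h]
  simp only [h1]
  have h2 : (Fintype.card X : ℤ) - ∑ i, α i = ∑ i, (1 - α i) := by
    rw [Finset.sum_sub_distrib]
    simp
  rw [h2, Finset.sum_mul_sum]

theorem bit_bounds {X : Type} {α : X → ℤ} (hα : ∀ i, α i = 0 ∨ α i = 1) (i : X) :
    0 ≤ α i ∧ 0 ≤ 1 - α i := by
  rcases hα i with h | h <;> simp [h]

/-- The crossing edges between `A` and `B`. -/
theorem ab_part (ha : 0 < a) (hb : 0 < b) (hba : b ≤ a) {D : ℕ} (hD : D ≤ a * b)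
    (α : Fin a → ℤ) (β : Fin b → ℤ) (hα : ∀ i, α i = 0 ∨ α i = 1) (hβ : ∀ j, β j = 0 ∨ β j = 1) :
    (D : ℤ) - (D / b + 1 : ℕ) * (∑ i, (1 - α i)) - (D / b + 1 : ℕ) * ∑ j, β j ≤
    (∑ i : Fin a, ∑ j : Fin b, ii (ab a b D i j) * (α i * (1 - β j))) +
      (∑ j : Fin b, ∑ i : Fin a, ii (ab a b D i j) * (β j * (1 - α i))) := by
  have hT : (∑ i : Fin a, ∑ j : Fin b, ii (ab a b D i j)) = D := by
    have h := ab_total ha hb hD
    rw [← Finset.sum_product']
    conv_rhs => rw [← h]
    rw [← Finset.sum_boole]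
    rfl
  have e1 : (∑ i : Fin a, ∑ j : Fin b, ii (ab a b D i j) * (α i * (1 - β j))) +
      (∑ j : Fin b, ∑ i : Fin a, ii (ab a b D i j) * (β j * (1 - α i))) =
      D - (∑ j : Fin b, ∑ i : Fin a, ii (ab a b D i j) * (α i * β j)) -
        (∑ i : Fin a, ∑ j : Fin b, ii (ab a b D i j) * ((1 - α i) * (1 - β j))) := by
    rw [← hT, Finset.sum_comm (s := (univ : Finset (Fin b)))
      (f := fun (j : Fin b) (i : Fin a) => ii (ab a b D i j) * (β j * (1 - α i))),
      Finset.sum_comm (s := (univ : Finset (Fin b)))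
      (f := fun (j : Fin b) (i : Fin a) => ii (ab a b D i j) * (α i * β j))]
    simp only [← Finset.sum_add_distrib, ← Finset.sum_sub_distrib]
    refine Finset.sum_congr rfl fun i _ => Finset.sum_congr rfl fun j _ => by ring
  rw [e1]
  have e2 : (∑ j : Fin b, ∑ i : Fin a, ii (ab a b D i j) * (α i * β j)) ≤
      (D / b + 1 : ℕ) * ∑ j, β j := by
    rw [Finset.mul_sum]
    refine Finset.sum_le_sum fun j _ => ?_
    have h1 : (∑ i : Fin a, ii (ab a b D i j)) ≤ (D / b + 1 : ℕ) := by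
      have h2 := ab_row (a := a) (D := D) hb (j : ℕ)
      have h3 : (∑ i : Fin a, ii (ab a b D i j)) =
          (((univ : Finset (Fin a)).filter fun i : Fin a => ab a b D i j = true).card : ℤ) := by
        rw [← Finset.sum_boole]; rfl
      rw [h3]
      exact_mod_cast h2
    calc ∑ i : Fin a, ii (ab a b D i j) * (α i * β j)
        ≤ ∑ i : Fin a, ii (ab a b D i j) * β j := by
          refine Finset.sum_le_sum fun i _ => mul_le_mul_of_nonneg_left ?_ (ii_nonneg _)
          rcases hα i with h | h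
          · rw [h, zero_mul]; exact (bit_bounds hβ j).1
          · rw [h, one_mul]
      _ = (∑ i : Fin a, ii (ab a b D i j)) * β j := by rw [Finset.sum_mul]
      _ ≤ _ := mul_le_mul_of_nonneg_right h1 (bit_bounds hβ j).1
  have e3 : (∑ i : Fin a, ∑ j : Fin b, ii (ab a b D i j) * ((1 - α i) * (1 - β j))) ≤
      (D / b + 1 : ℕ) * ∑ i, (1 - α i) := by
    rw [Finset.mul_sum]
    refine Finset.sum_le_sum fun i _ => ?_
    have h1 : (∑ j : Fin b, ii (ab a b D i j)) ≤ (D / b + 1 : ℕ) := by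
      have h2 := ab_col (b := b) (D := D) hb hba (i : ℕ)
      have h3 : (∑ j : Fin b, ii (ab a b D i j)) =
          (((univ : Finset (Fin b)).filter fun j : Fin b => ab a b D i j = true).card : ℤ) := by
        rw [← Finset.sum_boole]; rfl
      rw [h3]
      exact_mod_cast h2
    calc ∑ j : Fin b, ii (ab a b D i j) * ((1 - α i) * (1 - β j))
        ≤ ∑ j : Fin b, ii (ab a b D i j) * (1 - α i) := by
          refine Finset.sum_le_sum fun j _ => mul_le_mul_of_nonneg_left ?_ (ii_nonneg _)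
          rcases hβ j with h | h
          · rw [h, sub_zero, mul_one]
          · rw [h, sub_self, mul_zero]; exact (bit_bounds hα i).2
      _ = (∑ j : Fin b, ii (ab a b D i j)) * (1 - α i) := by rw [Finset.sum_mul]
      _ ≤ _ := mul_le_mul_of_nonneg_right h1 (bit_bounds hα i).2
  linarith

/-- Lower bound for all 0/1-vectors. -/
theorem tot_lower (E : Fin n0 → Fin n0 → Bool) (dg : Fin n0 → ℕ) (ha : 0 < a) (hb : 0 < b)
    (hba : b ≤ a) {D : ℕ} (hD : D ≤ a * b) (g : Fin n0 → ℤ) (α : Fin a → ℤ) (β : Fin b → ℤ)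
    (hg : ∀ i, g i = 0 ∨ g i = 1) (hα : ∀ i, α i = 0 ∨ α i = 1) (hβ : ∀ j, β j = 0 ∨ β j = 1) :
    (D : ℤ) + (∑ i, (1 - α i)) * (a - (∑ i, (1 - α i)) - (D / b + 1 : ℕ)) +
      (∑ j, β j) * (b - (∑ j, β j) - (D / b + 1 : ℕ)) ≤ tot E dg D g α β := by
  have h1 := ab_part ha hb hba hD α β hα hβ
  have h2 := clique_part α hα
  have h3 := clique_part β hβ
  have h4 : 0 ≤ ∑ u, ∑ v, ii (E u v) * (g u * (1 - g v)) :=
    Finset.sum_nonneg fun u _ => Finset.sum_nonneg fun v _ => mul_nonneg (ii_nonneg _)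
      (mul_nonneg (bit_bounds hg u).1 (bit_bounds hg v).2)
  have h5 : 0 ≤ ∑ u, ∑ j : Fin b, ii (decide ((j : ℕ) < n0 - dg u)) * (g u * (1 - β j)) :=
    Finset.sum_nonneg fun u _ => Finset.sum_nonneg fun v _ => mul_nonneg (ii_nonneg _)
      (mul_nonneg (bit_bounds hg u).1 (bit_bounds hβ v).2)
  have h6 : 0 ≤ ∑ j : Fin b, ∑ u, ii (decide ((j : ℕ) < n0 - dg u)) * (β j * (1 - g u)) :=
    Finset.sum_nonneg fun v _ => Finset.sum_nonneg fun u _ => mul_nonneg (ii_nonneg _)
      (mul_nonneg (bit_bounds hβ v).1 (bit_bounds hg u).2)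
  unfold tot
  rw [h2, h3]
  simp only [Fintype.card_fin]
  have h7 : ∑ i, α i = a - ∑ i, (1 - α i) := by
    rw [Finset.sum_sub_distrib]; simp
  rw [h7]
  nlinarith

/-- The exact value at the intended bisections. -/
theorem tot_intended (E : Fin n0 → Fin n0 → Bool) (dg : Fin n0 → ℕ)
    (hdg : ∀ u, (dg u : ℤ) = ∑ v, ii (E u v)) (ha : 0 < a) (hb : 0 < b) (hn : n0 ≤ b) {D : ℕ}
    (hD : D ≤ a * b) (g : Fin n0 → ℤ) :
    tot E dg D g (fun _ : Fin a => 1) (fun _ : Fin b => 0) =
      D + n0 * (∑ u, g u) - ∑ u, ∑ v, ii (E u v) * (g u * g v) := by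
  have hT : (∑ i : Fin a, ∑ j : Fin b, ii (ab a b D i j)) = D := by
    have h := ab_total ha hb hD
    rw [← Finset.sum_product']
    conv_rhs => rw [← h]
    rw [← Finset.sum_boole]
    rfl
  have hle : ∀ u, dg u ≤ n0 := by
    intro u
    have h1 : (dg u : ℤ) ≤ n0 := by
      rw [hdg u]
      calc ∑ v, ii (E u v) ≤ ∑ _v : Fin n0, (1 : ℤ) := by
            refine Finset.sum_le_sum fun v _ => ?_
            unfold ii
            split_ifs <;> norm_num
        _ = n0 := by simp
    exact_mod_cast h1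
  have h2 : ∀ u, ∑ j : Fin b, ii (decide ((j : ℕ) < n0 - dg u)) = (n0 : ℤ) - dg u := by
    intro u
    have h3 : (∑ j : Fin b, ii (decide ((j : ℕ) < n0 - dg u))) =
        (((univ : Finset (Fin b)).filter fun j : Fin b => (j : ℕ) < n0 - dg u).card : ℤ) := by
      rw [← Finset.sum_boole]
      refine Finset.sum_congr rfl fun j _ => ?_
      simp [ii]
    rw [h3]
    have h4 : ((univ : Finset (Fin b)).filter fun j : Fin b => (j : ℕ) < n0 - dg u).card =
        n0 - dg u := by
      rw [Fin.card_filter_val_lt]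
      omega
    rw [h4, Nat.cast_sub (hle u)]
  unfold tot
  simp only [sub_zero, mul_one, sub_self, mul_zero, zero_mul, Finset.sum_const_zero, add_zero]
  rw [hT]
  have h5 : ∑ u, ∑ j : Fin b, ii (decide ((j : ℕ) < n0 - dg u)) * g u =
      ∑ u, ((n0 : ℤ) - dg u) * g u := by
    refine Finset.sum_congr rfl fun u _ => ?_
    rw [← Finset.sum_mul, h2]
  rw [h5]
  have h6 : ∑ u, ∑ v, ii (E u v) * (g u * (1 - g v)) =
      ∑ u, (dg u : ℤ) * g u - ∑ u, ∑ v, ii (E u v) * (g u * g v) := by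
    rw [← Finset.sum_sub_distrib]
    refine Finset.sum_congr rfl fun u _ => ?_
    rw [hdg u, Finset.sum_mul, ← Finset.sum_sub_distrib]
    refine Finset.sum_congr rfl fun v _ => by ring
  rw [h6]
  have h7 : ∑ u, ((n0 : ℤ) - dg u) * g u = n0 * (∑ u, g u) - ∑ u, (dg u : ℤ) * g u := by
    rw [Finset.mul_sum, ← Finset.sum_sub_distrib]
    refine Finset.sum_congr rfl fun u _ => by ring
  rw [h7]
  ring

end Tot

end Pool.Agent.Y645.BT
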