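import Pool.Agent.NPC.Defs

/-!
# Smoothed testers for graph bisection: definitions

A graph on `n` vertices is given by one bit for every unordered pair of distinct vertices.
-/

set_option autoImplicit false

namespace Pool.Agent.Y645.BT

open Pool.Agent.NPC

/-- The class `BPP`: a polynomial-time algorithm with `ρ |x|` random bits is right with probability
at least `2 / 3`. -/
def InBPP (L : Set (List Bool)) : Prop :=
  ∃ (V : List Bool → List Bool) (ρ : Polynomial ℕ), PolyTime V ∧
    ∀ x, 2 * 2 ^ ρ.eval x.length ≤ 3 * {r : List Bool | r.length = ρ.eval x.length ∧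
      (V (pairBits x r) = [true] ↔ x ∈ L)}.ncard

/-- The unordered pairs of distinct vertices, written `u < v`. -/
abbrev Pr (n : ℕ) : Type := {p : Fin n × Fin n // p.1 < p.2}

/-- The simple graphs on the vertices `0, …, n - 1`: one bit for every pair of vertices. -/
abbrev Gr (n : ℕ) : Type := Pr n → Bool

/-- Adjacency of the vertices `u` and `v`. -/
def adj {n : ℕ} (G : Gr n) (u v : Fin n) : Bool :=
  if h : u < v then G ⟨(u, v), h⟩ else if h : v < u then G ⟨(v, u), h⟩ else false

/-- The number of edges between `S` and its complement. -/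
def cut {n : ℕ} (G : Gr n) (S : Finset (Fin n)) : ℕ :=
  ((S ×ˢ Sᶜ).filter fun p => adj G p.1 p.2 = true).card

/-- `ρ`-Bisection: some partition into two halves is crossed by at most `ρ n ^ 2` edges. -/
def Bisection (ρ : ℝ) {n : ℕ} (G : Gr n) : Prop :=
  ∃ S : Finset (Fin n), 2 * S.card = n ∧ (cut G S : ℝ) ≤ ρ * (n : ℝ) ^ 2

/-- The probability that `G` is the `σ`-perturbation of `G₀`: every pair is toggled independently
with probability `σ`. -/
def wt (σ : ℝ) {n : ℕ} (G₀ G : Gr n) : ℝ := ∏ p : Pr n, if G p = G₀ p then 1 - σ else σ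

/-- A randomized algorithm with edge queries, for the parameters `ε = 1 / e`, `σ = 1 / s`. There is
a polynomial-time Turing machine (`Pool.Agent.NPC.PolyTime`) which, from `e`, `s` in unary, the
random bits and the answers to the queries made so far (the last one first), computes either the
next query `(i, j)` (are the `i`-th and the `j`-th sampled vertex adjacent?) or the verdict. The
algorithm has `(e + s) ^ k` sampled vertices and `(e + s) ^ k` random bits at its disposal, and it
makes at most `(e + s) ^ k` steps. -/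
structure Alg where
  /-- the next query or the verdict -/
  next : List Unit × List Unit × List Bool × List Bool → (ℕ × ℕ) ⊕ Bool
  /-- the exponent of the bounds -/
  k : ℕ
  /-- `next` is computed by a polynomial-time Turing machine -/
  poly : ∃ F : List Bool → List Bool, PolyTime F ∧ ∀ a, F (bits a) = bits (next a)

/-- The bound `(e + s) ^ k` for the numbers of samples, random bits and queries. -/
def Alg.bd (A : Alg) (e s : ℕ) : ℕ := (e + s) ^ A.k

/-- The run of the algorithm, with random bits `r` and answers `orc`, for at most `fuel` steps,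
from the answers `ans` received so far. -/
def Alg.run (A : Alg) (e s : ℕ) (r : List Bool) (orc : ℕ → ℕ → Bool) : ℕ → List Bool → Bool
  | 0, _ => false
  | fuel + 1, ans =>
    match A.next (List.replicate e (), List.replicate s (), r, ans) with
    | Sum.inl q => A.run e s r orc fuel (orc q.1 q.2 :: ans)
    | Sum.inr b => b

/-- The answers to the queries, for the sampled vertices `v`. -/
def orcOf {n T : ℕ} (G : Gr n) (v : Fin T → Fin n) (i j : ℕ) : Bool :=
  if h : i < T ∧ j < T then adj G (v ⟨i, h.1⟩) (v ⟨j, h.2⟩) else false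

/-- The verdict of the algorithm on `G`, for sampled vertices `v` and random bits `r`. -/
def Alg.out (A : Alg) (e s : ℕ) {n : ℕ} (G : Gr n) (v : Fin (A.bd e s) → Fin n)
    (r : Fin (A.bd e s) → Bool) : Bool :=
  A.run e s (List.ofFn r) (orcOf G v) (A.bd e s) []

open Classical in
/-- The probability (over independent uniform vertices and random bits) that the verdict on `G` is
wrong. -/
noncomputable def Alg.wrong (A : Alg) (ρ : ℝ) (e s : ℕ) {n : ℕ} (G : Gr n) : ℝ :=
  ((Finset.univ.filter fun x : (Fin (A.bd e s) → Fin n) × (Fin (A.bd e s) → Bool) =>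
      ¬ (A.out e s G x.1 x.2 = true ↔ Bisection ρ G)).card : ℝ) /
    ((n : ℝ) ^ A.bd e s * 2 ^ A.bd e s)

open Classical in
/-- The probability that the verdict is wrong on a `ρ`-Bisection-preserving `1 / s`-perturbation of
`G₀`. -/
noncomputable def Alg.err (A : Alg) (ρ : ℝ) (e s : ℕ) {n : ℕ} (G₀ : Gr n) : ℝ :=
  (∑ G ∈ Finset.univ.filter (fun G : Gr n => Bisection ρ G ↔ Bisection ρ G₀),
      wt (1 / s) G₀ G * A.wrong ρ e s G) /
    ∑ G ∈ Finset.univ.filter (fun G : Gr n => Bisection ρ G ↔ Bisection ρ G₀), wt (1 / s) G₀ G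

/-- The algorithm is a smoothed tester for `ρ`-Bisection: for all `ε = 1 / e` and `σ = 1 / s`
with `ε < σ (1 / 4 - 2 ρ)` its error probability on property-preserving perturbations of graphs
on `n` vertices (`n` even) is less than `1 / 3 + o(1)`. -/
def Alg.Tests (A : Alg) (ρ : ℝ) : Prop :=
  ∀ e s : ℕ, 0 < e → 2 ≤ s → (1 / e : ℝ) < 1 / s * (1 / 4 - 2 * ρ) →
    ∀ δ : ℝ, 0 < δ → ∃ n₀ : ℕ, ∀ n : ℕ, n₀ ≤ n → Even n → ∀ G₀ : Gr n,
      A.err ρ e s G₀ < 1 / 3 + δ

end Pool.Agent.Y645.BT
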