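import Pool.Agent.Y645.BT.MachPoly
import Pool.Agent.NPC.Sat

/-!
# A fast smoothed tester puts `NP` into `BPP`
-/

set_option autoImplicit false

namespace Pool.Agent.Y645.BT

open Pool.Agent.NPC Pool.Agent.NPC.H634R2

/-- Counting bit strings. -/
theorem ncard_strings (R : ℕ) (P : List Bool → Prop) [DecidablePred P] :
    {r : List Bool | r.length = R ∧ P r}.ncard =
      (Finset.univ.filter fun x : Fin R → Bool => P (List.ofFn x)).card := by
  have h1 : {r : List Bool | r.length = R ∧ P r} =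
      (List.ofFn : (Fin R → Bool) → List Bool) ''
        (Finset.univ.filter fun x : Fin R → Bool => P (List.ofFn x) : Finset (Fin R → Bool)) := by
    ext r
    constructor
    · rintro ⟨h1, h2⟩
      subst h1
      have h3 : (List.ofFn fun i : Fin r.length => r.get i) = r := List.ofFn_get r
      refine ⟨fun i => r.get i, ?_, h3⟩
      rw [Finset.mem_coe, Finset.mem_filter, h3]
      exact ⟨Finset.mem_univ _, h2⟩
    · rintro ⟨x, hx, rfl⟩
      rw [Finset.mem_coe, Finset.mem_filter] at hx
      exact ⟨List.length_ofFn, hx.2⟩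
  rw [h1, Set.ncard_image_of_injective _ List.ofFn_injective, Set.ncard_coe_finset]

/-- **A fast smoothed tester for `ρ`-Bisection puts `NP` into `BPP`.** -/
theorem np_sub_bpp {p q : ℕ} (hp : 0 < p) (hq : 8 * p < q) (A : Alg)
    (hA : A.Tests ((p : ℝ) / q)) (L : Set (List Bool)) (hL : InNP L) : InBPP L := by
  classical
  obtain ⟨f, hf, hfL⟩ := hardI_SAT3 L hL
  have pf : NPC.Poly f := PC.comp (g := f) (f := fun x => x) hf H622R2.rawOut
  have hx : NPC.Poly (fun y => (unpair y).1) := Poly.fst poly_unpair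
  have hr : NPC.Poly (fun y => (unpair y).2) := Poly.snd poly_unpair
  have hV : PolyTime (fun y => [simN A p q (f (unpair y).1) (unpair y).2]) :=
    polyTime_of_poly (simN_poly A p q (pf.comp hx) hr)
  obtain ⟨u, hu⟩ := Poly.sz_le (pR_poly q A.k (m_poly pf))
  refine ⟨_, u.comp (Polynomial.C 4 * Polynomial.X + Polynomial.C 1), hV, fun x => ?_⟩
  have hR : pR A.k q (f x).length ≤
      (u.comp (Polynomial.C 4 * Polynomial.X + Polynomial.C 1)).eval x.length := by
    rw [Polynomial.eval_comp]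
    have h1 := hu x
    have h2 := length_lt_sz (List.replicate (pR A.k q (f x).length) ())
    rw [List.length_replicate] at h2
    refine (h2.le.trans h1).trans (eval_mono _ ?_)
    have h4 := sz_listBool_le x
    simpa using h4
  have h1 := simN_right A hp hq hA (f x) hR
  rw [ncard_strings]
  refine h1.trans (Nat.mul_le_mul_left _ (Finset.card_le_card fun ρ hρ => ?_))
  simp only [Finset.mem_filter, Finset.mem_univ, true_and] at hρ ⊢
  rw [unpair_pairBits, hfL x]
  simpa using hρ

/-- The same for rational numbers `ρ`. -/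
theorem np_sub_bpp_rat {ρ : ℚ} (h0 : 0 < ρ) (h8 : ρ < 1 / 8) (h : ∃ A : Alg, A.Tests (ρ : ℝ))
    (L : Set (List Bool)) (hL : InNP L) : InBPP L := by
  obtain ⟨A, hA⟩ := h
  have hnum : 0 < ρ.num := Rat.num_pos.2 h0
  obtain ⟨p, hp⟩ : ∃ p : ℕ, ρ.num = p := ⟨ρ.num.toNat, (Int.toNat_of_nonneg hnum.le).symm⟩
  have hp0 : 0 < p := by omega
  have hden : 0 < ρ.den := ρ.den_pos
  have hρ : (ρ : ℝ) = (p : ℝ) / ρ.den := by
    have h1 : (ρ : ℝ) = (ρ.num : ℝ) / ρ.den := by exact_mod_cast (Rat.num_div_den ρ).symm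
    rw [h1, hp]
    simp
  have hq : 8 * p < ρ.den := by
    have h1 : ρ = (p : ℚ) / (ρ.den : ℚ) := by
      conv_lhs => rw [← Rat.num_div_den ρ, hp]
      simp
    have h3 : (0 : ℚ) < ρ.den := by exact_mod_cast hden
    rw [h1, div_lt_div_iff₀ h3 (by norm_num)] at h8
    have h4 : (8 * p : ℚ) < ρ.den := by linarith
    exact_mod_cast h4
  rw [hρ] at hA
  exact np_sub_bpp hp0 hq A hA L hL

end Pool.Agent.Y645.BT
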