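import Pool.Agent.Y645.BT.Blow
import Pool.Agent.Y645.BT.Core

/-!
# The instances as graphs on `0, …, N - 1`
-/

set_option autoImplicit false

namespace Pool.Agent.Y645.BT

open Finset

/-- Adjacency in the instance. -/
def Jn (E : ℕ → ℕ → Bool) (dg : ℕ → ℕ) (n0 a b D u v : ℕ) : Bool :=
  if u < n0 then
    if v < n0 then E u v
    else if v < n0 + a then false
    else decide (v - (n0 + a) < n0 - dg u)
  else if u < n0 + a then
    if v < n0 then false
    else if v < n0 + a then decide (u ≠ v)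
    else ab a b D (u - n0) (v - (n0 + a))
  else
    if v < n0 then decide (u - (n0 + a) < n0 - dg v)
    else if v < n0 + a then ab a b D (v - n0) (u - (n0 + a))
    else decide (u ≠ v)

theorem Jn_comm {E : ℕ → ℕ → Bool} (hE : ∀ u v, E u v = E v u) (dg : ℕ → ℕ) (n0 a b D u v : ℕ) :
    Jn E dg n0 a b D u v = Jn E dg n0 a b D v u := by
  have h : decide (u ≠ v) = decide (v ≠ u) := decide_eq_decide.2 ne_comm
  unfold Jn
  rw [hE u v, h]
  split_ifs <;> rfl

section Eq

variable {n0 a b N : ℕ}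

/-- The vertices of the instance. -/
def ve (hN : N = n0 + (a + b)) : Fin n0 ⊕ (Fin a ⊕ Fin b) ≃ Fin N :=
  (Equiv.sumCongr (Equiv.refl _) finSumFinEquiv).trans
    (finSumFinEquiv.trans (finCongr hN.symm))

theorem ve_V (hN : N = n0 + (a + b)) (u : Fin n0) : ((ve hN (Sum.inl u) : Fin N) : ℕ) = u := by
  simp [ve]

theorem ve_A (hN : N = n0 + (a + b)) (i : Fin a) :
    ((ve hN (Sum.inr (Sum.inl i)) : Fin N) : ℕ) = n0 + i := by
  simp [ve]

theorem ve_B (hN : N = n0 + (a + b)) (j : Fin b) :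
    ((ve hN (Sum.inr (Sum.inr j)) : Fin N) : ℕ) = n0 + (a + j) := by
  simp [ve]

/-- The instance as a graph. -/
def JF (E : ℕ → ℕ → Bool) (dg : ℕ → ℕ) (n0 a b D N : ℕ) (c d : Fin N) : Bool :=
  Jn E dg n0 a b D c d

/-- Indicator vector of a set. -/
def sv (T : Finset (Fin N)) (c : Fin N) : ℤ := if c ∈ T then 1 else 0

theorem sv_bit (T : Finset (Fin N)) (c : Fin N) : sv T c = 0 ∨ sv T c = 1 := by
  unfold sv
  split_ifs <;> simp

theorem sum_sv (T : Finset (Fin N)) : ∑ c, sv T c = T.card := by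
  unfold sv
  simp

theorem cutJ_sv (J : Fin N → Fin N → Bool) (T : Finset (Fin N)) :
    (cutJ J T : ℤ) = ∑ c, ∑ d, ii (J c d) * (sv T c * (1 - sv T d)) := by
  have h1 : (cutJ J T : ℤ) = ∑ c ∈ T, ∑ d ∈ Tᶜ, ii (J c d) := by
    unfold cutJ
    rw [← Finset.sum_product', ← Finset.sum_boole]
    rfl
  rw [h1, ← Finset.sum_subset (subset_univ T)]
  · refine Finset.sum_congr rfl fun c hc => ?_
    rw [← Finset.sum_subset (subset_univ Tᶜ)]
    · refine Finset.sum_congr rfl fun d hd => ?_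
      rw [mem_compl] at hd
      simp [sv, hc, hd]
    · intro d _ hd
      rw [mem_compl, not_not] at hd
      simp [sv, hd]
  · intro c _ hc
    simp [sv, hc]

theorem sum_ve (hN : N = n0 + (a + b)) (f : Fin N → ℤ) :
    ∑ c, f c = (∑ u : Fin n0, f (ve hN (Sum.inl u))) + ((∑ i : Fin a, f (ve hN (Sum.inr (Sum.inl i)))) +
      ∑ j : Fin b, f (ve hN (Sum.inr (Sum.inr j)))) := by
  rw [← Equiv.sum_comp (ve hN) f, Fintype.sum_sum_type, Fintype.sum_sum_type]

theorem cutJ_eq (E : ℕ → ℕ → Bool) (dg : ℕ → ℕ) (hN : N = n0 + (a + b)) (D : ℕ)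
    (T : Finset (Fin N)) :
    (cutJ (JF E dg n0 a b D N) T : ℤ) = tot (fun u v : Fin n0 => E u v) (fun u => dg u) D
      (fun u => sv T (ve hN (Sum.inl u))) (fun i => sv T (ve hN (Sum.inr (Sum.inl i))))
      (fun j => sv T (ve hN (Sum.inr (Sum.inr j)))) := by
  have j1 : ∀ u v : Fin n0, JF E dg n0 a b D N (ve hN (Sum.inl u)) (ve hN (Sum.inl v)) = E u v := by
    intro u v
    unfold JF Jn
    rw [ve_V, ve_V, if_pos u.2, if_pos v.2]
  have j2 : ∀ (u : Fin n0) (i : Fin a),
      JF E dg n0 a b D N (ve hN (Sum.inl u)) (ve hN (Sum.inr (Sum.inl i))) = false := by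
    intro u i
    unfold JF Jn
    rw [ve_V, ve_A, if_pos u.2, if_neg (by omega), if_pos (by omega)]
  have j3 : ∀ (u : Fin n0) (j : Fin b),
      JF E dg n0 a b D N (ve hN (Sum.inl u)) (ve hN (Sum.inr (Sum.inr j))) =
        decide ((j : ℕ) < n0 - dg u) := by
    intro u j
    unfold JF Jn
    rw [ve_V, ve_B, if_pos u.2, if_neg (by omega), if_neg (by omega)]
    congr 2
    omega
  have j4 : ∀ (u : Fin n0) (i : Fin a),
      JF E dg n0 a b D N (ve hN (Sum.inr (Sum.inl i))) (ve hN (Sum.inl u)) = false := by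
    intro u i
    unfold JF Jn
    rw [ve_V, ve_A, if_neg (by omega), if_pos (by omega), if_pos u.2]
  have j5 : ∀ (i i' : Fin a),
      JF E dg n0 a b D N (ve hN (Sum.inr (Sum.inl i))) (ve hN (Sum.inr (Sum.inl i'))) =
        decide (i ≠ i') := by
    intro i i'
    unfold JF Jn
    rw [ve_A, ve_A, if_neg (by omega), if_pos (by omega), if_neg (by omega), if_pos (by omega)]
    apply decide_eq_decide.2
    rw [Ne, Ne, Fin.ext_iff]
    omega
  have j6 : ∀ (i : Fin a) (j : Fin b),
      JF E dg n0 a b D N (ve hN (Sum.inr (Sum.inl i))) (ve hN (Sum.inr (Sum.inr j))) =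
        ab a b D i j := by
    intro i j
    unfold JF Jn
    rw [ve_A, ve_B, if_neg (by omega), if_pos (by omega), if_neg (by omega), if_neg (by omega)]
    congr 1 <;> omega
  have j7 : ∀ (u : Fin n0) (j : Fin b),
      JF E dg n0 a b D N (ve hN (Sum.inr (Sum.inr j))) (ve hN (Sum.inl u)) =
        decide ((j : ℕ) < n0 - dg u) := by
    intro u j
    unfold JF Jn
    rw [ve_V, ve_B, if_neg (by omega), if_neg (by omega), if_pos u.2]
    congr 2
    omega
  have j8 : ∀ (i : Fin a) (j : Fin b),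
      JF E dg n0 a b D N (ve hN (Sum.inr (Sum.inr j))) (ve hN (Sum.inr (Sum.inl i))) =
        ab a b D i j := by
    intro i j
    unfold JF Jn
    rw [ve_A, ve_B, if_neg (by omega), if_neg (by omega), if_neg (by omega), if_pos (by omega)]
    congr 1 <;> omega
  have j9 : ∀ (j j' : Fin b),
      JF E dg n0 a b D N (ve hN (Sum.inr (Sum.inr j))) (ve hN (Sum.inr (Sum.inr j'))) =
        decide (j ≠ j') := by
    intro j j'
    unfold JF Jn
    rw [ve_B, ve_B, if_neg (by omega), if_neg (by omega), if_neg (by omega), if_neg (by omega)]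
    apply decide_eq_decide.2
    rw [Ne, Ne, Fin.ext_iff]
    omega
  have hf : ii false = 0 := by simp [ii]
  rw [cutJ_sv, sum_ve hN]
  simp only [sum_ve hN, j1, j2, j3, j4, j5, j6, j7, j8, j9, hf, zero_mul,
    Finset.sum_const_zero, zero_add, add_zero, Finset.sum_add_distrib]
  unfold tot
  ring

end Eq

end Pool.Agent.Y645.BT
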