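import Pool.Agent.Y645.BT.Sim

/-!
# What a smoothed tester does on the idealised samples
-/

set_option autoImplicit false

namespace Pool.Agent.Y645.BT

open Finset

variable {n N : ℕ}

theorem real_eq (A : Alg) (e s : ℕ) (G₀ : Gr n) (b : Bool) :
    A.real e s G₀ b = ∑ G, wt (1 / s) G₀ G *
      (((univ.filter fun x : (Fin (A.bd e s) → Fin n) × (Fin (A.bd e s) → Bool) =>
        A.out e s G x.1 x.2 = b).card : ℝ) / ((n : ℝ) ^ A.bd e s * 2 ^ A.bd e s)) := by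
  unfold Alg.real
  have h1 : ∀ v : Fin (A.bd e s) → Fin n, (∑ r : Fin (A.bd e s) → Bool, ∑ G, wt (1 / s) G₀ G *
      (if A.out e s G v r = b then (1 : ℝ) else 0)) = ∑ G, wt (1 / s) G₀ G *
      ∑ r : Fin (A.bd e s) → Bool, (if A.out e s G v r = b then (1 : ℝ) else 0) := by
    intro v
    rw [Finset.sum_comm]
    refine Finset.sum_congr rfl fun G _ => ?_
    rw [Finset.mul_sum]
  rw [Finset.sum_congr rfl fun v _ => h1 v, Finset.sum_comm, Finset.sum_div]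
  refine Finset.sum_congr rfl fun G _ => ?_
  rw [← Finset.mul_sum, mul_div_assoc]
  congr 2
  rw [← Finset.sum_boole, Fintype.sum_prod_type]

theorem frac_le_one (A : Alg) (e s : ℕ) (hn : 0 < n) (G : Gr n) (b : Bool) :
    (((univ.filter fun x : (Fin (A.bd e s) → Fin n) × (Fin (A.bd e s) → Bool) =>
        A.out e s G x.1 x.2 = b).card : ℝ) / ((n : ℝ) ^ A.bd e s * 2 ^ A.bd e s)) ≤ 1 := by
  have hn' : (0 : ℝ) < n := by exact_mod_cast hn
  rw [div_le_one (by positivity)]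
  have h1 := Finset.card_filter_le
    (univ : Finset ((Fin (A.bd e s) → Fin n) × (Fin (A.bd e s) → Bool)))
    (fun x => A.out e s G x.1 x.2 = b)
  rw [Finset.card_univ, Fintype.card_prod, Fintype.card_fun, Fintype.card_fun, Fintype.card_fin,
    Fintype.card_fin, Fintype.card_bool] at h1
  exact_mod_cast h1

/-- The probability of the wrong verdict without conditioning. -/
theorem real_le_err (A : Alg) {ρ : ℝ} {e s : ℕ} (hs : 2 ≤ s) (hn : 0 < n) (G₀ : Gr n) {b : Bool}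
    (hb : b = true ↔ ¬ Bisection ρ G₀) :
    A.real e s G₀ b ≤ A.err ρ e s G₀ + mass (1 / s) G₀ (fun G => ¬ (Bisection ρ G ↔ Bisection ρ G₀)) := by
  classical
  have hs' : (2 : ℝ) ≤ s := by exact_mod_cast hs
  have h0 : (0 : ℝ) < 1 / s := by positivity
  have h1 : (1 : ℝ) / s < 1 := by rw [div_lt_one (by linarith)]; linarith
  set P : Gr n → Prop := fun G => (Bisection ρ G ↔ Bisection ρ G₀) with hP
  set den : ℝ := ∑ G ∈ univ.filter P, wt (1 / s) G₀ G with hden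
  have hden1 : den ≤ 1 := by
    rw [← wt_sum (σ := 1 / (s : ℝ)) G₀]
    exact Finset.sum_le_sum_of_subset_of_nonneg (filter_subset _ _)
      fun G _ _ => wt_nonneg h0.le h1.le _ _
  have hden0 : 0 < den := by
    have h2 : wt (1 / s) G₀ G₀ ≤ den := by
      refine Finset.single_le_sum (f := fun G => wt (1 / (s : ℝ)) G₀ G)
        (fun G _ => wt_nonneg h0.le h1.le _ _) ?_
      rw [mem_filter]
      exact ⟨mem_univ _, Iff.rfl⟩
    exact lt_of_lt_of_le (wt_pos h0 h1 _ _) h2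
  have hwrong0 : ∀ G : Gr n, 0 ≤ A.wrong ρ e s G := by
    intro G
    unfold Alg.wrong
    positivity
  have hnum : (∑ G ∈ univ.filter P, wt (1 / s) G₀ G * A.wrong ρ e s G) ≤ A.err ρ e s G₀ := by
    have h2 : A.err ρ e s G₀ = (∑ G ∈ univ.filter P, wt (1 / s) G₀ G * A.wrong ρ e s G) / den := by
      unfold Alg.err
      congr
    rw [h2, le_div_iff₀ hden0]
    have h3 : 0 ≤ ∑ G ∈ univ.filter P, wt (1 / s) G₀ G * A.wrong ρ e s G :=
      Finset.sum_nonneg fun G _ => mul_nonneg (wt_nonneg h0.le h1.le _ _) (hwrong0 G)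
    nlinarith
  refine le_trans ?_ (add_le_add_left hnum _)
  rw [real_eq]
  unfold mass
  rw [Finset.sum_filter, ← Finset.sum_add_distrib]
  refine Finset.sum_le_sum fun G _ => ?_
  by_cases hG : P G
  · rw [if_pos hG, if_neg (not_not_intro hG), mul_zero, add_zero]
    refine mul_le_mul_of_nonneg_left (le_of_eq ?_) (wt_nonneg h0.le h1.le _ _)
    unfold Alg.wrong
    congr 3
    ext x
    simp only [mem_filter, mem_univ, true_and]
    have hGG : Bisection ρ G ↔ Bisection ρ G₀ := hG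
    by_cases hB : Bisection ρ G₀
    · have hb' : b = false := by
        cases b
        · rfl
        · exact absurd hB (hb.1 rfl)
      have hBG : Bisection ρ G := hGG.2 hB
      simp [hb', hBG]
    · have hb' : b = true := hb.2 hB
      have hBG : ¬ Bisection ρ G := fun h => hB (hGG.1 h)
      simp [hb', hBG]
  · rw [if_neg hG, if_pos hG, zero_add]
    exact mul_le_mul_of_nonneg_left (frac_le_one A e s hn G b) (wt_nonneg h0.le h1.le _ _)

/-- Smallness of the tails. -/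
theorem tail_small {c : ℝ} {n : ℕ} (h : 2 ≤ c ^ 2 * n) :
    2 ^ n * Real.exp (-(c ^ 2 * (n : ℝ) ^ 2)) ≤ (1 / 2) ^ n := by
  have h1 : Real.exp (-(c ^ 2 * (n : ℝ) ^ 2)) ≤ Real.exp (-2) ^ n := by
    rw [← Real.exp_nat_mul]
    apply Real.exp_le_exp.2
    have : (0 : ℝ) ≤ n := by positivity
    nlinarith
  have h2 : Real.exp (-2) ≤ 1 / 4 := by
    have h3 := Real.exp_one_gt_d9
    have h4 : Real.exp 2 = Real.exp 1 * Real.exp 1 := by rw [← Real.exp_add]; norm_num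
    rw [Real.exp_neg, h4, inv_eq_one_div]
    apply one_div_le_one_div_of_le (by norm_num)
    nlinarith
  calc 2 ^ n * Real.exp (-(c ^ 2 * (n : ℝ) ^ 2)) ≤ 2 ^ n * Real.exp (-2) ^ n :=
        mul_le_mul_of_nonneg_left h1 (by positivity)
    _ = (2 * Real.exp (-2)) ^ n := by rw [mul_pow]
    _ ≤ (1 / 2) ^ n := by
        apply pow_le_pow_left₀ (by positivity)
        linarith

/-- **The behaviour of a tester on the idealised samples.** -/
theorem sim_le_third (A : Alg) {ρ : ℝ} (hA : A.Tests ρ) {e s : ℕ} (he : 0 < e) (hs : 2 ≤ s)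
    (hes : (1 / e : ℝ) < 1 / s * (1 / 4 - 2 * ρ)) {J : Fin N → Fin N → Bool}
    (hJ : ∀ c d, J c d = J d c) {M : ℕ} (hNM : N = 2 * M) (hN : 0 < N) {b : Bool} {c : ℝ}
    (hc0 : 0 < c)
    (hb : ∀ t : ℕ, 0 < t → (b = true ↔ ¬ Bisection ρ (blow J t)))
    (hm : ∀ t : ℕ, 0 < t → mass (1 / s) (blow J t)
      (fun G => ¬ (Bisection ρ G ↔ Bisection ρ (blow J t))) ≤
      2 ^ (N * t) * Real.exp (-(c ^ 2 * ((N * t : ℕ) : ℝ) ^ 2))) :
    A.sim e s J b ≤ 1 / 3 := by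
  apply le_of_forall_pos_le_add
  intro δ hδ
  obtain ⟨n₀, hn₀⟩ := hA e s he hs hes (δ / 3) (by linarith)
  have hrep := (rep_tendsto (A.bd e s)).eventually (gt_mem_nhds (by linarith : (0 : ℝ) < δ / 3))
  have hpow := (tendsto_pow_atTop_nhds_zero_of_lt_one (r := (1 / 2 : ℝ)) (by norm_num)
    (by norm_num)).eventually (gt_mem_nhds (by linarith : (0 : ℝ) < δ / 3))
  obtain ⟨n₁, hn₁⟩ := Filter.eventually_atTop.1 hrep
  obtain ⟨n₂, hn₂⟩ := Filter.eventually_atTop.1 hpow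
  obtain ⟨n₃, hn₃⟩ := exists_nat_ge (2 / c ^ 2)
  set t := n₀ + n₁ + n₂ + n₃ + 1 with ht
  have htN : t ≤ N * t := Nat.le_mul_of_pos_left t hN
  have ht0 : 0 < t := by omega
  have hpos : 0 < N * t := Nat.mul_pos hN ht0
  have h1 := sim_le_real A (e := e) (by omega : 1 ≤ s) hJ hN ht0 b
  have h2 := real_le_err A (ρ := ρ) (e := e) hs hpos (blow J t) (hb t ht0)
  have h3 := hn₀ (N * t) (by omega) (by rw [hNM, mul_assoc]; exact even_two_mul _) (blow J t)
  have h4 := hn₁ (N * t) (by omega)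
  have h5 := hn₂ (N * t) (by omega)
  have h6 : 2 ≤ c ^ 2 * ((N * t : ℕ) : ℝ) := by
    have h7 : (n₃ : ℝ) ≤ ((N * t : ℕ) : ℝ) := by exact_mod_cast (by omega : n₃ ≤ N * t)
    have h8 : 2 / c ^ 2 ≤ ((N * t : ℕ) : ℝ) := hn₃.trans h7
    rw [div_le_iff₀ (by positivity)] at h8
    linarith
  have h7 := (hm t ht0).trans (tail_small h6)
  linarith

/-- Instances with a small bisection. -/
theorem sim_yes (A : Alg) {ρ : ℝ} (hρ : 0 ≤ ρ) (hA : A.Tests ρ) {e s : ℕ} (he : 0 < e)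
    (hes : (1 / e : ℝ) < 1 / s * (1 / 4 - 2 * ρ)) {J : Fin N → Fin N → Bool}
    (hJ : ∀ c d, J c d = J d c) {M : ℕ} (hNM : N = 2 * M) (hN : 0 < N)
    (hs : s = 2 * N ^ 2) {K : ℝ} (hK : K + 1 / 2 ≤ ρ * (N : ℝ) ^ 2)
    (hT : ∃ T : Finset (Fin N), 2 * T.card = N ∧ (cutJ J T : ℝ) ≤ K) :
    A.sim e s J false ≤ 1 / 3 := by
  obtain ⟨T, hT, hcut⟩ := hT
  have hN2 : 2 ≤ N := by omega
  have hs2 : 8 ≤ s := by rw [hs]; nlinarith
  have hN' : (0 : ℝ) < N := by exact_mod_cast hN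
  have hsr : (s : ℝ) = 2 * (N : ℝ) ^ 2 := by rw [hs]; push_cast; ring
  have hσ8 : (1 / s : ℝ) ≤ 1 / 8 := by
    apply one_div_le_one_div_of_le (by norm_num)
    exact_mod_cast hs2
  have hσ0 : (0 : ℝ) < 1 / s := by rw [hsr]; positivity
  have hσN : (1 / s : ℝ) * (N : ℝ) ^ 2 = 1 / 2 := by rw [hsr]; field_simp
  have hcutt : ∀ t : ℕ, 0 < t → ∃ S : Finset (Fin (N * t)), 2 * S.card = N * t ∧
      (cut (blow J t) S : ℝ) ≤ (ρ - 1 / s) * ((N * t : ℕ) : ℝ) ^ 2 := by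
    intro t ht
    obtain ⟨S, hS, hc⟩ := blow_yes (t := t) hJ hT
    refine ⟨S, hS, ?_⟩
    rw [hc]
    push_cast
    have ht' : (0 : ℝ) ≤ (t : ℝ) ^ 2 := by positivity
    calc (cutJ J T : ℝ) * (t : ℝ) ^ 2 ≤ K * (t : ℝ) ^ 2 := mul_le_mul_of_nonneg_right hcut ht'
      _ ≤ (ρ * (N : ℝ) ^ 2 - 1 / 2) * (t : ℝ) ^ 2 := mul_le_mul_of_nonneg_right (by linarith) ht'
      _ = (ρ - 1 / s) * ((N : ℝ) * t) ^ 2 := by
        rw [← hσN]; ring
  have hbis : ∀ t : ℕ, 0 < t → Bisection ρ (blow J t) := by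
    intro t ht
    obtain ⟨S, hS, hc⟩ := hcutt t ht
    refine ⟨S, hS, hc.trans ?_⟩
    apply mul_le_mul_of_nonneg_right _ (by positivity)
    linarith
  refine sim_le_third A hA he (by omega) hes hJ hNM hN (c := 1 / s / 2) (by linarith) ?_ ?_
  · intro t ht
    simp [hbis t ht]
  · intro t ht
    obtain ⟨S, hS, hc⟩ := hcutt t ht
    have h1 : mass (1 / s) (blow J t) (fun G => ¬ (Bisection ρ G ↔ Bisection ρ (blow J t))) ≤
        mass (1 / s) (blow J t) (fun G => 1 / s * (((N * t : ℕ) : ℝ) ^ 2 / 4) +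
          (1 - 2 * (1 / s)) * cut (blow J t) S + 1 / s / 2 * ((N * t : ℕ) : ℝ) ^ 2 ≤ cut G S) := by
      refine mass_mono hσ0.le (by linarith) _ fun G hG => ?_
      have h2 : ¬ Bisection ρ G := fun h => hG ⟨fun _ => hbis t ht, fun _ => h⟩
      have h3 : ρ * ((N * t : ℕ) : ℝ) ^ 2 < cut G S := by
        by_contra h4
        exact h2 ⟨S, hS, not_lt.1 h4⟩
      refine le_trans ?_ h3.le
      have hX : (0 : ℝ) ≤ ((N * t : ℕ) : ℝ) ^ 2 := by positivity
      generalize ((N * t : ℕ) : ℝ) ^ 2 = X at hc hX ⊢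
      generalize (1 / s : ℝ) = σ at *
      have h5 : (1 - 2 * σ) * (cut (blow J t) S : ℝ) ≤ (1 - 2 * σ) * ((ρ - σ) * X) :=
        mul_le_mul_of_nonneg_left hc (by linarith)
      have h6 : σ * (X / 4) + (1 - 2 * σ) * ((ρ - σ) * X) + σ / 2 * X =
          (ρ - σ * (1 / 4 + 2 * ρ - 2 * σ)) * X := by ring
      have h7 : (ρ - σ * (1 / 4 + 2 * ρ - 2 * σ)) * X ≤ ρ * X := by
        apply mul_le_mul_of_nonneg_right _ hX
        have : 0 ≤ σ * (1 / 4 + 2 * ρ - 2 * σ) := mul_nonneg hσ0.le (by linarith)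
        linarith
      linarith
    refine h1.trans ((upper_tail hσ0.le (by linarith) _ hS (by linarith) (by linarith)).trans ?_)
    have : (1 : ℝ) ≤ 2 ^ (N * t) := one_le_pow₀ (by norm_num)
    nlinarith [Real.exp_pos (-((1 / s / 2 : ℝ) ^ 2 * ((N * t : ℕ) : ℝ) ^ 2))]

/-- Instances without a small bisection. -/
theorem sim_no (A : Alg) {ρ : ℝ} (hρ8 : ρ < 1 / 8) (hA : A.Tests ρ) {e s : ℕ}
    (he : 0 < e) (hes : (1 / e : ℝ) < 1 / s * (1 / 4 - 2 * ρ)) {J : Fin N → Fin N → Bool}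
    (hJ : ∀ c d, J c d = J d c) {M : ℕ} (hNM : N = 2 * M) (hN : 0 < N)
    (hs : s = 2 * N ^ 2) {K : ℕ} (hK : ρ * (N : ℝ) ^ 2 + 1 / 2 ≤ K)
    (hT : ∀ T : Finset (Fin N), 2 * T.card = N → K ≤ cutJ J T) :
    A.sim e s J true ≤ 1 / 3 := by
  have hN2 : 2 ≤ N := by omega
  have hs2 : 8 ≤ s := by rw [hs]; nlinarith
  have hN' : (0 : ℝ) < N := by exact_mod_cast hN
  have hsr : (s : ℝ) = 2 * (N : ℝ) ^ 2 := by rw [hs]; push_cast; ring
  have hσ8 : (1 / s : ℝ) ≤ 1 / 8 := by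
    apply one_div_le_one_div_of_le (by norm_num)
    exact_mod_cast hs2
  have hσ0 : (0 : ℝ) < 1 / s := by rw [hsr]; positivity
  have hσN : (1 / s : ℝ) * (N : ℝ) ^ 2 = 1 / 2 := by rw [hsr]; field_simp
  have hcutt : ∀ t : ℕ, 0 < t → ∀ S : Finset (Fin (N * t)), 2 * S.card = N * t →
      (ρ + 1 / s) * ((N * t : ℕ) : ℝ) ^ 2 ≤ cut (blow J t) S := by
    intro t ht S hS
    have h1 := blow_no hJ hNM ht hT hS
    have h2 : (K : ℝ) * (t : ℝ) ^ 2 ≤ cut (blow J t) S := by exact_mod_cast h1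
    refine le_trans ?_ h2
    push_cast
    have ht' : (0 : ℝ) ≤ (t : ℝ) ^ 2 := by positivity
    calc (ρ + 1 / s) * ((N : ℝ) * t) ^ 2 = (ρ * (N : ℝ) ^ 2 + 1 / 2) * (t : ℝ) ^ 2 := by
          rw [← hσN]; ring
      _ ≤ _ := mul_le_mul_of_nonneg_right hK ht'
  have hbis : ∀ t : ℕ, 0 < t → ¬ Bisection ρ (blow J t) := by
    rintro t ht ⟨S, hS, hc⟩
    have h1 := hcutt t ht S hS
    have h2 : (0 : ℝ) < ((N * t : ℕ) : ℝ) ^ 2 := by
      have : (0 : ℝ) < ((N * t : ℕ) : ℝ) := by exact_mod_cast Nat.mul_pos hN ht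
      positivity
    nlinarith
  refine sim_le_third A hA he (by omega) hes hJ hNM hN (c := 1 / s / 2) (by linarith) ?_ ?_
  · intro t ht
    simp [hbis t ht]
  · intro t ht
    have h1 : mass (1 / s) (blow J t) (fun G => ¬ (Bisection ρ G ↔ Bisection ρ (blow J t))) ≤
        mass (1 / s) (blow J t) (fun G => Bisection ρ G) := by
      refine mass_mono hσ0.le (by linarith) _ fun G hG => ?_
      by_contra h2
      exact hG ⟨fun h => absurd h h2, fun h => absurd h (hbis t ht)⟩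
    refine h1.trans (union_tail hσ0.le (by linarith) _ (by linarith) (by linarith) ?_)
    intro S hS
    have hc := hcutt t ht S hS
    have hX : (0 : ℝ) ≤ ((N * t : ℕ) : ℝ) ^ 2 := by positivity
    generalize ((N * t : ℕ) : ℝ) ^ 2 = X at hc hX ⊢
    generalize (1 / s : ℝ) = σ at *
    have h5 : (1 - 2 * σ) * ((ρ + σ) * X) ≤ (1 - 2 * σ) * (cut (blow J t) S : ℝ) :=
      mul_le_mul_of_nonneg_left hc (by linarith)
    have h6 : σ * (X / 4) + (1 - 2 * σ) * ((ρ + σ) * X) - (ρ * X + σ / 2 * X) =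
        σ * (3 / 4 - 2 * ρ - 2 * σ) * X := by ring
    have h7 : 0 ≤ σ * (3 / 4 - 2 * ρ - 2 * σ) * X :=
      mul_nonneg (mul_nonneg hσ0.le (by linarith)) hX
    linarith

end Pool.Agent.Y645.BT
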