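import Pool.Agent.Y645.BT.Machine
import Pool.Agent.H622R2.CoNP

/-!
# The experiment takes polynomial time
-/

set_option autoImplicit false

namespace Pool.Agent.Y645.BT

open Pool.Agent.NPC Pool.Agent.NPC.H634R2

variable {β : Type} [TEnc β]

theorem next_poly (A : Alg) : Poly A.next := by
  obtain ⟨F, hF, h⟩ := A.poly
  have h1 : PC (id : List Bool → List Bool) (id : List Bool → List Bool) F :=
    H642R2.TMSim.polyTime_toPC hF
  obtain ⟨c, q, hc⟩ := h1
  refine ⟨c, q, fun a => ?_⟩
  have h2 := hc (bits a)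
  simp only [id_eq] at h2
  rw [h a] at h2
  exact h2

/-! ### The run -/

/-- One step of the run, from the answers so far. -/
def stepI (A : Alg) (e s : ℕ) (r : List Bool) (orc : ℕ → ℕ → Bool) (ans : List Bool) :
    List Bool ⊕ Bool :=
  match A.next (List.replicate e (), List.replicate s (), r, ans) with
  | Sum.inl q => Sum.inl (orc q.1 q.2 :: ans)
  | Sum.inr b => Sum.inr b

/-- One step of the run. -/
def stepN (A : Alg) (e s : ℕ) (r : List Bool) (orc : ℕ → ℕ → Bool) (st : List Bool ⊕ Bool) :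
    List Bool ⊕ Bool :=
  match st with
  | Sum.inl ans => stepI A e s r orc ans
  | Sum.inr b => Sum.inr b

/-- The verdict of a state. -/
def finN (st : List Bool ⊕ Bool) : Bool :=
  match st with
  | Sum.inl _ => false
  | Sum.inr b => b

theorem step_inr (A : Alg) (e s : ℕ) (r : List Bool) (orc : ℕ → ℕ → Bool) (b : Bool) (n : ℕ) :
    (stepN A e s r orc)^[n] (Sum.inr b) = Sum.inr b := by
  induction n with
  | zero => rfl
  | succ n ih => rw [Function.iterate_succ_apply]; exact ih

theorem run_iterate (A : Alg) (e s : ℕ) (r : List Bool) (orc : ℕ → ℕ → Bool) (n : ℕ) :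
    ∀ ans, A.run e s r orc n ans = finN ((stepN A e s r orc)^[n] (Sum.inl ans)) := by
  induction n with
  | zero => intro ans; rfl
  | succ n ih =>
    intro ans
    rw [Function.iterate_succ_apply]
    unfold Alg.run
    cases h : A.next (List.replicate e (), List.replicate s (), r, ans) with
    | inl q =>
      have h1 : stepN A e s r orc (Sum.inl ans) = Sum.inl (orc q.1 q.2 :: ans) := by
        simp only [stepN, stepI, h]
      rw [h1]
      exact ih _
    | inr b =>
      have h1 : stepN A e s r orc (Sum.inl ans) = Sum.inr b := by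
        simp only [stepN, stepI, h]
      rw [h1, step_inr]
      rfl

theorem step_sz (A : Alg) (e s : ℕ) (r : List Bool) (orc : ℕ → ℕ → Bool) (n : ℕ) :
    ∀ ans, sz ((stepN A e s r orc)^[n] (Sum.inl ans)) ≤ 4 * n + sz ans + 7 := by
  induction n with
  | zero => intro ans; simp
  | succ n ih =>
    intro ans
    rw [Function.iterate_succ_apply]
    cases h : A.next (List.replicate e (), List.replicate s (), r, ans) with
    | inl q =>
      have h1 : stepN A e s r orc (Sum.inl ans) = Sum.inl (orc q.1 q.2 :: ans) := by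
        simp only [stepN, stepI, h]
      rw [h1]
      have h2 := ih (orc q.1 q.2 :: ans)
      have h3 := sz_bool_le (orc q.1 q.2)
      rw [sz_list_cons] at h2
      omega
    | inr b =>
      have h1 : stepN A e s r orc (Sum.inl ans) = Sum.inr b := by
        simp only [stepN, stepI, h]
      rw [h1, step_inr, sz_inr]
      have h3 := sz_bool_le b
      omega

theorem finN_poly : Poly finN := by
  refine (Poly.sumCases (o := fun st : List Bool ⊕ Bool => st) (g := fun _ _ => false)
    (h := fun _ b => b) NPC.Poly.id (NPC.Poly.const false) (Poly.snd NPC.Poly.id)).congr fun st => ?_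
  cases st <;> rfl

theorem stepN_poly (A : Alg) {e s : β → ℕ} {r : β → List Bool} {orc : β → ℕ → ℕ → Bool}
    (he : UPoly e) (hs : UPoly s) (hr : Poly r)
    (ho : Poly (fun z : β × ℕ × ℕ => orc z.1 z.2.1 z.2.2)) :
    Poly (fun z : β × (List Bool ⊕ Bool) => stepN A (e z.1) (s z.1) (r z.1) (orc z.1) z.2) := by
  have h1 : Poly (fun y : (β × (List Bool ⊕ Bool)) × List Bool =>
      A.next (List.replicate (e y.1.1) (), List.replicate (s y.1.1) (), r y.1.1, y.2)) :=
    (next_poly A).comp (Poly.pair (he.comp (Poly.fst (Poly.fst NPC.Poly.id)))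
      (Poly.pair (hs.comp (Poly.fst (Poly.fst NPC.Poly.id)))
        (Poly.pair (hr.comp (Poly.fst (Poly.fst NPC.Poly.id))) (Poly.snd NPC.Poly.id))))
  have h2 : Poly (fun x : ((β × (List Bool ⊕ Bool)) × List Bool) × (ℕ × ℕ) =>
      (Sum.inl (orc x.1.1.1 x.2.1 x.2.2 :: x.1.2) : List Bool ⊕ Bool)) :=
    Poly.inl (Poly.cons (ho.comp (Poly.pair (Poly.fst (Poly.fst (Poly.fst NPC.Poly.id)))
      (Poly.pair (Poly.fst (Poly.snd NPC.Poly.id)) (Poly.snd (Poly.snd NPC.Poly.id)))))
      (Poly.snd (Poly.fst NPC.Poly.id)))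
  have h3 : Poly (fun x : ((β × (List Bool ⊕ Bool)) × List Bool) × Bool =>
      (Sum.inr x.2 : List Bool ⊕ Bool)) := Poly.inr (Poly.snd NPC.Poly.id)
  have h4 : NPC.Poly (fun y : (β × (List Bool ⊕ Bool)) × List Bool =>
      stepI A (e y.1.1) (s y.1.1) (r y.1.1) (orc y.1.1) y.2) := by
    refine (Poly.sumCases (o := fun y : (β × (List Bool ⊕ Bool)) × List Bool =>
      A.next (List.replicate (e y.1.1) (), List.replicate (s y.1.1) (), r y.1.1, y.2))
      (g := fun y q => (Sum.inl (orc y.1.1 q.1 q.2 :: y.2) : List Bool ⊕ Bool))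
      (h := fun _ b => Sum.inr b) h1 h2 h3).congr ?_
    intro y
    unfold stepI
    cases A.next (List.replicate (e y.1.1) (), List.replicate (s y.1.1) (), r y.1.1, y.2) <;> rfl
  have h5 : Poly (fun x : (β × (List Bool ⊕ Bool)) × Bool =>
      (Sum.inr x.2 : List Bool ⊕ Bool)) := Poly.inr (Poly.snd NPC.Poly.id)
  refine (Poly.sumCases (o := fun z : β × (List Bool ⊕ Bool) => z.2)
    (g := fun z ans => stepI A (e z.1) (s z.1) (r z.1) (orc z.1) ans)
    (h := fun _ b => Sum.inr b) (Poly.snd NPC.Poly.id) h4 h5).congr ?_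
  rintro ⟨b, st⟩
  cases st <;> rfl

theorem run_poly (A : Alg) {e s T : β → ℕ} {r : β → List Bool} {orc : β → ℕ → ℕ → Bool}
    (he : UPoly e) (hs : UPoly s) (hT : UPoly T) (hr : Poly r)
    (ho : Poly (fun z : β × ℕ × ℕ => orc z.1 z.2.1 z.2.2)) :
    Poly (fun b => A.run (e b) (s b) (r b) (orc b) (T b) []) := by
  obtain ⟨u, hu⟩ := Poly.sz_le hT
  have h1 := Poly.iterLen (l := fun b => List.replicate (T b) ())
    (s := fun _ => (Sum.inl [] : List Bool ⊕ Bool))
    (F := fun b st => stepN A (e b) (s b) (r b) (orc b) st) hT (NPC.Poly.const _)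
    (stepN_poly A he hs hr ho) (Polynomial.C 4 * u + Polynomial.C 8) (by
      intro b k hk
      have h2 := step_sz A (e b) (s b) (r b) (orc b) k []
      have h3 := hu b
      have h4 := length_lt_sz (List.replicate (T b) ())
      rw [sz_list_nil] at h2
      simp only [Polynomial.eval_add, Polynomial.eval_mul, Polynomial.eval_C]
      change sz ((stepN A (e b) (s b) (r b) (orc b))^[k] (Sum.inl [])) ≤ _
      omega)
  refine (finN_poly.comp h1).congr fun b => ?_
  rw [run_iterate, List.length_replicate]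

/-! ### The parameters -/

theorem UPoly.congr' {m n : β → ℕ} (h : UPoly m) (e : ∀ b, m b = n b) : UPoly n := by
  have h1 : m = n := funext e
  rwa [← h1]

theorem UPoly.size {n : β → ℕ} (hn : Poly n) : UPoly (fun b => (n b).size) :=
  UPoly.congr' (UPoly.length hn.natBits) fun _ => (Nat.size_eq_bits_len _)

theorem UPoly.pow' {n : β → ℕ} (hn : UPoly n) (k : ℕ) : UPoly (fun b => n b ^ k) :=
  UPoly.congr' (hn.eval (Polynomial.X ^ k)) fun b => by simp

section

variable {m : β → ℕ} (q : ℕ)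

theorem size_poly (hm : UPoly m) : UPoly (fun b => (16 * q * (m b + 1) ^ 2).size) :=
  UPoly.size (UPoly.toPoly (UPoly.mul (UPoly.const (16 * q))
    (UPoly.pow' (UPoly.add hm (UPoly.const 1)) 2)))

theorem pl_poly (hm : UPoly m) : UPoly (fun b => pl q (m b)) :=
  UPoly.add (size_poly q hm) (UPoly.const 1)

theorem pg_poly (hm : UPoly m) : UPoly (fun b => pg q (m b)) :=
  UPoly.add (UPoly.mul (UPoly.const 2) (pl_poly q hm)) (UPoly.const 1)

theorem two_pow_size_le (n : ℕ) : 2 ^ n.size ≤ 2 * n + 1 := by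
  rcases Nat.eq_zero_or_pos n with h | h
  · subst h; simp
  · have h1 : 0 < n.size := Nat.size_pos.2 h
    have h2 : 2 ^ (n.size - 1) ≤ n := Nat.lt_size.1 (by omega)
    have h3 : 2 ^ n.size = 2 * 2 ^ (n.size - 1) := by
      rw [← pow_succ', Nat.sub_add_cancel h1]
    omega

theorem pow_poly {n : β → ℕ} (hn : UPoly n) : Poly (fun b => 2 ^ n b) := by
  have h1 : Poly (fun b => List.replicate (n b) false ++ [true]) :=
    Poly.append ((NPC.Poly.map (F := fun _ _ => false) hn (NPC.Poly.const false)).congr fun b => by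
      simp) (NPC.Poly.const [true])
  refine (Poly.valBits h1).congr fun b => ?_
  rw [valB_replicate_false]
  simp

theorem pM_poly (hm : UPoly m) : UPoly (fun b => pM q (m b)) :=
  UPoly.of_le (pow_poly (size_poly q hm)) (UPoly.add (UPoly.mul (UPoly.const 2)
    (UPoly.mul (UPoly.const (16 * q)) (UPoly.pow' (UPoly.add hm (UPoly.const 1)) 2)))
    (UPoly.const 1)) fun _ => two_pow_size_le _

theorem ps_poly (hm : UPoly m) : UPoly (fun b => ps q (m b)) :=
  UPoly.mul (UPoly.const 2) (UPoly.pow' (UPoly.mul (UPoly.const 2) (pM_poly q hm)) 2)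

theorem pe_poly (hm : UPoly m) : UPoly (fun b => pe q (m b)) :=
  UPoly.mul (ps_poly q hm) (UPoly.const _)

theorem pT_poly (k : ℕ) (hm : UPoly m) : UPoly (fun b => pT k q (m b)) :=
  UPoly.pow' (UPoly.add (pe_poly q hm) (ps_poly q hm)) k

theorem pR_poly (k : ℕ) (hm : UPoly m) : UPoly (fun b => pR k q (m b)) :=
  UPoly.add (UPoly.add (UPoly.mul (pT_poly q k hm) (pl_poly q hm))
    (UPoly.mul (UPoly.mul (pT_poly q k hm) (pT_poly q k hm)) (pg_poly q hm))) (pT_poly q k hm)

theorem pK_poly (p : ℕ) (hm : UPoly m) : Poly (fun b => pK p q (m b)) :=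
  Poly.div (NPC.Poly.sub (UPoly.toPoly (UPoly.mul (UPoly.const (2 * p))
    (UPoly.pow' (UPoly.mul (UPoly.const 2) (pM_poly q hm)) 2))) (NPC.Poly.const q))
    (NPC.Poly.const (2 * q))

theorem pD_poly (p : ℕ) (hm : UPoly m) : Poly (fun b => pD p q (m b)) :=
  NPC.Poly.sub (pK_poly q p hm) (UPoly.toPoly (UPoly.add (UPoly.mul (UPoly.const 2)
    (UPoly.pow' hm 2)) hm))

end

/-! ### The instance -/

section

variable {φ : β → List Cl3} {u v : β → ℕ}

theorem hE_poly (hφ : Poly φ) (hu : Poly u) (hv : Poly v) : Poly (fun b => hE (φ b) (u b) (v b)) :=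
  Poly.or ((Poly.decide_mem (Poly.pair hu hv) (gE_poly.comp hφ)).congr fun _ =>
      decide_eq_decide.2 Iff.rfl)
    ((Poly.decide_mem (Poly.pair hv hu) (gE_poly.comp hφ)).congr fun _ =>
      decide_eq_decide.2 Iff.rfl)

theorem m_poly (hφ : Poly φ) : UPoly (fun b => (φ b).length) := UPoly.length hφ

theorem dgE_poly (hφ : Poly φ) (hu : Poly u) : Poly (fun b => dgE (φ b) (u b)) :=
  Poly.length (Poly.filter (p := fun b v => hE (φ b) (u b) v)
    (UPoly.range (UPoly.mul (UPoly.const 3) (m_poly hφ)))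
    (hE_poly (hφ.comp (Poly.fst NPC.Poly.id)) (hu.comp (Poly.fst NPC.Poly.id)) (Poly.snd NPC.Poly.id)))

theorem ab_poly {a c D i j : β → ℕ} (ha : Poly a) (hc : Poly c) (hD : Poly D) (hi : Poly i)
    (hj : Poly j) : Poly (fun b => ab (a b) (c b) (D b) (i b) (j b)) :=
  Poly.decide_lt (NPC.Poly.add (NPC.Poly.mul (Poly.mod (NPC.Poly.add hi hj) ha) hc) hj) hD

theorem JN_poly (p q : ℕ) (hφ : Poly φ) (hu : Poly u) (hv : Poly v) :
    Poly (fun b => JN p q (φ b) (u b) (v b)) := by
  have hm := m_poly hφ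
  have hmp := UPoly.toPoly hm
  have hn0 : Poly (fun b => 3 * (φ b).length) := NPC.Poly.mul (NPC.Poly.const 3) hmp
  have hM : Poly (fun b => pM q (φ b).length) := UPoly.toPoly (pM_poly q hm)
  have ha : Poly (fun b => pM q (φ b).length - (φ b).length) := NPC.Poly.sub hM hmp
  have hb : Poly (fun b => pM q (φ b).length - 2 * (φ b).length) :=
    NPC.Poly.sub hM (NPC.Poly.mul (NPC.Poly.const 2) hmp)
  have hD := pD_poly q p hm
  have hna := NPC.Poly.add hn0 ha
  have hne : Poly (fun b => decide (u b ≠ v b)) := Poly.decide_not (Poly.decide_eq hu hv)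
  have hF : Poly (fun _ : β => false) := NPC.Poly.const false
  exact Poly.ite (Poly.decide_lt hu hn0)
    (Poly.ite (Poly.decide_lt hv hn0) (hE_poly hφ hu hv)
      (Poly.ite (Poly.decide_lt hv hna) hF
        (Poly.decide_lt (NPC.Poly.sub hv hna) (NPC.Poly.sub hn0 (dgE_poly hφ hu)))))
    (Poly.ite (Poly.decide_lt hu hna)
      (Poly.ite (Poly.decide_lt hv hn0) hF
        (Poly.ite (Poly.decide_lt hv hna) hne
          (ab_poly ha hb hD (NPC.Poly.sub hu hn0) (NPC.Poly.sub hv hna))))
      (Poly.ite (Poly.decide_lt hv hn0)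
        (Poly.decide_lt (NPC.Poly.sub hu hna) (NPC.Poly.sub hn0 (dgE_poly hφ hv)))
        (Poly.ite (Poly.decide_lt hv hna)
          (ab_poly ha hb hD (NPC.Poly.sub hv hn0) (NPC.Poly.sub hu hna)) hne)))

end

/-! ### The sample -/

section

variable {T l g : β → ℕ} {r : β → List Bool} {i j : β → ℕ}

theorem clsN_poly (hl : UPoly l) (hr : Poly r) (hi : Poly i) :
    Poly (fun b => clsN (l b) (r b) (i b)) :=
  Poly.valBits (NPC.Poly.map (F := fun b j => (r b).getD (i b * l b + j) false) (UPoly.range hl)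
    (Poly.getD (hr.comp (Poly.fst NPC.Poly.id)) (NPC.Poly.add (NPC.Poly.mul (hi.comp (Poly.fst NPC.Poly.id))
      ((UPoly.toPoly hl).comp (Poly.fst NPC.Poly.id))) (Poly.snd NPC.Poly.id)) (NPC.Poly.const false)))

theorem flipN_poly (hT : UPoly T) (hl : UPoly l) (hg : UPoly g) (hr : Poly r) (hi : Poly i)
    (hj : Poly j) : Poly (fun b => flipN (T b) (l b) (g b) (r b) (i b) (j b)) := by
  have hT' := (UPoly.toPoly hT).comp (Poly.fst (NPC.Poly.id (α := β × ℕ)))
  have hl' := (UPoly.toPoly hl).comp (Poly.fst (NPC.Poly.id (α := β × ℕ)))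
  have hg' := (UPoly.toPoly hg).comp (Poly.fst (NPC.Poly.id (α := β × ℕ)))
  have hi' := hi.comp (Poly.fst (NPC.Poly.id (α := β × ℕ)))
  have hj' := hj.comp (Poly.fst (NPC.Poly.id (α := β × ℕ)))
  exact Poly.all (p := fun b u => !((r b).getD (T b * l b + ((i b * T b + j b) * g b + u)) false))
    (UPoly.range hg)
    (Poly.not (Poly.getD (hr.comp (Poly.fst NPC.Poly.id))
      (NPC.Poly.add (NPC.Poly.mul hT' hl') (NPC.Poly.add (NPC.Poly.mul (NPC.Poly.add (NPC.Poly.mul hi' hT') hj') hg')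
        (Poly.snd NPC.Poly.id))) (NPC.Poly.const false)))

theorem coinsN_poly (hT : UPoly T) (hl : UPoly l) (hg : UPoly g) (hr : Poly r) :
    Poly (fun b => coinsN (T b) (l b) (g b) (r b)) := by
  have hT' := (UPoly.toPoly hT).comp (Poly.fst (NPC.Poly.id (α := β × ℕ)))
  have hl' := (UPoly.toPoly hl).comp (Poly.fst (NPC.Poly.id (α := β × ℕ)))
  have hg' := (UPoly.toPoly hg).comp (Poly.fst (NPC.Poly.id (α := β × ℕ)))
  exact NPC.Poly.map (F := fun b i => (r b).getD (T b * l b + (T b * T b * g b + i)) false)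
    (UPoly.range hT)
    (Poly.getD (hr.comp (Poly.fst NPC.Poly.id))
      (NPC.Poly.add (NPC.Poly.mul hT' hl') (NPC.Poly.add (NPC.Poly.mul (NPC.Poly.mul hT' hT') hg')
        (Poly.snd NPC.Poly.id))) (NPC.Poly.const false))

theorem hN_poly {J : β → ℕ → ℕ → Bool} (hJ : Poly (fun z : β × ℕ × ℕ => J z.1 z.2.1 z.2.2))
    (hT : UPoly T) (hl : UPoly l) (hg : UPoly g) (hr : Poly r) (hi : Poly i) (hj : Poly j) :
    Poly (fun b => hN (J b) (T b) (l b) (g b) (r b) (i b) (j b)) := by
  have h1 := clsN_poly hl hr hi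
  have h2 := clsN_poly hl hr hj
  exact Poly.xor (Poly.or (Poly.decide_eq h1 h2) (hJ.comp (Poly.pair NPC.Poly.id (Poly.pair h1 h2))))
    (flipN_poly hT hl hg hr hi hj)

theorem orcN_poly {J : β → ℕ → ℕ → Bool} (hJ : Poly (fun z : β × ℕ × ℕ => J z.1 z.2.1 z.2.2))
    (hT : UPoly T) (hl : UPoly l) (hg : UPoly g) (hr : Poly r) (hi : Poly i) (hj : Poly j) :
    Poly (fun b => orcN (J b) (T b) (l b) (g b) (r b) (i b) (j b)) := by
  have hT' := UPoly.toPoly hT
  exact Poly.ite (Poly.decide_and (Poly.decide_lt hi hT') (Poly.decide_lt hj hT'))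
    (Poly.ite (Poly.decide_lt hi hj) (hN_poly hJ hT hl hg hr hi hj)
      (Poly.ite (Poly.decide_lt hj hi) (hN_poly hJ hT hl hg hr hj hi) (NPC.Poly.const false)))
    (NPC.Poly.const false)

end

/-- The experiment takes polynomial time. -/
theorem simN_poly (A : Alg) (p q : ℕ) {φ : β → List Cl3} {r : β → List Bool} (hφ : Poly φ)
    (hr : Poly r) : Poly (fun b => simN A p q (φ b) (r b)) := by
  have hm := m_poly hφ
  have f1 := Poly.fst (NPC.Poly.id (α := β × ℕ × ℕ))
  have hm' : UPoly (fun z : β × ℕ × ℕ => (φ z.1).length) := hm.comp f1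
  refine run_poly A (pe_poly q hm) (ps_poly q hm) (pT_poly q A.k hm)
    (coinsN_poly (pT_poly q A.k hm) (pl_poly q hm) (pg_poly q hm) hr)
    (orcN_poly (β := β × ℕ × ℕ) (J := fun z => JN p q (φ z.1)) ?_ (pT_poly q A.k hm')
      (pl_poly q hm') (pg_poly q hm') (hr.comp f1) (Poly.fst (Poly.snd NPC.Poly.id))
      (Poly.snd (Poly.snd NPC.Poly.id)))
  exact JN_poly p q (hφ.comp (Poly.fst (Poly.fst NPC.Poly.id))) (Poly.fst (Poly.snd NPC.Poly.id))
    (Poly.snd (Poly.snd NPC.Poly.id))

end Pool.Agent.Y645.BT
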