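import Pool.Agent.Y645.BT.Sim

/-!
# Producing the idealised sample from random bits
-/

set_option autoImplicit false

namespace Pool.Agent.Y645.BT

open Finset

/-- Push-forward of a product measure. -/
theorem push_prod {P X : Type} [Fintype P] [DecidableEq P] [Fintype X] [DecidableEq X]
    (f : P → X → Bool) (K : (P → Bool) → ℝ) :
    ∑ F : P → X, K (fun p => f p (F p)) =
      ∑ H : P → Bool, (∏ p, ((univ.filter fun x => f p x = H p).card : ℝ)) * K H := by
  classical
  have h1 : ∀ F : P → X, K (fun p => f p (F p)) =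
      ∑ H : P → Bool, if (fun p => f p (F p)) = H then K H else 0 := by
    intro F
    rw [Finset.sum_ite_eq]
    simp
  rw [Finset.sum_congr rfl fun F _ => h1 F, Finset.sum_comm]
  refine Finset.sum_congr rfl fun H _ => ?_
  rw [← Finset.sum_filter, Finset.sum_const, nsmul_eq_mul]
  congr 1
  have h2 : (univ.filter fun F : P → X => (fun p => f p (F p)) = H) =
      Fintype.piFinset (fun p => univ.filter fun x => f p x = H p) := by
    ext F
    simp only [mem_filter, mem_univ, true_and, Fintype.mem_piFinset]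
    exact ⟨fun h p => congrFun h p, fun h => funext h⟩
  rw [h2, Fintype.card_piFinset]
  push_cast
  rfl

/-- The block of bits is all zero. -/
def allZ {g : ℕ} (x : Fin g → Bool) : Bool := decide (∀ i, x i = false)

theorem card_allZ (g : ℕ) (b0 h : Bool) :
    ((univ.filter fun x : Fin g → Bool => (b0 ^^ allZ x) = h).card : ℝ) =
      2 ^ g * wb (1 / 2 ^ g) b0 h := by
  classical
  have h1 : (univ.filter fun x : Fin g → Bool => allZ x = true) = {fun _ => false} := by
    ext x
    simp only [allZ, mem_filter, mem_univ, true_and, decide_eq_true_eq, mem_singleton]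
    exact ⟨fun h => funext h, fun h i => congrFun h i⟩
  have h2 : ((univ.filter fun x : Fin g → Bool => allZ x = true).card : ℝ) = 1 := by
    rw [h1]; simp
  have h3 : ((univ.filter fun x : Fin g → Bool => allZ x = false).card : ℝ) = 2 ^ g - 1 := by
    have h4 := Finset.card_filter_add_card_filter_not (s := (univ : Finset (Fin g → Bool)))
      (fun x => allZ x = true)
    simp only [Bool.not_eq_true] at h4
    have h5 : ((univ.filter fun x : Fin g → Bool => allZ x = true).card : ℝ) +
        ((univ.filter fun x : Fin g → Bool => allZ x = false).card : ℝ) = 2 ^ g := by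
      have h6 : (univ : Finset (Fin g → Bool)).card = 2 ^ g := by simp
      rw [h6] at h4
      exact_mod_cast h4
    linarith
  have hg : (2 : ℝ) ^ g ≠ 0 := by positivity
  by_cases hb : h = b0
  · subst hb
    have h4 : (univ.filter fun x : Fin g → Bool => (h ^^ allZ x) = h) =
        univ.filter fun x : Fin g → Bool => allZ x = false := by
      ext x
      simp only [mem_filter, mem_univ, true_and]
      cases h <;> cases allZ x <;> simp
    rw [h4, h3]
    unfold wb
    rw [if_pos rfl]
    field_simp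
  · have h4 : (univ.filter fun x : Fin g → Bool => (b0 ^^ allZ x) = h) =
        univ.filter fun x : Fin g → Bool => allZ x = true := by
      ext x
      simp only [mem_filter, mem_univ, true_and]
      revert hb
      cases h <;> cases b0 <;> cases allZ x <;> simp
    rw [h4, h2]
    unfold wb
    rw [if_neg hb]
    field_simp

/-- Flips with probability `2 ^ (-g)`. -/
theorem flips {T g : ℕ} (H₀ : Gr T) (K : Gr T → ℝ) :
    ∑ F : Pr T → Fin g → Bool, K (fun p => (H₀ p ^^ allZ (F p))) =
      (2 : ℝ) ^ (g * Fintype.card (Pr T)) * ∑ H : Gr T, wt (1 / 2 ^ g) H₀ H * K H := by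
  rw [push_prod (fun p x => (H₀ p ^^ allZ x)) K, Finset.mul_sum]
  refine Finset.sum_congr rfl fun H _ => ?_
  rw [Finset.prod_congr rfl fun p _ => card_allZ g (H₀ p) (H p), Finset.prod_mul_distrib,
    Finset.prod_const, Finset.card_univ, ← wt_eq, ← pow_mul, mul_assoc]

/-- The indices of the random bits: `l` bits for each class, `g` bits for each pair of samples, and
the random bits of the algorithm. -/
abbrev Ix (T l g : ℕ) : Type := (Fin T × Fin l) ⊕ ((Pr T × Fin g) ⊕ Fin T)

/-- The position of an index in the random string. -/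
def pos (T l g : ℕ) : Ix T l g → ℕ
  | Sum.inl x => x.1 * l + x.2
  | Sum.inr (Sum.inl x) => T * l + ((x.1.1.1 * T + x.1.1.2) * g + x.2)
  | Sum.inr (Sum.inr x) => T * l + (T * T * g + x)

theorem pair_lt {a b T : ℕ} (ha : a < T) (hb : b < T) : a * T + b < T * T := by
  have : (a + 1) * T ≤ T * T := Nat.mul_le_mul_right _ ha
  rw [Nat.add_mul] at this
  omega

theorem blk_lt {a c l n : ℕ} (ha : a < n) (hc : c < l) : a * l + c < n * l := by
  have : (a + 1) * l ≤ n * l := Nat.mul_le_mul_right _ ha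
  rw [Nat.add_mul] at this
  omega

theorem blk_inj {a a' c c' l : ℕ} (hc : c < l) (hc' : c' < l) (h : a * l + c = a' * l + c') :
    a = a' ∧ c = c' := by
  have h1 : c = c' := by
    have h2 : (a * l + c) % l = (a' * l + c') % l := by rw [h]
    rwa [Nat.add_comm, Nat.add_mul_mod_self_right, Nat.mod_eq_of_lt hc, Nat.add_comm,
      Nat.add_mul_mod_self_right, Nat.mod_eq_of_lt hc'] at h2
  subst h1
  exact ⟨Nat.eq_of_mul_eq_mul_right (by omega) (Nat.add_right_cancel h), rfl⟩

theorem pos_lt {T l g : ℕ} (x : Ix T l g) : pos T l g x < T * l + T * T * g + T := by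
  rcases x with ⟨i, j⟩ | ⟨⟨⟨⟨a, b⟩, hab⟩, u⟩⟩ | i
  · have := blk_lt i.2 j.2
    simp only [pos]
    omega
  · have := blk_lt (pair_lt a.2 b.2) u.2
    simp only [pos]
    omega
  · have := i.2
    simp only [pos]
    omega

theorem pos_inj (T l g : ℕ) : Function.Injective (pos T l g) := by
  rintro (⟨i, j⟩ | ⟨⟨⟨⟨a, b⟩, hab⟩, u⟩⟩ | i) (⟨i', j'⟩ | ⟨⟨⟨⟨a', b'⟩, hab'⟩, u'⟩⟩ | i') h
  · simp only [pos] at h
    obtain ⟨h1, h2⟩ := blk_inj j.2 j'.2 h
    rw [Fin.ext h1, Fin.ext h2]
  · simp only [pos] at h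
    have := blk_lt i.2 j.2
    omega
  · simp only [pos] at h
    have := blk_lt i.2 j.2
    omega
  · simp only [pos] at h
    have := blk_lt i'.2 j'.2
    omega
  · simp only [pos] at h
    obtain ⟨h1, h2⟩ := blk_inj u.2 u'.2 (Nat.add_left_cancel h)
    obtain ⟨h3, h4⟩ := blk_inj b.2 b'.2 h1
    obtain rfl := Fin.ext h3
    obtain rfl := Fin.ext h4
    rw [Fin.ext h2]
  · simp only [pos] at h
    have := blk_lt (pair_lt a.2 b.2) u.2
    omega
  · simp only [pos] at h
    have := blk_lt i'.2 j'.2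
    omega
  · simp only [pos] at h
    have := blk_lt (pair_lt a'.2 b'.2) u'.2
    omega
  · simp only [pos] at h
    have h1 : (i : ℕ) = i' := by omega
    rw [Fin.ext h1]

/-- Averages over random strings and over the used bits. -/
theorem used_bits {T l g R : ℕ} (hR : T * l + T * T * g + T ≤ R) (F : (Ix T l g → Bool) → ℝ) :
    (∑ ρ : Fin R → Bool, F (fun x => ρ ⟨pos T l g x, (pos_lt x).trans_le hR⟩)) / 2 ^ R =
      (∑ h : Ix T l g → Bool, F h) / 2 ^ Fintype.card (Ix T l g) := by
  have h := marginal (fun x : Ix T l g => (⟨pos T l g x, (pos_lt x).trans_le hR⟩ : Fin R))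
    (fun x y hxy => pos_inj T l g (Fin.mk.inj hxy)) (fun _ _ => (1 / 2 : ℝ))
    (fun _ => by norm_num) F
  simp only [Finset.prod_const, Finset.card_univ, Fintype.card_fin, ← Finset.mul_sum] at h
  rw [one_div, inv_pow, inv_pow] at h
  rw [div_eq_inv_mul, div_eq_inv_mul]
  exact h

/-- Splitting the used bits. -/
theorem split_bits {T l g : ℕ} (F : (Ix T l g → Bool) → ℝ) :
    ∑ h : Ix T l g → Bool, F h =
      ∑ C : Fin T → Fin l → Bool, ∑ Z : Pr T → Fin g → Bool, ∑ r : Fin T → Bool,
        F (Sum.elim (fun x => C x.1 x.2) (Sum.elim (fun x => Z x.1 x.2) r)) := by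
  let e : (Ix T l g → Bool) ≃ (Fin T → Fin l → Bool) × ((Pr T → Fin g → Bool) × (Fin T → Bool)) :=
    (Equiv.sumArrowEquivProdArrow _ _ _).trans
      (Equiv.prodCongr (Equiv.curry _ _ _)
        ((Equiv.sumArrowEquivProdArrow _ _ _).trans
          (Equiv.prodCongr (Equiv.curry _ _ _) (Equiv.refl _))))
  rw [← Equiv.sum_comp e.symm F, Fintype.sum_prod_type]
  refine Finset.sum_congr rfl fun C _ => ?_
  rw [Fintype.sum_prod_type]
  refine Finset.sum_congr rfl fun Z _ => Finset.sum_congr rfl fun r _ => ?_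
  rfl

/-- The classes from their bits. -/
theorem sum_binary {T l : ℕ} (v : (Fin l → Bool) ≃ Fin (2 ^ l)) (G : (Fin T → Fin (2 ^ l)) → ℝ) :
    ∑ C : Fin T → Fin l → Bool, G (fun i => v (C i)) = ∑ c : Fin T → Fin (2 ^ l), G c :=
  Fintype.sum_equiv (Equiv.arrowCongr (Equiv.refl _) v) _ _ fun _ => rfl

/-- **The idealised experiment from random bits.** -/
theorem sim_rand (A : Alg) {e s l g R : ℕ} (hs : s = 2 ^ g)
    (hR : A.bd e s * l + A.bd e s * A.bd e s * g + A.bd e s ≤ R)
    (v : (Fin l → Bool) ≃ Fin (2 ^ l)) (J : Fin (2 ^ l) → Fin (2 ^ l) → Bool) (b : Bool) :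
    ((univ.filter fun ρ : Fin R → Bool =>
      A.outG e s
        (fun p => (bs J (fun i => v fun j => ρ ⟨pos (A.bd e s) l g (Sum.inl (i, j)),
            (pos_lt _).trans_le hR⟩) p ^^
          allZ fun j => ρ ⟨pos (A.bd e s) l g (Sum.inr (Sum.inl (p, j))), (pos_lt _).trans_le hR⟩))
        (fun i => ρ ⟨pos (A.bd e s) l g (Sum.inr (Sum.inr i)), (pos_lt _).trans_le hR⟩) = b).card :
        ℝ) / 2 ^ R = A.sim e s J b := by
  classical
  have hσ : (1 / (s : ℝ)) = 1 / 2 ^ g := by
    rw [hs]; push_cast; rfl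
  rw [← Finset.sum_boole]
  have h1 := used_bits hR (fun h : Ix (A.bd e s) l g → Bool =>
    if A.outG e s
        (fun p => (bs J (fun i => v fun j => h (Sum.inl (i, j))) p ^^
          allZ fun j => h (Sum.inr (Sum.inl (p, j)))))
        (fun i => h (Sum.inr (Sum.inr i))) = b then (1 : ℝ) else 0)
  rw [h1, split_bits]
  simp only [Sum.elim_inl, Sum.elim_inr]
  have h2 : ∀ C : Fin (A.bd e s) → Fin l → Bool,
      (∑ Z : Pr (A.bd e s) → Fin g → Bool, ∑ r : Fin (A.bd e s) → Bool,
      if A.outG e s (fun p => (bs J (fun i => v (C i)) p ^^ allZ (Z p))) r = b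
        then (1 : ℝ) else 0) =
      2 ^ (g * Fintype.card (Pr (A.bd e s))) *
        ∑ r : Fin (A.bd e s) → Bool, A.phi e s b r (bs J fun i => v (C i)) := by
    intro C
    rw [Finset.sum_comm, Finset.mul_sum]
    refine Finset.sum_congr rfl fun r _ => ?_
    rw [flips (bs J fun i => v (C i)) (fun H => if A.outG e s H r = b then (1 : ℝ) else 0)]
    unfold Alg.phi
    rw [hσ]
  refine (congrArg (fun z : ℝ => z / 2 ^ Fintype.card (Ix (A.bd e s) l g))
    (Finset.sum_congr rfl fun C _ => h2 C)).trans ?_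
  rw [← Finset.mul_sum,
    sum_binary v (fun c => ∑ r : Fin (A.bd e s) → Bool, A.phi e s b r (bs J c))]
  unfold Alg.sim
  have h3 : Fintype.card (Ix (A.bd e s) l g) =
      A.bd e s * l + (Fintype.card (Pr (A.bd e s)) * g + A.bd e s) := by
    simp [Ix]
  rw [h3]
  push_cast
  rw [pow_add, pow_add, ← pow_mul]
  have e1 : (2 : ℝ) ^ (g * Fintype.card (Pr (A.bd e s))) =
    2 ^ (Fintype.card (Pr (A.bd e s)) * g) := by rw [mul_comm]
  have e2 : (2 : ℝ) ^ (l * A.bd e s) = 2 ^ (A.bd e s * l) := by rw [mul_comm]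
  rw [e1, e2]
  field_simp

end Pool.Agent.Y645.BT
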