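import Pool.Agent.Y645.BT.Params
import Pool.Agent.Y645.BT.Rand

/-!
# The experiment on natural numbers and lists
-/

set_option autoImplicit false

namespace Pool.Agent.Y645.BT

open Finset Pool.Agent.NPC Pool.Agent.NPC.H634R2

/-- The class of the `i`-th sample. -/
def clsN (l : ℕ) (r : List Bool) (i : ℕ) : ℕ :=
  valB ((List.range l).map fun j => r.getD (i * l + j) false)

/-- The noise of the pair `(a, b)`. -/
def flipN (T l g : ℕ) (r : List Bool) (a b : ℕ) : Bool :=
  (List.range g).all fun u => !(r.getD (T * l + ((a * T + b) * g + u)) false)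

/-- The random bits of the algorithm. -/
def coinsN (T l g : ℕ) (r : List Bool) : List Bool :=
  (List.range T).map fun i => r.getD (T * l + (T * T * g + i)) false

/-- Adjacency of two samples, for `i < j`. -/
def hN (J : ℕ → ℕ → Bool) (T l g : ℕ) (r : List Bool) (i j : ℕ) : Bool :=
  ((decide (clsN l r i = clsN l r j) || J (clsN l r i) (clsN l r j)) ^^ flipN T l g r i j)

/-- The answers to the queries. -/
def orcN (J : ℕ → ℕ → Bool) (T l g : ℕ) (r : List Bool) (i j : ℕ) : Bool :=
  if i < T ∧ j < T then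
    (if i < j then hN J T l g r i j else if j < i then hN J T l g r j i else false)
  else false

/-- The bit string of a number below `2 ^ l`. -/
theorem valB_inj : ∀ {x y : List Bool}, x.length = y.length → valB x = valB y → x = y
  | [], [], _, _ => rfl
  | [], _ :: _, h, _ => by simp at h
  | _ :: _, [], h, _ => by simp at h
  | a :: x, b :: y, h, h' => by
    have h1 : x.length = y.length := by simpa using h
    rw [valB_cons, valB_cons] at h'
    have h2 : a = b := by
      cases a <;> cases b <;> simp at h' ⊢ <;> omega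
    subst h2
    have h3 : valB x = valB y := by omega
    rw [valB_inj h1 h3]

/-- Bit vectors and numbers. -/
noncomputable def vB (l : ℕ) : (Fin l → Bool) ≃ Fin (2 ^ l) :=
  Equiv.ofBijective
    (fun x => ⟨valB (List.ofFn x), by simpa using valB_lt (List.ofFn x)⟩) (by
      rw [Fintype.bijective_iff_injective_and_card]
      refine ⟨fun x y h => ?_, by simp⟩
      exact List.ofFn_injective (valB_inj (by simp) (Fin.mk.inj h)))

theorem vB_val (l : ℕ) (x : Fin l → Bool) : ((vB l x : Fin (2 ^ l)) : ℕ) = valB (List.ofFn x) := rfl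

section

variable {R : ℕ}

theorem getD_ofFn (ρ : Fin R → Bool) {n : ℕ} (h : n < R) :
    (List.ofFn ρ).getD n false = ρ ⟨n, h⟩ := by
  rw [List.getD_eq_getElem _ _ (by simpa using h), List.getElem_ofFn]

theorem clsN_eq (ρ : Fin R → Bool) {l i : ℕ} (h : ∀ j : Fin l, i * l + j < R) :
    clsN l (List.ofFn ρ) i = valB (List.ofFn fun j : Fin l => ρ ⟨i * l + j, h j⟩) := by
  unfold clsN
  congr 1
  apply List.ext_getElem
  · simp
  · intro n h1 h2
    have hn : n < l := by simpa using h2
    rw [List.getElem_map, List.getElem_range, List.getElem_ofFn, getD_ofFn ρ (h ⟨n, hn⟩)]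

theorem coinsN_eq (ρ : Fin R → Bool) {T l g : ℕ}
    (h : ∀ i : Fin T, T * l + (T * T * g + i) < R) :
    coinsN T l g (List.ofFn ρ) =
      List.ofFn fun i : Fin T => ρ ⟨T * l + (T * T * g + i), h i⟩ := by
  unfold coinsN
  apply List.ext_getElem
  · simp
  · intro n h1 h2
    have hn : n < T := by simpa using h2
    rw [List.getElem_map, List.getElem_range, List.getElem_ofFn, getD_ofFn ρ (h ⟨n, hn⟩)]

theorem flipN_eq (ρ : Fin R → Bool) {T l g a b : ℕ}
    (h : ∀ u : Fin g, T * l + ((a * T + b) * g + u) < R) :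
    flipN T l g (List.ofFn ρ) a b =
      allZ fun u : Fin g => ρ ⟨T * l + ((a * T + b) * g + u), h u⟩ := by
  unfold flipN allZ
  rw [Bool.eq_iff_iff]
  simp only [List.all_eq_true, List.mem_range, Bool.not_eq_true', decide_eq_true_eq]
  constructor
  · intro h1 u
    have h2 := h1 u u.2
    rwa [getD_ofFn ρ (h u)] at h2
  · intro h1 u hu
    rw [getD_ofFn ρ (h ⟨u, hu⟩)]
    exact h1 ⟨u, hu⟩

end

/-- **The experiment from a random string.** -/
theorem run_rand (A : Alg) {e s l g R : ℕ} (hs : s = 2 ^ g)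
    (hR : A.bd e s * l + A.bd e s * A.bd e s * g + A.bd e s ≤ R) (J : ℕ → ℕ → Bool) (b : Bool) :
    ((univ.filter fun ρ : Fin R → Bool =>
      A.run e s (coinsN (A.bd e s) l g (List.ofFn ρ)) (orcN J (A.bd e s) l g (List.ofFn ρ))
        (A.bd e s) [] = b).card : ℝ) / 2 ^ R =
      A.sim e s (fun c d : Fin (2 ^ l) => J c d) b := by
  rw [← sim_rand A hs hR (vB l) (fun c d : Fin (2 ^ l) => J c d) b]
  congr 3
  ext ρ
  simp only [mem_filter, mem_univ, true_and]
  unfold Alg.outG
  have hlt : ∀ x : Ix (A.bd e s) l g, pos (A.bd e s) l g x < R := fun x => (pos_lt x).trans_le hR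
  have h1 : coinsN (A.bd e s) l g (List.ofFn ρ) =
      List.ofFn fun i : Fin (A.bd e s) => ρ ⟨pos (A.bd e s) l g (Sum.inr (Sum.inr i)),
        (pos_lt _).trans_le hR⟩ := coinsN_eq ρ fun i => hlt (Sum.inr (Sum.inr i))
  have hcls : ∀ i : Fin (A.bd e s), clsN l (List.ofFn ρ) i =
      ((vB l fun j => ρ ⟨pos (A.bd e s) l g (Sum.inl (i, j)), (pos_lt _).trans_le hR⟩ :
        Fin (2 ^ l)) : ℕ) := fun i => clsN_eq ρ fun j => hlt (Sum.inl (i, j))
  have hpair : ∀ i j : Fin (A.bd e s), ∀ hij : i < j, hN J (A.bd e s) l g (List.ofFn ρ) i j =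
      (bs (fun c d : Fin (2 ^ l) => J c d) (fun i => vB l fun j =>
        ρ ⟨pos (A.bd e s) l g (Sum.inl (i, j)), (pos_lt _).trans_le hR⟩) ⟨(i, j), hij⟩ ^^
        allZ fun u => ρ ⟨pos (A.bd e s) l g (Sum.inr (Sum.inl (⟨(i, j), hij⟩, u))),
          (pos_lt _).trans_le hR⟩) := by
    intro i j hij
    unfold hN bs WJ
    rw [flipN_eq ρ fun u => hlt (Sum.inr (Sum.inl (⟨(i, j), hij⟩, u))), hcls i, hcls j]
    congr 2
    exact decide_eq_decide.2 Fin.ext_iff.symm
  have h2 : orcN J (A.bd e s) l g (List.ofFn ρ) =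
      orcG (fun p => (bs (fun c d : Fin (2 ^ l) => J c d) (fun i => vB l fun j =>
        ρ ⟨pos (A.bd e s) l g (Sum.inl (i, j)), (pos_lt _).trans_le hR⟩) p ^^
          allZ fun j => ρ ⟨pos (A.bd e s) l g (Sum.inr (Sum.inl (p, j))),
            (pos_lt _).trans_le hR⟩)) := by
    funext i j
    unfold orcN orcG
    by_cases h : i < A.bd e s ∧ j < A.bd e s
    · rw [if_pos h, dif_pos h]
      unfold adj
      by_cases hij : i < j
      · have h3 : (⟨i, h.1⟩ : Fin (A.bd e s)) < ⟨j, h.2⟩ := hij
        rw [if_pos hij, dif_pos h3]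
        exact hpair ⟨i, h.1⟩ ⟨j, h.2⟩ h3
      · have h3 : ¬ (⟨i, h.1⟩ : Fin (A.bd e s)) < ⟨j, h.2⟩ := hij
        rw [if_neg hij, dif_neg h3]
        by_cases hji : j < i
        · have h4 : (⟨j, h.2⟩ : Fin (A.bd e s)) < ⟨i, h.1⟩ := hji
          rw [if_pos hji, dif_pos h4]
          exact hpair ⟨j, h.2⟩ ⟨i, h.1⟩ h4
        · have h4 : ¬ (⟨j, h.2⟩ : Fin (A.bd e s)) < ⟨i, h.1⟩ := hji
          rw [if_neg hji, dif_neg h4]
    · rw [if_neg h, dif_neg h]
  rw [h1, h2]

/-- The number of bits of a class. -/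
def pl (q m : ℕ) : ℕ := (16 * q * (m + 1) ^ 2).size + 1

/-- The number of bits for the noise of a pair. -/
def pg (q m : ℕ) : ℕ := 2 * pl q m + 1

theorem two_pM (q m : ℕ) : 2 * pM q m = 2 ^ pl q m := by
  unfold pM pl
  rw [pow_succ]
  ring

theorem ps_eq (q m : ℕ) : ps q m = 2 ^ pg q m := by
  unfold ps pg
  rw [two_pM, ← pow_mul, pow_succ]
  ring_nf

/-- The bound for the algorithm. -/
def pT (k q m : ℕ) : ℕ := (pe q m + ps q m) ^ k

/-- Adjacency in the instance, on numbers. -/
def JN (p q : ℕ) (φ : List Cl3) (u v : ℕ) : Bool :=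
  Jn (hE φ) (dgE φ) (3 * φ.length) (pM q φ.length - φ.length) (pM q φ.length - 2 * φ.length)
    (pD p q φ.length) u v

/-- The verdict, for the formula `φ` and the random string `r`. -/
def simN (A : Alg) (p q : ℕ) (φ : List Cl3) (r : List Bool) : Bool :=
  A.run (pe q φ.length) (ps q φ.length)
    (coinsN (pT A.k q φ.length) (pl q φ.length) (pg q φ.length) r)
    (orcN (JN p q φ) (pT A.k q φ.length) (pl q φ.length) (pg q φ.length) r)
    (pT A.k q φ.length) []

/-- The number of random bits. -/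
def pR (k q m : ℕ) : ℕ := pT k q m * pl q m + pT k q m * pT k q m * pg q m + pT k q m

open Classical in
/-- The verdict on random strings is mostly right. -/
theorem simN_right (A : Alg) {p q : ℕ} (hp : 0 < p) (hq : 8 * p < q)
    (hA : A.Tests ((p : ℝ) / q)) (φ : List Cl3) {R : ℕ} (hR : pR A.k q φ.length ≤ R) :
    2 * 2 ^ R ≤ 3 * (univ.filter fun ρ : Fin R → Bool =>
      (simN A p q φ (List.ofFn ρ) = true ↔ SAT3 φ)).card := by
  obtain ⟨h1, h2⟩ := sim_sat A hp hq hA φ
  have key : ∀ b, ((univ.filter fun ρ : Fin R → Bool => simN A p q φ (List.ofFn ρ) = b).card : ℝ) /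
      2 ^ R = A.sim (pe q φ.length) (ps q φ.length) (JI p q φ) b := by
    intro b
    have h3 := run_rand A (e := pe q φ.length) (s := ps q φ.length) (l := pl q φ.length)
      (g := pg q φ.length) (R := R) (ps_eq q φ.length) hR (JN p q φ) b
    refine h3.trans ?_
    have h4 : ∀ N N' : ℕ, N = N' → A.sim (pe q φ.length) (ps q φ.length)
        (fun c d : Fin N => JN p q φ c d) b =
        A.sim (pe q φ.length) (ps q φ.length) (fun c d : Fin N' => JN p q φ c d) b := by
      rintro N _ rfl
      rfl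
    exact h4 _ _ (two_pM q φ.length).symm
  have hsplit : ∀ b : Bool, (univ.filter fun ρ : Fin R → Bool =>
      simN A p q φ (List.ofFn ρ) = b).card + (univ.filter fun ρ : Fin R → Bool =>
      ¬ simN A p q φ (List.ofFn ρ) = b).card = 2 ^ R := by
    intro b
    rw [Finset.card_filter_add_card_filter_not]
    simp
  have h2R : (0 : ℝ) < 2 ^ R := by positivity
  by_cases hs : SAT3 φ
  · have h3 := h1 hs
    rw [← key false, div_le_iff₀ h2R] at h3
    have h4 : (univ.filter fun ρ : Fin R → Bool => (simN A p q φ (List.ofFn ρ) = true ↔ SAT3 φ)) =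
        univ.filter fun ρ : Fin R → Bool => ¬ simN A p q φ (List.ofFn ρ) = false := by
      ext ρ
      simp [hs]
    rw [h4]
    have h5 := hsplit false
    have h6 : 3 * (univ.filter fun ρ : Fin R → Bool => simN A p q φ (List.ofFn ρ) = false).card ≤
        2 ^ R := by
      have : (3 : ℝ) * (univ.filter fun ρ : Fin R → Bool =>
        simN A p q φ (List.ofFn ρ) = false).card ≤ 2 ^ R := by linarith
      exact_mod_cast this
    omega
  · have h3 := h2 hs
    rw [← key true, div_le_iff₀ h2R] at h3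
    have h4 : (univ.filter fun ρ : Fin R → Bool => (simN A p q φ (List.ofFn ρ) = true ↔ SAT3 φ)) =
        univ.filter fun ρ : Fin R → Bool => ¬ simN A p q φ (List.ofFn ρ) = true := by
      ext ρ
      simp [hs]
    rw [h4]
    have h5 := hsplit true
    have h6 : 3 * (univ.filter fun ρ : Fin R → Bool => simN A p q φ (List.ofFn ρ) = true).card ≤
        2 ^ R := by
      have : (3 : ℝ) * (univ.filter fun ρ : Fin R → Bool =>
        simN A p q φ (List.ofFn ρ) = true).card ≤ 2 ^ R := by linarith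
      exact_mod_cast this
    omega

end Pool.Agent.Y645.BT
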