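import Pool.Agent.Y645.BT.Inst

/-!
# The minimum bisection of the instances
-/

set_option autoImplicit false

namespace Pool.Agent.Y645.BT

open Finset

variable {N : ℕ}

theorem cutJ_compl {J : Fin N → Fin N → Bool} (hJ : ∀ c d, J c d = J d c) (T : Finset (Fin N)) :
    cutJ J Tᶜ = cutJ J T := by
  unfold cutJ
  rw [compl_compl]
  refine Finset.card_bij (fun p _ => (p.2, p.1)) ?_ ?_ ?_
  · intro p hp
    rw [mem_filter, mem_product] at hp ⊢
    exact ⟨⟨hp.1.2, hp.1.1⟩, by rw [← hJ]; exact hp.2⟩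
  · intro p _ q _ h
    rw [Prod.mk.injEq] at h
    exact Prod.ext h.2 h.1
  · intro p hp
    refine ⟨(p.2, p.1), ?_, rfl⟩
    rw [mem_filter, mem_product] at hp ⊢
    exact ⟨⟨hp.1.2, hp.1.1⟩, by rw [← hJ]; exact hp.2⟩

theorem sv_compl (T : Finset (Fin N)) (c : Fin N) : sv Tᶜ c = 1 - sv T c := by
  unfold sv
  by_cases h : c ∈ T <;> simp [h]

section

variable {n0 a b k M : ℕ} {E : ℕ → ℕ → Bool} {dg : ℕ → ℕ} {D : ℕ}

/-- The number of adjacent ordered pairs in `S`. -/
theorem pairs_le {n0 : ℕ} (F : Fin n0 → Fin n0 → Bool) (hF : ∀ u v, F u v = F v u)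
    (hF0 : ∀ u, F u u = false) {k : ℕ} (g : Fin n0 → ℤ) (hg : ∀ u, g u = 0 ∨ g u = 1)
    (hk : ∑ u, g u = k) (hno : ¬ ∃ S : Finset (Fin n0), S.card = k ∧
      ∀ u ∈ S, ∀ v ∈ S, u ≠ v → F u v = true) :
    ∑ u, ∑ v, ii (F u v) * (g u * g v) ≤ k * (k - 1) - 2 := by
  classical
  set S : Finset (Fin n0) := univ.filter fun u => g u = 1 with hS
  have hgS : ∀ u, g u = if u ∈ S then 1 else 0 := by
    intro u
    by_cases h : g u = 1
    · simp [hS, h]
    · rcases hg u with h2 | h2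
      · simp [hS, h2]
      · exact absurd h2 h
  have hcard : S.card = k := by
    have h1 : ∑ u, g u = S.card := by
      rw [Finset.sum_congr rfl fun u _ => hgS u]
      simp
    rw [h1] at hk
    exact_mod_cast hk
  push Not at hno
  obtain ⟨u, hu, v, hv, huv, hne⟩ := hno S hcard
  replace hne : F u v = false := by simpa using hne
  have h2 : ∑ u, ∑ v, ii (F u v) * (g u * g v) =
      (((S ×ˢ S).filter fun p => F p.1 p.2 = true).card : ℤ) := by
    rw [← Finset.sum_boole, Finset.sum_product, ← Finset.sum_subset (subset_univ S)]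
    · refine Finset.sum_congr rfl fun x hx => ?_
      rw [← Finset.sum_subset (subset_univ S)]
      · refine Finset.sum_congr rfl fun y hy => ?_
        rw [hgS x, hgS y, if_pos hx, if_pos hy]
        simp [ii]
      · intro y _ hy
        rw [hgS y, if_neg hy]
        ring
    · intro x _ hx
      rw [hgS x, if_neg hx]
      simp
  rw [h2]
  have h3 : ((S ×ˢ S).filter fun p => F p.1 p.2 = true) ⊆
      (S.offDiag.erase (u, v)).erase (v, u) := by
    intro p hp
    rw [mem_filter, mem_product] at hp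
    rw [mem_erase, mem_erase, mem_offDiag]
    refine ⟨?_, ?_, hp.1.1, hp.1.2, ?_⟩
    · rintro rfl
      rw [hF] at hp
      rw [hne] at hp
      exact absurd hp.2 (by simp)
    · rintro rfl
      rw [hne] at hp
      exact absurd hp.2 (by simp)
    · intro h
      have h5 := hp.2
      rw [h, hF0] at h5
      exact absurd h5 (by simp)
  have h4 := Finset.card_le_card h3
  have hm1 : (u, v) ∈ S.offDiag := mem_offDiag.2 ⟨hu, hv, huv⟩
  have hm2 : (v, u) ∈ S.offDiag.erase (u, v) :=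
    mem_erase.2 ⟨fun h => huv (Prod.mk.inj h).2, mem_offDiag.2 ⟨hv, hu, huv.symm⟩⟩
  rw [card_erase_of_mem hm2, card_erase_of_mem hm1, offDiag_card, hcard] at h4
  have h6 : 0 < (S.offDiag.erase (u, v)).card := Finset.card_pos.2 ⟨_, hm2⟩
  rw [card_erase_of_mem hm1, offDiag_card, hcard] at h6
  have h7 : k ≤ k * k := Nat.le_mul_self k
  have h8 : ((k * k - k : ℕ) : ℤ) = (k : ℤ) * (k - 1) := by
    rw [Nat.cast_sub h7]; push_cast; ring
  have h9 : (((S ×ˢ S).filter fun p => F p.1 p.2 = true).card : ℤ) ≤ ((k * k - k : ℕ) : ℤ) - 2 := by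
    omega
  rw [h8] at h9
  exact h9

/-- The intended bisections. -/
theorem inst_yes (hdg : ∀ u : Fin n0, (dg u : ℤ) = ∑ v : Fin n0, ii (E u v))
    (hE0 : ∀ u, E u u = false) (ha : 0 < a) (hb : 0 < b) (hn : n0 ≤ b) (hD : D ≤ a * b)
    (haM : a + k = M) (hN : N = n0 + (a + b)) (hNM : N = 2 * M)
    (hS : ∃ S : Finset (Fin n0), S.card = k ∧ ∀ u ∈ S, ∀ v ∈ S, u ≠ v → E u v = true) :
    ∃ T : Finset (Fin N), 2 * T.card = N ∧
      (cutJ (JF E dg n0 a b D N) T : ℤ) = D + n0 * k - k * (k - 1) := by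
  classical
  obtain ⟨S, hSk, hcl⟩ := hS
  set P : Fin n0 ⊕ (Fin a ⊕ Fin b) → Prop := fun x =>
    match x with
    | Sum.inl u => u ∈ S
    | Sum.inr (Sum.inl _) => True
    | Sum.inr (Sum.inr _) => False with hP
  set T : Finset (Fin N) := univ.filter fun c => P ((ve hN).symm c) with hT
  have s1 : ∀ u, sv T (ve hN (Sum.inl u)) = if u ∈ S then 1 else 0 := by
    intro u
    unfold sv
    simp only [hT, mem_filter, mem_univ, true_and, Equiv.symm_apply_apply]
    rfl
  have s2 : ∀ i, sv T (ve hN (Sum.inr (Sum.inl i))) = 1 := by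
    intro i
    unfold sv
    simp [hT, hP]
  have s3 : ∀ j, sv T (ve hN (Sum.inr (Sum.inr j))) = 0 := by
    intro j
    unfold sv
    simp [hT, hP]
  refine ⟨T, ?_, ?_⟩
  · have h1 : (T.card : ℤ) = k + a := by
      rw [← sum_sv, sum_ve hN]
      simp only [s1, s2, s3]
      simp [hSk]
    have h2 : T.card = M := by omega
    omega
  · rw [cutJ_eq E dg hN D T]
    simp only [s1, s2, s3]
    rw [tot_intended _ _ hdg ha hb hn hD]
    have h1 : ∑ u : Fin n0, (if u ∈ S then (1 : ℤ) else 0) = k := by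
      simp [hSk]
    rw [h1]
    have h2 : ∑ u : Fin n0, ∑ v : Fin n0, ii (E u v) * ((if u ∈ S then (1 : ℤ) else 0) *
        (if v ∈ S then 1 else 0)) = k * (k - 1) := by
      have h3 : ∀ u v : Fin n0, ii (E u v) * ((if u ∈ S then (1 : ℤ) else 0) *
          (if v ∈ S then 1 else 0)) = (if u ∈ S then (1 : ℤ) else 0) *
          (if v ∈ S then 1 else 0) - (if u = v then (if u ∈ S then 1 else 0) else 0) := by
        intro u v
        by_cases h4 : u = v
        · subst h4
          by_cases h5 : u ∈ S <;> simp [h5, hE0, ii]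
        · by_cases h5 : u ∈ S <;> by_cases h6 : v ∈ S <;>
            simp [h4, h5, h6, ii]
          exact hcl u h5 v h6 h4
      simp only [h3, Finset.sum_sub_distrib, Finset.sum_ite_eq, mem_univ, if_true]
      rw [← Finset.sum_mul_sum, h1]
      ring
    rw [h2]

/-- No bisection is smaller. -/
theorem inst_no (hE : ∀ u v, E u v = E v u) (hE0 : ∀ u, E u u = false)
    (hdg : ∀ u : Fin n0, (dg u : ℤ) = ∑ v : Fin n0, ii (E u v))
    (ha : 0 < a) (hb : 0 < b) (hba : b ≤ a) (hn : n0 ≤ b) (hD : D ≤ a * b)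
    (hkn : k ≤ n0) (haM : a + k = M) (hN : N = n0 + (a + b)) (hNM : N = 2 * M)
    (hg : 4 * (n0 * k + 2) + (a + b) + 2 * n0 + 4 * (D / b + 1) ≤ 4 * b)
    (hS : ¬ ∃ S : Finset (Fin n0), S.card = k ∧ ∀ u ∈ S, ∀ v ∈ S, u ≠ v → E u v = true)
    (T : Finset (Fin N)) (hT : 2 * T.card = N) :
    (D : ℤ) + n0 * k - k * (k - 1) + 2 ≤ cutJ (JF E dg n0 a b D N) T := by
  have hJ : ∀ c d : Fin N, JF E dg n0 a b D N c d = JF E dg n0 a b D N d c := fun c d =>
    Jn_comm hE dg n0 a b D c d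
  -- the case of few vertices on the wrong side
  have main : ∀ T : Finset (Fin N), 2 * T.card = N →
      2 * ((∑ i, (1 - sv T (ve hN (Sum.inr (Sum.inl i))))) +
        ∑ j, sv T (ve hN (Sum.inr (Sum.inr j)))) ≤ a + b →
      (D : ℤ) + n0 * k - k * (k - 1) + 2 ≤ cutJ (JF E dg n0 a b D N) T := by
    intro T hT hxy
    rw [cutJ_eq E dg hN D T]
    have hγ : ∀ u, sv T (ve hN (Sum.inl u)) = 0 ∨ sv T (ve hN (Sum.inl u)) = 1 :=
      fun u => sv_bit T _
    have hα : ∀ i, sv T (ve hN (Sum.inr (Sum.inl i))) = 0 ∨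
        sv T (ve hN (Sum.inr (Sum.inl i))) = 1 := fun u => sv_bit T _
    have hβ : ∀ j, sv T (ve hN (Sum.inr (Sum.inr j))) = 0 ∨
        sv T (ve hN (Sum.inr (Sum.inr j))) = 1 := fun u => sv_bit T _
    have hcard : (∑ u, sv T (ve hN (Sum.inl u))) + ((∑ i, sv T (ve hN (Sum.inr (Sum.inl i)))) +
        ∑ j, sv T (ve hN (Sum.inr (Sum.inr j)))) = M := by
      rw [← sum_ve hN, sum_sv]
      have : T.card = M := by omega
      exact_mod_cast this
    have hlow := tot_lower (fun u v : Fin n0 => E u v) (fun u => dg u) ha hb hba hD _ _ _ hγ hα hβ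
    set x : ℤ := ∑ i, (1 - sv T (ve hN (Sum.inr (Sum.inl i)))) with hx
    set y : ℤ := ∑ j, sv T (ve hN (Sum.inr (Sum.inr j))) with hy
    have hx0 : 0 ≤ x := Finset.sum_nonneg fun i _ => (bit_bounds hα i).2
    have hy0 : 0 ≤ y := Finset.sum_nonneg fun i _ => (bit_bounds hβ i).1
    have hax : ∑ i, sv T (ve hN (Sum.inr (Sum.inl i))) = a - x := by
      rw [hx, Finset.sum_sub_distrib]
      simp
    have hγ0 : 0 ≤ ∑ u, sv T (ve hN (Sum.inl u)) :=
      Finset.sum_nonneg fun i _ => (bit_bounds hγ i).1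
    have hγ1 : ∑ u, sv T (ve hN (Sum.inl u)) ≤ n0 := by
      have : ∑ u, sv T (ve hN (Sum.inl u)) ≤ ∑ _u : Fin n0, (1 : ℤ) :=
        Finset.sum_le_sum fun u _ => by have := (bit_bounds hγ u).2; linarith
      simpa using this
    rw [hax] at hcard
    have haM' : (a : ℤ) + k = M := by exact_mod_cast haM
    have hkn' : (k : ℤ) ≤ n0 := by exact_mod_cast hkn
    have hba' : (b : ℤ) ≤ a := by exact_mod_cast hba
    have hg' : 4 * ((n0 : ℤ) * k + 2) + (a + b) + 2 * n0 + 4 * ((D / b + 1 : ℕ) : ℤ) ≤ 4 * b := by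
      exact_mod_cast hg
    have hk0 : (0 : ℤ) ≤ k := by positivity
    by_cases hxy0 : x + y = 0
    · have hx' : x = 0 := by linarith
      have hy' : y = 0 := by linarith
      have hall : ∀ i, sv T (ve hN (Sum.inr (Sum.inl i))) = 1 := by
        intro i
        have h1 := (Finset.sum_eq_zero_iff_of_nonneg
          (fun i _ => (bit_bounds hα i).2)).1 (hx ▸ hx') i (mem_univ _)
        linarith
      have hbll : ∀ j, sv T (ve hN (Sum.inr (Sum.inr j))) = 0 := by
        intro j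
        exact (Finset.sum_eq_zero_iff_of_nonneg
          (fun i _ => (bit_bounds hβ i).1)).1 (hy ▸ hy') j (mem_univ _)
      have hγk : ∑ u, sv T (ve hN (Sum.inl u)) = k := by linarith
      simp only [hall, hbll]
      rw [tot_intended _ _ hdg ha hb hn hD, hγk]
      have := pairs_le (fun u v : Fin n0 => E u v) (fun u v => hE u v) (fun u => hE0 u) _ hγ hγk hS
      linarith
    · have hxy1 : 1 ≤ x + y := by omega
      have e1 : (n0 : ℤ) * k + 2 ≤ a - x - ((D / b + 1 : ℕ) : ℤ) := by linarith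
      have e2 : (n0 : ℤ) * k + 2 ≤ b - y - ((D / b + 1 : ℕ) : ℤ) := by linarith
      have e3 : x * ((n0 : ℤ) * k + 2) ≤ x * (a - x - ((D / b + 1 : ℕ) : ℤ)) :=
        mul_le_mul_of_nonneg_left e1 hx0
      have e4 : y * ((n0 : ℤ) * k + 2) ≤ y * (b - y - ((D / b + 1 : ℕ) : ℤ)) :=
        mul_le_mul_of_nonneg_left e2 hy0
      have e5 : 0 ≤ (n0 : ℤ) * k + 2 := by positivity
      have e6 : (n0 : ℤ) * k + 2 ≤ (x + y) * ((n0 : ℤ) * k + 2) :=
        le_mul_of_one_le_left e5 hxy1
      have e8 : (x + y) * ((n0 : ℤ) * k + 2) = x * ((n0 : ℤ) * k + 2) + y * ((n0 : ℤ) * k + 2) := by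
        ring
      have e7 : 0 ≤ (k : ℤ) * (k - 1) := by
        rcases Nat.eq_zero_or_pos k with h | h
        · simp [h]
        · have : (1 : ℤ) ≤ k := by exact_mod_cast h
          exact mul_nonneg hk0 (by linarith)
      linarith
  by_cases hcase : 2 * ((∑ i, (1 - sv T (ve hN (Sum.inr (Sum.inl i))))) +
        ∑ j, sv T (ve hN (Sum.inr (Sum.inr j)))) ≤ a + b
  · exact main T hT hcase
  · rw [← cutJ_compl hJ]
    refine main Tᶜ ?_ ?_
    · rw [Finset.card_compl, Fintype.card_fin]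
      omega
    · simp only [sv_compl, sub_sub_cancel]
      rw [Finset.sum_sub_distrib] at hcase ⊢
      simp only [Finset.sum_const, Finset.card_univ, Fintype.card_fin, nsmul_eq_mul, mul_one,
        not_le] at hcase ⊢
      linarith

end

end Pool.Agent.Y645.BT
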