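import Pool.Agent.Y645.BT.MinBis
import Pool.Agent.Y645.BT.Limit
import Pool.Agent.H634R2.Clique

/-!
# The instances made from formulas
-/

set_option autoImplicit false

namespace Pool.Agent.Y645.BT

open Finset Pool.Agent.NPC Pool.Agent.NPC.H634R2

/-- Adjacency of the positions of the formula. -/
def hE (φ : List Cl3) (u v : ℕ) : Bool := decide ((u, v) ∈ gE φ) || decide ((v, u) ∈ gE φ)

theorem hE_comm (φ : List Cl3) (u v : ℕ) : hE φ u v = hE φ v u := by
  unfold hE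
  rw [Bool.or_comm]

theorem hE_self (φ : List Cl3) (u : ℕ) : hE φ u u = false := by
  unfold hE
  have h : (u, u) ∉ gE φ := fun h => lt_irrefl _ (gE_lt h)
  simp [h]

/-- The degree of a position. -/
def dgE (φ : List Cl3) (u : ℕ) : ℕ :=
  ((List.range (3 * φ.length)).filter fun v => hE φ u v).length

theorem dgE_eq (φ : List Cl3) (u : ℕ) :
    (dgE φ u : ℤ) = ∑ v : Fin (3 * φ.length), ii (hE φ u v) := by
  have h1 : ∑ v : Fin (3 * φ.length), ii (hE φ u v) =
      ∑ v ∈ Finset.range (3 * φ.length), ii (hE φ u v) :=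
    Fin.sum_univ_eq_sum_range (fun v => ii (hE φ u v)) _
  rw [h1]
  have h2 : ∑ v ∈ Finset.range (3 * φ.length), ii (hE φ u v) =
      (((Finset.range (3 * φ.length)).filter fun v => hE φ u v = true).card : ℤ) := by
    rw [← Finset.sum_boole]; rfl
  rw [h2]
  congr 1
  unfold dgE
  have h3 : ((List.range (3 * φ.length)).filter fun v => hE φ u v).Nodup :=
    List.nodup_range.filter _
  rw [← List.toFinset_card_of_nodup h3]
  congr 1
  ext v
  simp

theorem clique_iff (φ : List Cl3) :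
    (∃ S : Finset (Fin (3 * φ.length)), S.card = φ.length ∧
      ∀ u ∈ S, ∀ v ∈ S, u ≠ v → hE φ u v = true) ↔ SAT3 φ := by
  classical
  rw [← hasClique_g]
  constructor
  · rintro ⟨S, hS, hcl⟩
    refine ⟨S.map Fin.valEmbedding, ?_, by rw [card_map, hS], ?_⟩
    · intro v hv
      rw [mem_map] at hv
      obtain ⟨w, _, rfl⟩ := hv
      exact mem_gV.2 w.2
    · intro u hu v hv huv
      rw [mem_map] at hu hv
      obtain ⟨u', hu', rfl⟩ := hu
      obtain ⟨v', hv', rfl⟩ := hv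
      have h := hcl u' hu' v' hv' (fun h => huv (by rw [h]))
      unfold hE at h
      simpa using h
  · rintro ⟨K, hV, hK, hcl⟩
    have hlt : ∀ v ∈ K, v < 3 * φ.length := fun v hv => mem_gV.1 (hV v hv)
    refine ⟨univ.filter fun v : Fin (3 * φ.length) => (v : ℕ) ∈ K, ?_, ?_⟩
    · refine Eq.trans (Finset.card_bij (fun v _ => (v : ℕ)) ?_ ?_ ?_) hK
      · intro v hv
        exact (mem_filter.1 hv).2
      · intro u _ v _ h
        exact Fin.ext h
      · intro v hv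
        exact ⟨⟨v, hlt v hv⟩, mem_filter.2 ⟨mem_univ _, hv⟩, rfl⟩
    · intro u hu v hv huv
      have h := hcl u (mem_filter.1 hu).2 v (mem_filter.1 hv).2 (fun h => huv (Fin.ext h))
      unfold hE
      simpa using h

/-- Half the number of the vertices of the instance. -/
def pM (q m : ℕ) : ℕ := 2 ^ (16 * q * (m + 1) ^ 2).size

/-- The target for the minimum bisection. -/
def pK (p q m : ℕ) : ℕ := (2 * p * (2 * pM q m) ^ 2 - q) / (2 * q)

/-- The number of edges between the two large cliques. -/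
def pD (p q m : ℕ) : ℕ := pK p q m - (2 * m ^ 2 + m)

theorem pM_gt (q m : ℕ) : 16 * q * (m + 1) ^ 2 < pM q m := Nat.lt_size_self _

section

variable {p q m : ℕ}

theorem pK_bounds (hp : 0 < p) (hq : 8 * p < q) :
    2 * q * pK p q m + q ≤ 2 * p * (2 * pM q m) ^ 2 ∧
      2 * p * (2 * pM q m) ^ 2 < 2 * q * pK p q m + 3 * q := by
  have hq0 : 0 < q := by omega
  have h1 := pM_gt q m
  have h2 : q ≤ pM q m := by
    have h3 : q * 1 ≤ q * (16 * (m + 1) ^ 2) := by
      apply Nat.mul_le_mul_left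
      have : 0 < (m + 1) ^ 2 := by positivity
      omega
    have h4 : q * (16 * (m + 1) ^ 2) = 16 * q * (m + 1) ^ 2 := by ring
    omega
  have h3 : q ≤ 2 * p * (2 * pM q m) ^ 2 := by
    have h4 : 2 * pM q m ≤ (2 * pM q m) ^ 2 := Nat.le_self_pow (by norm_num) _
    have h5 : 1 * (2 * pM q m) ^ 2 ≤ 2 * p * (2 * pM q m) ^ 2 :=
      Nat.mul_le_mul_right _ (by omega)
    omega
  have h4 := Nat.div_add_mod (2 * p * (2 * pM q m) ^ 2 - q) (2 * q)
  have h5 := Nat.mod_lt (2 * p * (2 * pM q m) ^ 2 - q) (by omega : 0 < 2 * q)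
  change 2 * q * pK p q m + _ = _ at h4
  constructor
  · omega
  · omega

/-- The gap between the cost of a wrong vertex and the number of the other edges. -/
theorem gap_aux {r m b d : ℕ} (hbd : 16 * (r + 1) * (m + 1) ^ 2 < b + 2 * m) (hmb : m ≤ b)
    (hb : 0 < b) (hdiv : 4 * ((r + 1) * d) * b ≤ 2 * (r * (b + 2 * m) ^ 2)) :
    4 * (3 * m * m + 2) + ((b + m) + b) + 2 * (3 * m) + 4 * (d + 1) ≤ 4 * b := by
  by_contra hcon
  rw [not_le] at hcon
  have h3 : 2 * b < 12 * m ^ 2 + 7 * m + 12 + 4 * d := by linarith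
  have h4 : (r + 1) * b * (2 * b) < (r + 1) * b * (12 * m ^ 2 + 7 * m + 12 + 4 * d) :=
    Nat.mul_lt_mul_of_pos_left h3 (by positivity)
  have h5 : (r + 1) * b * (2 * b) < (r + 1) * b * (12 * m ^ 2 + 7 * m + 12) +
      2 * (r * (b + 2 * m) ^ 2) := by
    calc (r + 1) * b * (2 * b) < (r + 1) * b * (12 * m ^ 2 + 7 * m + 12 + 4 * d) := h4
      _ = (r + 1) * b * (12 * m ^ 2 + 7 * m + 12) + 4 * ((r + 1) * d) * b := by ring
      _ ≤ _ := Nat.add_le_add_left hdiv _
  have h6 : 2 * b * b < (r + 1) * b * (12 * m ^ 2 + 7 * m + 12) + 8 * r * m * b +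
      8 * r * m * m := by linarith
  have h8 : 8 * r * m * m ≤ 8 * r * m * b := Nat.mul_le_mul_left _ hmb
  have h9 : 2 * b * b < ((r + 1) * (12 * m ^ 2 + 7 * m + 12) + 16 * r * m) * b := by linarith
  have h10 : 2 * b < (r + 1) * (12 * m ^ 2 + 7 * m + 12) + 16 * r * m :=
    Nat.lt_of_mul_lt_mul_right h9
  have h12 : 16 * r * m ≤ 16 * (r + 1) * m := Nat.mul_le_mul_right _ (by omega)
  have h14 : 1 * (4 * m) ≤ (r + 1) * (4 * m) := Nat.mul_le_mul_right _ (by omega)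
  have h17 : 2 * (16 * (r + 1) * (m + 1) ^ 2) = (r + 1) * (12 * m ^ 2 + 7 * m + 12) +
      16 * (r + 1) * m + (r + 1) * (4 * m) + (r + 1) * (20 * m ^ 2 + 37 * m + 20) := by ring
  have h18 : 0 ≤ (r + 1) * (20 * m ^ 2 + 37 * m + 20) := Nat.zero_le _
  linarith

theorem params (hp : 0 < p) (hq : 8 * p < q) :
    m < pM q m ∧ 2 * m + 3 * m < pM q m ∧ 2 * m ^ 2 + m ≤ pK p q m ∧
    pD p q m ≤ (pM q m - m) * (pM q m - 2 * m) ∧
    4 * (3 * m * m + 2) + ((pM q m - m) + (pM q m - 2 * m)) + 2 * (3 * m) +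
      4 * (pD p q m / (pM q m - 2 * m) + 1) ≤ 4 * (pM q m - 2 * m) := by
  have hb := pK_bounds (m := m) hp hq
  have hM := pM_gt q m
  have hq9 : 9 ≤ q := by omega
  unfold pD
  generalize pM q m = M at *
  generalize pK p q m = K at *
  obtain ⟨h1, h2⟩ := hb
  have hm1 : m + 1 ≤ (m + 1) ^ 2 := Nat.le_self_pow (by norm_num) _
  have hMm : 16 * 9 * (m + 1) ^ 2 < M := by
    have : 16 * 9 * (m + 1) ^ 2 ≤ 16 * q * (m + 1) ^ 2 := Nat.mul_le_mul_right _ (by omega)
    omega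
  have e1 : m < M := by omega
  have e2 : 2 * m + 3 * m < M := by omega
  have h5 : 2 * p * (2 * M) ^ 2 = 8 * p * M ^ 2 := by ring
  -- the upper bound for `K`
  have hK2 : 2 * q * K ≤ (q - 1) * M ^ 2 := by
    have h3 : 8 * p ≤ q - 1 := by omega
    have h4 : 8 * p * M ^ 2 ≤ (q - 1) * M ^ 2 := Nat.mul_le_mul_right _ h3
    omega
  have hKlow : 2 * m ^ 2 + m ≤ K := by
    by_contra h
    rw [not_le] at h
    have h6 : 2 * q * K ≤ 2 * q * (2 * m ^ 2 + m) := Nat.mul_le_mul_left _ h.le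
    have h7 : 16 * q * (m + 1) ^ 2 = 2 * q * (2 * m ^ 2 + m) + 3 * q +
        q * (12 * m ^ 2 + 30 * m + 13) := by ring
    have h8 : M ≤ M ^ 2 := Nat.le_self_pow (by norm_num) _
    have h9 : 1 * M ^ 2 ≤ 8 * p * M ^ 2 := Nat.mul_le_mul_right _ (by omega)
    have h10 : 0 ≤ q * (12 * m ^ 2 + 30 * m + 13) := Nat.zero_le _
    omega
  obtain ⟨b, hbd⟩ : ∃ b, M = b + 2 * m := ⟨M - 2 * m, by omega⟩
  have hb1 : M - 2 * m = b := by omega
  have ha1 : M - m = b + m := by omega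
  have hb6 : 6 * m ≤ b := by omega
  have hbpos : 0 < b := by omega
  rw [hb1, ha1]
  refine ⟨e1, e2, hKlow, ?_, ?_⟩
  · -- `D ≤ a b`
    have h3 : 2 * K ≤ M ^ 2 := by
      have h4 : (q - 1) * M ^ 2 ≤ q * M ^ 2 := Nat.mul_le_mul_right _ (by omega)
      have h6 : q * (2 * K) ≤ q * M ^ 2 := by linarith
      exact Nat.le_of_mul_le_mul_left h6 (by omega)
    have h6 : M ^ 2 ≤ 2 * ((b + m) * b) := by
      rw [hbd]
      have h7 : 6 * m * b ≤ b * b := Nat.mul_le_mul_right _ hb6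
      have h8 : 6 * m * m ≤ b * m := Nat.mul_le_mul_right _ hb6
      have h9 : 0 ≤ m * b := Nat.zero_le _
      nlinarith
    omega
  · -- the gap
    obtain ⟨r, hr⟩ : ∃ r, q = r + 1 := ⟨q - 1, by omega⟩
    subst hr
    rw [Nat.add_sub_cancel] at hK2
    apply gap_aux (r := r) (by rw [← hbd]; exact hM) (by omega) hbpos
    have h3 := Nat.div_mul_le_self (K - (2 * m ^ 2 + m)) b
    have h4 : (K - (2 * m ^ 2 + m)) / b * b ≤ K := by omega
    calc 4 * ((r + 1) * ((K - (2 * m ^ 2 + m)) / b)) * b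
        = 4 * (r + 1) * ((K - (2 * m ^ 2 + m)) / b * b) := by ring
      _ ≤ 4 * (r + 1) * K := Nat.mul_le_mul_left _ h4
      _ = 2 * (2 * (r + 1) * K) := by ring
      _ ≤ _ := by rw [← hbd]; exact Nat.mul_le_mul_left _ hK2

end

/-- The graph of the instance of the formula. -/
def JI (p q : ℕ) (φ : List Cl3) : Fin (2 * pM q φ.length) → Fin (2 * pM q φ.length) → Bool :=
  JF (hE φ) (dgE φ) (3 * φ.length) (pM q φ.length - φ.length) (pM q φ.length - 2 * φ.length)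
    (pD p q φ.length) (2 * pM q φ.length)

/-- The parameter `s`. -/
def ps (q m : ℕ) : ℕ := 2 * (2 * pM q m) ^ 2

/-- The parameter `e`. -/
def pe (q m : ℕ) : ℕ := ps q m * (4 * q + 1)

theorem JI_comm (p q : ℕ) (φ : List Cl3) (c d : Fin (2 * pM q φ.length)) :
    JI p q φ c d = JI p q φ d c := Jn_comm (hE_comm φ) _ _ _ _ _ _ _

theorem kr_one {p q K N : ℕ} (hq : 0 < q) (c1 : 2 * q * K + q ≤ 2 * p * N ^ 2) :
    (K : ℝ) + 1 / 2 ≤ (p : ℝ) / q * (N : ℝ) ^ 2 := by
  have hq0 : (0 : ℝ) < q := by exact_mod_cast hq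
  have h1 : 2 * (q : ℝ) * K + q ≤ 2 * p * (N : ℝ) ^ 2 := by exact_mod_cast c1
  rw [div_mul_eq_mul_div, le_div_iff₀ hq0]
  linarith

theorem kr_two {p q K N : ℕ} (hq : 0 < q) (c2 : 2 * p * N ^ 2 < 2 * q * K + 3 * q) :
    (p : ℝ) / q * (N : ℝ) ^ 2 + 1 / 2 ≤ ((K + 2 : ℕ) : ℝ) := by
  have hq0 : (0 : ℝ) < q := by exact_mod_cast hq
  have h1 : 2 * p * (N : ℝ) ^ 2 < 2 * (q : ℝ) * K + 3 * q := by exact_mod_cast c2
  have h2 : (p : ℝ) / q * (N : ℝ) ^ 2 ≤ K + 3 / 2 := by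
    rw [div_mul_eq_mul_div, div_le_iff₀ hq0]
    linarith
  push_cast
  linarith

theorem es_bound {p q s : ℕ} (hp : 0 < p) (hq : 8 * p < q) (hs : 0 < s) :
    (1 / (s * (4 * q + 1) : ℕ) : ℝ) < 1 / (s : ℕ) * (1 / 4 - 2 * ((p : ℝ) / q)) := by
  have hq0 : (0 : ℝ) < q := by exact_mod_cast (by omega : 0 < q)
  have hs0' : (0 : ℝ) < (s : ℕ) := by exact_mod_cast hs
  push_cast
  rw [one_div, mul_inv, one_div]
  apply mul_lt_mul_of_pos_left _ (by positivity)
  have h1 : (1 : ℝ) / 4 - 2 * ((p : ℝ) / q) = (q - 8 * p) / (4 * q) := by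
    field_simp
    ring
  rw [h1, inv_eq_one_div, div_lt_div_iff₀ (by positivity) (by positivity)]
  have h2 : (1 : ℝ) ≤ q - 8 * p := by
    have : (8 * p + 1 : ℝ) ≤ q := by exact_mod_cast hq
    linarith
  have h3 := mul_le_mul_of_nonneg_right h2 (by positivity : (0 : ℝ) ≤ 4 * q + 1)
  linarith

theorem d_eq {m D K : ℕ} (h : D = K - (2 * m ^ 2 + m)) (hK : 2 * m ^ 2 + m ≤ K) :
    (D : ℤ) + (3 * m : ℕ) * m - m * (m - 1) = K := by
  have h1 : D + (2 * m ^ 2 + m) = K := by omega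
  have h2 : (D : ℤ) + (2 * (m : ℤ) ^ 2 + m) = K := by exact_mod_cast h1
  push_cast
  linarith

/-- **The idealised experiment decides satisfiability.** -/
theorem sim_sat (A : Alg) {p q : ℕ} (hp : 0 < p) (hq : 8 * p < q)
    (hA : A.Tests ((p : ℝ) / q)) (φ : List Cl3) :
    (SAT3 φ → A.sim (pe q φ.length) (ps q φ.length) (JI p q φ) false ≤ 1 / 3) ∧
    (¬ SAT3 φ → A.sim (pe q φ.length) (ps q φ.length) (JI p q φ) true ≤ 1 / 3) := by
  obtain ⟨k1, k2, k3, k4, k5⟩ := params (m := φ.length) hp hq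
  obtain ⟨c1, c2⟩ := pK_bounds (m := φ.length) hp hq
  have hq0 : (0 : ℝ) < q := by exact_mod_cast (by omega : 0 < q)
  have hρ8 : (p : ℝ) / q < 1 / 8 := by
    have hq8 : 8 * (p : ℝ) < q := by exact_mod_cast hq
    rw [div_lt_div_iff₀ hq0 (by norm_num)]
    linarith
  have hMpos : 0 < pM q φ.length := by omega
  have hs0 : 0 < ps q φ.length := by unfold ps; positivity
  have he0 : 0 < pe q φ.length := by unfold pe; positivity
  have hes : (1 / (pe q φ.length : ℕ) : ℝ) < 1 / (ps q φ.length : ℕ) * (1 / 4 - 2 * ((p : ℝ) / q)) :=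
    es_bound hp hq hs0
  have hN : 2 * pM q φ.length = 3 * φ.length + ((pM q φ.length - φ.length) +
      (pM q φ.length - 2 * φ.length)) := by omega
  have hKr : (pK p q φ.length : ℝ) + 1 / 2 ≤ (p : ℝ) / q * ((2 * pM q φ.length : ℕ) : ℝ) ^ 2 :=
    kr_one (by omega) c1
  have hKr2 : (p : ℝ) / q * ((2 * pM q φ.length : ℕ) : ℝ) ^ 2 + 1 / 2 ≤
      ((pK p q φ.length + 2 : ℕ) : ℝ) := kr_two (by omega) c2
  have hD : (pD p q φ.length : ℤ) + (3 * φ.length : ℕ) * φ.length -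
      φ.length * (φ.length - 1) = pK p q φ.length := d_eq rfl k3
  constructor
  · intro hsat
    refine sim_yes A (by positivity) hA he0 hes (JI_comm p q φ) rfl (by omega) rfl hKr ?_
    obtain ⟨T, hT, hc⟩ := inst_yes (E := hE φ) (dg := dgE φ) (D := pD p q φ.length)
      (k := φ.length) (fun u => dgE_eq φ u) (hE_self φ) (by omega) (by omega) (by omega) k4
      (by omega) hN rfl ((clique_iff φ).2 hsat)
    refine ⟨T, hT, ?_⟩
    rw [hD] at hc
    have h1 : cutJ (JI p q φ) T = pK p q φ.length := by exact_mod_cast hc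
    rw [h1]
  · intro hsat
    refine sim_no A hρ8 hA he0 hes (JI_comm p q φ) rfl (by omega) rfl hKr2 ?_
    intro T hT
    have h1 := inst_no (E := hE φ) (dg := dgE φ) (D := pD p q φ.length)
      (k := φ.length) (hE_comm φ) (hE_self φ) (fun u => dgE_eq φ u) (by omega) (by omega)
      (by omega) (by omega) k4 (by omega) (by omega) hN rfl k5
      (fun h => hsat ((clique_iff φ).1 h)) T hT
    rw [hD] at h1
    exact_mod_cast h1

end Pool.Agent.Y645.BT
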