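import Pool.Agent.Y645.BT.Blow

/-!
# The view of a query algorithm on a perturbed blow-up
-/

set_option autoImplicit false

namespace Pool.Agent.Y645.BT

open Finset

variable {n T N t : ℕ}

/-- The graph on the sampled vertices. -/
def pull (G : Gr n) (v : Fin T → Fin n) : Gr T := fun p => adj G (v p.1.1) (v p.1.2)

/-- The answers to the queries, from the graph on the sample. -/
def orcG (H : Gr T) (i j : ℕ) : Bool :=
  if h : i < T ∧ j < T then adj H ⟨i, h.1⟩ ⟨j, h.2⟩ else false

theorem orcOf_eq (G : Gr n) (v : Fin T → Fin n) : orcOf G v = orcG (pull G v) := by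
  funext i j
  unfold orcOf orcG
  by_cases h : i < T ∧ j < T
  · rw [dif_pos h, dif_pos h]
    rcases lt_trichotomy i j with h1 | h1 | h1
    · have h2 : (⟨i, h.1⟩ : Fin T) < ⟨j, h.2⟩ := h1
      conv_rhs => unfold adj
      rw [dif_pos h2]
      rfl
    · subst h1
      rw [adj_self, adj_self]
    · have h2 : (⟨j, h.2⟩ : Fin T) < ⟨i, h.1⟩ := h1
      conv_rhs => unfold adj
      rw [dif_neg (lt_asymm h2), dif_pos h2, adj_comm]
      rfl
  · rw [dif_neg h, dif_neg h]

/-- The map of pairs given by an injective sample. -/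
def prMap (v : Fin T → Fin n) (hv : Function.Injective v) (p : Pr T) : Pr n :=
  if h : v p.1.1 < v p.1.2 then ⟨(v p.1.1, v p.1.2), h⟩ else
    ⟨(v p.1.2, v p.1.1), lt_of_le_of_ne (not_lt.1 h) fun h2 => (ne_of_lt p.2) (hv h2).symm⟩

theorem prMap_inj (v : Fin T → Fin n) (hv : Function.Injective v) :
    Function.Injective (prMap v hv) := by
  rintro ⟨⟨i, j⟩, hij⟩ ⟨⟨i', j'⟩, hij'⟩ h
  unfold prMap at h
  simp only at h hij hij'
  split_ifs at h with h1 h2 h2
  · simp only [Subtype.mk.injEq, Prod.mk.injEq] at h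
    have e1 := hv h.1
    have e2 := hv h.2
    subst e1 e2
    rfl
  · simp only [Subtype.mk.injEq, Prod.mk.injEq] at h
    have e1 := hv h.1
    have e2 := hv h.2
    subst e1 e2
    exact absurd hij' (lt_asymm hij)
  · simp only [Subtype.mk.injEq, Prod.mk.injEq] at h
    have e1 := hv h.1
    have e2 := hv h.2
    subst e1 e2
    exact absurd hij' (lt_asymm hij)
  · simp only [Subtype.mk.injEq, Prod.mk.injEq] at h
    have e1 := hv h.1
    have e2 := hv h.2
    subst e1 e2
    rfl

theorem pull_eq (G : Gr n) (v : Fin T → Fin n) (hv : Function.Injective v) :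
    pull G v = G ∘ prMap v hv := by
  funext p
  unfold pull
  rw [Function.comp_apply]
  unfold prMap
  split_ifs with h
  · unfold adj
    rw [dif_pos h]
  · have h2 : v p.1.2 < v p.1.1 :=
      lt_of_le_of_ne (not_lt.1 h) fun h2 => (ne_of_lt p.2) (hv h2).symm
    unfold adj
    rw [dif_neg h, dif_pos h2]

/-- The law of the sampled graph. -/
theorem sum_pull {σ : ℝ} (G₀ : Gr n) (v : Fin T → Fin n) (hv : Function.Injective v)
    (F : Gr T → ℝ) :
    ∑ G : Gr n, wt σ G₀ G * F (pull G v) = ∑ H : Gr T, wt σ (pull G₀ v) H * F H := by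
  have h := marginal (prMap v hv) (prMap_inj v hv) (fun p b => wb σ (G₀ p) b)
    (fun p => wb_add (G₀ p)) F
  have e1 : ∀ G : Gr n, wt σ G₀ G * F (pull G v) =
      (∏ p, wb σ (G₀ p) (G p)) * F (G ∘ prMap v hv) := by
    intro G
    rw [pull_eq G v hv, wt_eq]
  rw [Finset.sum_congr rfl fun G _ => e1 G]
  refine h.trans ?_
  refine Finset.sum_congr rfl fun H _ => ?_
  rw [pull_eq G₀ v hv, wt_eq]
  rfl

/-- The class graph of a sample. -/
def bs (J : Fin N → Fin N → Bool) (c : Fin T → Fin N) : Gr T := fun p =>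
  WJ J (c p.1.1) (c p.1.2)

theorem pull_blow {J : Fin N → Fin N → Bool} (hJ : ∀ c d, J c d = J d c)
    {v : Fin T → Fin (N * t)} (hv : Function.Injective v) :
    pull (blow J t) v = bs J (fun i => cls (v i)) := by
  funext p
  unfold pull bs
  rw [adj_blow hJ fun h => (ne_of_lt p.2) (hv h)]

/-- Averages over the classes of the sample. -/
theorem sum_classes (g : (Fin T → Fin N) → ℝ) :
    ∑ v : Fin T → Fin (N * t), g (fun i => cls (v i)) = (t : ℝ) ^ T * ∑ c, g c := by
  let e : (Fin T → Fin (N * t)) ≃ (Fin T → Fin N) × (Fin T → Fin t) :=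
    (Equiv.arrowCongr (Equiv.refl _) finProdFinEquiv.symm).trans
      (Equiv.arrowProdEquivProdArrow _ _ _)
  have h1 : ∑ v : Fin T → Fin (N * t), g (fun i => cls (v i)) =
      ∑ x : (Fin T → Fin N) × (Fin T → Fin t), g x.1 := by
    refine Fintype.sum_equiv e _ _ fun v => ?_
    rfl
  rw [h1, Fintype.sum_prod_type, Finset.mul_sum]
  refine Finset.sum_congr rfl fun c _ => ?_
  simp

/-- The verdict computed from the graph on the sample. -/
def Alg.outG (A : Alg) (e s : ℕ) (H : Gr (A.bd e s)) (r : Fin (A.bd e s) → Bool) : Bool :=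
  A.run e s (List.ofFn r) (orcG H) (A.bd e s) []

theorem Alg.out_eq (A : Alg) (e s : ℕ) (G : Gr n) (v : Fin (A.bd e s) → Fin n)
    (r : Fin (A.bd e s) → Bool) : A.out e s G v r = A.outG e s (pull G v) r := by
  unfold Alg.out Alg.outG
  rw [orcOf_eq]

/-- The probability of the verdict `b` for the sampled graph with base graph `H₀`. -/
noncomputable def Alg.phi (A : Alg) (e s : ℕ) (b : Bool) (r : Fin (A.bd e s) → Bool)
    (H₀ : Gr (A.bd e s)) : ℝ :=
  ∑ H, wt (1 / s) H₀ H * (if A.outG e s H r = b then 1 else 0)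

/-- The probability of the verdict `b` in the idealised experiment. -/
noncomputable def Alg.sim (A : Alg) (e s : ℕ) (J : Fin N → Fin N → Bool) (b : Bool) : ℝ :=
  (∑ c : Fin (A.bd e s) → Fin N, ∑ r, A.phi e s b r (bs J c)) /
    ((N : ℝ) ^ A.bd e s * 2 ^ A.bd e s)

/-- The probability of the verdict `b` on the perturbed graph. -/
noncomputable def Alg.real (A : Alg) (e s : ℕ) (G₀ : Gr n) (b : Bool) : ℝ :=
  (∑ v : Fin (A.bd e s) → Fin n, ∑ r, ∑ G, wt (1 / s) G₀ G *
    (if A.out e s G v r = b then 1 else 0)) / ((n : ℝ) ^ A.bd e s * 2 ^ A.bd e s)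

theorem phi_bounds (A : Alg) {e s : ℕ} (hs : 1 ≤ s) (b : Bool) (r : Fin (A.bd e s) → Bool)
    (H₀ : Gr (A.bd e s)) : 0 ≤ A.phi e s b r H₀ ∧ A.phi e s b r H₀ ≤ 1 := by
  have hs' : (1 : ℝ) ≤ s := by exact_mod_cast hs
  have h0 : (0 : ℝ) ≤ 1 / s := by positivity
  have h1 : (1 : ℝ) / s ≤ 1 := by rw [div_le_one (by linarith)]; exact hs'
  constructor
  · refine Finset.sum_nonneg fun H _ => mul_nonneg (wt_nonneg h0 h1 _ _) ?_
    split_ifs <;> norm_num
  · rw [← wt_sum (σ := 1 / (s : ℝ)) H₀]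
    refine Finset.sum_le_sum fun H _ => ?_
    split_ifs
    · rw [mul_one]
    · rw [mul_zero]; exact wt_nonneg h0 h1 _ _

/-- The fraction of the samples with repetitions. -/
noncomputable def rep (n T : ℕ) : ℝ := 1 - (n.descFactorial T : ℝ) / (n : ℝ) ^ T

theorem card_not_inj (n T : ℕ) :
    (((univ : Finset (Fin T → Fin n)).filter fun v => ¬ Function.Injective v).card : ℝ) =
      (n : ℝ) ^ T - n.descFactorial T := by
  classical
  have h1 : ((univ : Finset (Fin T → Fin n)).filter fun v => Function.Injective v).card =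
      n.descFactorial T := by
    have h := Fintype.card_embedding_eq (α := Fin T) (β := Fin n)
    rw [Fintype.card_fin, Fintype.card_fin] at h
    rw [← h, ← Fintype.card_subtype]
    exact Fintype.card_congr (Equiv.subtypeInjectiveEquivEmbedding (Fin T) (Fin n))
  have h2 := Finset.card_filter_add_card_filter_not (s := (univ : Finset (Fin T → Fin n)))
    (fun v => Function.Injective v)
  rw [h1, Finset.card_univ, Fintype.card_fun, Fintype.card_fin, Fintype.card_fin] at h2
  have h3 : ((n.descFactorial T : ℝ) +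
    (((univ : Finset (Fin T → Fin n)).filter fun v => ¬ Function.Injective v).card : ℝ)) =
      (n : ℝ) ^ T := by exact_mod_cast h2
  linarith

/-- **The idealised experiment.** -/
theorem sim_le_real (A : Alg) {e s : ℕ} (hs : 1 ≤ s) {J : Fin N → Fin N → Bool}
    (hJ : ∀ c d, J c d = J d c) (hN : 0 < N) (ht : 0 < t) (b : Bool) :
    A.sim e s J b ≤ A.real e s (blow J t) b + rep (N * t) (A.bd e s) := by
  classical
  have hN' : (0 : ℝ) < N := by exact_mod_cast hN
  have ht' : (0 : ℝ) < t := by exact_mod_cast ht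
  have h1 : A.sim e s J b = (∑ v : Fin (A.bd e s) → Fin (N * t), ∑ r,
      A.phi e s b r (bs J (fun i => cls (v i)))) / (((N * t : ℕ) : ℝ) ^ (A.bd e s) * 2 ^ (A.bd e s)) := by
    rw [sum_classes (fun c => ∑ r, A.phi e s b r (bs J c))]
    unfold Alg.sim
    rw [Nat.cast_mul, mul_pow]
    field_simp
  rw [h1]
  unfold Alg.real rep
  have hd : (0 : ℝ) < ((N * t : ℕ) : ℝ) ^ (A.bd e s) * 2 ^ (A.bd e s) := by
    have : (0 : ℝ) < ((N * t : ℕ) : ℝ) := by exact_mod_cast Nat.mul_pos hN ht
    positivity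
  rw [div_le_iff₀ hd, add_mul, div_mul_cancel₀ _ hd.ne']
  have h2 : (1 - (((N * t).descFactorial (A.bd e s) : ℕ) : ℝ) / ((N * t : ℕ) : ℝ) ^ (A.bd e s)) *
      (((N * t : ℕ) : ℝ) ^ (A.bd e s) * 2 ^ (A.bd e s)) =
      (((N * t : ℕ) : ℝ) ^ (A.bd e s) - (N * t).descFactorial (A.bd e s)) * 2 ^ (A.bd e s) := by
    have h3 : (0 : ℝ) < ((N * t : ℕ) : ℝ) ^ (A.bd e s) := by
      have : (0 : ℝ) < ((N * t : ℕ) : ℝ) := by exact_mod_cast Nat.mul_pos hN ht
      positivity
    field_simp
  rw [h2, ← card_not_inj]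
  have h4 : (((univ : Finset (Fin (A.bd e s) → Fin (N * t))).filter
      fun v => ¬ Function.Injective v).card : ℝ) * 2 ^ (A.bd e s) =
      ∑ v : Fin (A.bd e s) → Fin (N * t), if Function.Injective v then 0 else (2 : ℝ) ^ (A.bd e s) := by
    rw [← Finset.sum_boole, Finset.sum_mul]
    refine Finset.sum_congr rfl fun v _ => ?_
    by_cases h : Function.Injective v <;> simp [h]
  rw [h4, ← Finset.sum_add_distrib]
  refine Finset.sum_le_sum fun v _ => ?_
  by_cases hv : Function.Injective v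
  · rw [if_pos hv, add_zero]
    refine Finset.sum_le_sum fun r _ => ?_
    rw [← pull_blow hJ hv]
    unfold Alg.phi
    rw [← sum_pull (σ := 1 / (s : ℝ)) (blow J t) v hv
      (fun H => if A.outG e s H r = b then 1 else 0)]
    refine (Finset.sum_congr rfl fun G _ => ?_).le
    rw [A.out_eq]
  · rw [if_neg hv]
    have h5 : ∑ r : Fin (A.bd e s) → Bool, A.phi e s b r (bs J (fun i => cls (v i))) ≤
        2 ^ (A.bd e s) := by
      refine (Finset.sum_le_sum fun r _ => (phi_bounds A hs b r _).2).trans ?_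
      simp
    have h6 : 0 ≤ ∑ r : Fin (A.bd e s) → Bool, ∑ G, wt (1 / s) (blow J t) G *
        (if A.out e s G v r = b then 1 else 0) := by
      have hs' : (1 : ℝ) ≤ s := by exact_mod_cast hs
      refine Finset.sum_nonneg fun r _ => Finset.sum_nonneg fun G _ =>
        mul_nonneg (wt_nonneg (by positivity) (by rw [div_le_one (by linarith)]; exact hs') _ _) ?_
      split_ifs <;> norm_num
    linarith

/-- Repetitions become rare. -/
theorem rep_tendsto (T : ℕ) : Filter.Tendsto (fun n : ℕ => rep n T) Filter.atTop (nhds 0) := by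
  have h0 : ∀ n : ℕ, 0 ≤ rep n T := by
    intro n
    unfold rep
    rw [sub_nonneg]
    apply div_le_one_of_le₀
    · exact_mod_cast Nat.descFactorial_le_pow n T
    · positivity
  have h1 : ∀ n : ℕ, T < n → rep n T ≤ (T : ℝ) ^ 2 / n := by
    intro n hn
    have hn' : (0 : ℝ) < n := by exact_mod_cast (by omega : 0 < n)
    have hTn : (T : ℝ) < n := by exact_mod_cast hn
    have h2 : ((n : ℝ) - T) ^ T ≤ n.descFactorial T := by
      have h3 : (n - T) ^ T ≤ n.descFactorial T :=
        le_trans (Nat.pow_le_pow_left (by omega) T) (Nat.pow_sub_le_descFactorial n T)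
      have h4 : (((n - T) ^ T : ℕ) : ℝ) ≤ n.descFactorial T := by exact_mod_cast h3
      rwa [Nat.cast_pow, Nat.cast_sub hn.le] at h4
    have h5 : 1 - (T : ℝ) * (T / n) ≤ (1 - (T : ℝ) / n) ^ T := by
      have h6 : (-2 : ℝ) ≤ -((T : ℝ) / n) := by
        have : (T : ℝ) / n ≤ 1 := by rw [div_le_one hn']; exact hTn.le
        linarith
      have := one_add_mul_le_pow h6 T
      calc 1 - (T : ℝ) * (T / n) = 1 + T * (-(T / n)) := by ring
        _ ≤ _ := this
        _ = _ := by ring
    have h7 : (1 - (T : ℝ) / n) ^ T = ((n : ℝ) - T) ^ T / (n : ℝ) ^ T := by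
      rw [← div_pow]
      congr 1
      field_simp
    unfold rep
    have h8 : ((n : ℝ) - T) ^ T / (n : ℝ) ^ T ≤ (n.descFactorial T : ℝ) / (n : ℝ) ^ T :=
      div_le_div_of_nonneg_right h2 (by positivity)
    have h9 : (T : ℝ) * (T / n) = (T : ℝ) ^ 2 / n := by ring
    rw [← h7] at h8
    linarith
  have h2 : Filter.Tendsto (fun n : ℕ => (T : ℝ) ^ 2 / n) Filter.atTop (nhds 0) :=
    tendsto_const_div_atTop_nhds_zero_nat _
  refine squeeze_zero' (Filter.Eventually.of_forall h0) ?_ h2
  filter_upwards [Filter.eventually_gt_atTop T] with n hn using h1 n hn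

end Pool.Agent.Y645.BT
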